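import Pool.Agent.Lib.MP_64d474_lc.ST3.Stmts3

/-!
# Sums of matrices given by their rows
-/

set_option autoImplicit false

namespace Pool.Agent.Lib.MP_64d474_lc.ST3

namespace AddAux

theorem sq_zerM (n : ℕ) : Sq n (zerM n) := by
  refine ⟨by rw [zerM, List.length_replicate], ?_⟩
  intro r hr
  rw [zerM, List.mem_replicate] at hr
  rw [hr.2, List.length_replicate]

theorem toM_zerM (p n : ℕ) : toM p n (zerM n) = 0 := by
  ext i j
  have h1 : (zerM n).getD (i : ℕ) [] = List.replicate n 0 := by
    rw [zerM, List.getD_eq_getElem _ _ (by rw [List.length_replicate]; exact i.2),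
      List.getElem_replicate]
  have h2 : (List.replicate n 0).getD (j : ℕ) 0 = 0 := by
    rw [List.getD_eq_getElem _ _ (by rw [List.length_replicate]; exact j.2),
      List.getElem_replicate]
  show ((((zerM n).getD (i : ℕ) []).getD (j : ℕ) 0 : ℕ) : ZMod p) = 0
  rw [h1, h2, Nat.cast_zero]

theorem length_getD {n : ℕ} {M : List (List ℕ)} (hM : Sq n M) {i : ℕ} (hi : i < n) :
    (M.getD i []).length = n := by
  have h1 : i < M.length := by
    rw [hM.1]
    exact hi
  rw [List.getD_eq_getElem _ _ h1]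
  exact hM.2 _ (List.getElem_mem h1)

theorem getD_addM {p t n : ℕ} {M N : List (List ℕ)} (hM : Sq n M) (hN : Sq n N) {i : ℕ}
    (hi : i < n) : (addM p t M N).getD i [] =
      List.zipWith (fun x y => (x + t * y) % p) (M.getD i []) (N.getD i []) := by
  have h1 : i < M.length := by
    rw [hM.1]
    exact hi
  have h2 : i < N.length := by
    rw [hN.1]
    exact hi
  have h3 : i < (addM p t M N).length := by
    rw [addM, List.length_zipWith]
    exact lt_min h1 h2
  rw [List.getD_eq_getElem _ _ h3, List.getD_eq_getElem _ _ h1, List.getD_eq_getElem _ _ h2]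
  simp only [addM, List.getElem_zipWith]

theorem sq_addM {p t n : ℕ} {M N : List (List ℕ)} (hM : Sq n M) (hN : Sq n N) :
    Sq n (addM p t M N) := by
  have h0 : (addM p t M N).length = n := by
    rw [addM, List.length_zipWith, hM.1, hN.1, min_self]
  refine ⟨h0, ?_⟩
  intro r hr
  obtain ⟨i, hi, rfl⟩ := List.getElem_of_mem hr
  have hi' : i < n := by
    rw [← h0]
    exact hi
  rw [← List.getD_eq_getElem _ [] hi, getD_addM hM hN hi', List.length_zipWith,
    length_getD hM hi', length_getD hN hi', min_self]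

theorem toM_addM {p t n : ℕ} {M N : List (List ℕ)} (hM : Sq n M) (hN : Sq n N) :
    toM p n (addM p t M N) = toM p n M + (t : ZMod p) • toM p n N := by
  ext i j
  show ((((addM p t M N).getD (i : ℕ) []).getD (j : ℕ) 0 : ℕ) : ZMod p) =
    (((M.getD (i : ℕ) []).getD (j : ℕ) 0 : ℕ) : ZMod p) +
      (t : ZMod p) * (((N.getD (i : ℕ) []).getD (j : ℕ) 0 : ℕ) : ZMod p)
  have h1 : (j : ℕ) < (M.getD (i : ℕ) []).length := by
    rw [length_getD hM i.2]
    exact j.2
  have h2 : (j : ℕ) < (N.getD (i : ℕ) []).length := by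
    rw [length_getD hN i.2]
    exact j.2
  rw [getD_addM hM hN i.2]
  have h3 : (j : ℕ) < (List.zipWith (fun x y => (x + t * y) % p) (M.getD (i : ℕ) [])
      (N.getD (i : ℕ) [])).length := by
    rw [List.length_zipWith]
    exact lt_min h1 h2
  rw [List.getD_eq_getElem _ _ h3, List.getD_eq_getElem _ _ h1, List.getD_eq_getElem _ _ h2,
    List.getElem_zipWith, ZMod.natCast_mod]
  push_cast
  rfl

theorem sq_getD {n : ℕ} {Bs : List (List (List ℕ))} (hB : ∀ B ∈ Bs, Sq n B) (k : ℕ) :
    Sq n (Bs.getD k (zerM n)) := by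
  rcases lt_or_ge k Bs.length with h | h
  · rw [List.getD_eq_getElem _ _ h]
    exact hB _ (List.getElem_mem h)
  · rw [List.getD_eq_default _ _ h]
    exact sq_zerM n

theorem fold {p n : ℕ} {Bs : List (List (List ℕ))} (hB : ∀ B ∈ Bs, Sq n B) (q : List ℕ) :
    ∀ N, Sq n N → Sq n (q.foldl (fun N k => addM p 1 N (Bs.getD k (zerM n))) N) ∧
      toM p n (q.foldl (fun N k => addM p 1 N (Bs.getD k (zerM n))) N) =
        toM p n N + (q.map fun k => toM p n (Bs.getD k (zerM n))).sum := by
  induction q with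
  | nil =>
    intro N hN
    refine ⟨hN, ?_⟩
    simp
  | cons k q ih =>
    intro N hN
    have h1 := ih _ (sq_addM (p := p) (t := 1) hN (sq_getD hB k))
    refine ⟨h1.1, ?_⟩
    rw [List.foldl_cons, h1.2, toM_addM hN (sq_getD hB k), List.map_cons, List.sum_cons,
      Nat.cast_one, one_smul, add_assoc]

end AddAux

open AddAux in
theorem stAdd : StAdd := by
  intro p n _
  refine ⟨⟨sq_zerM n, toM_zerM p n⟩, fun t M N hM hN => ⟨sq_addM hM hN, toM_addM hM hN⟩, ?_⟩
  intro Bs q hB
  have h := fold (p := p) hB q (zerM n) (sq_zerM n)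
  rw [toM_zerM, zero_add] at h
  exact h

end Pool.Agent.Lib.MP_64d474_lc.ST3
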