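import Mathlib

/-!
# Shortest paths in a graph, with lists

The vertices are the numbers below `m`.  The entry `k` of `src` tells whether the vertex `k` is a
source, the entry `k` of `sink` whether it is a sink, the entry `l` of the entry `k` of `E` whether
there is an edge from `k` to `l`.
-/

set_option autoImplicit false

namespace Pool.Agent.Lib.MP_64d474_lc.ST3

/-- there is an edge from `k` to `l` -/
def ed (E : List (List Bool)) (k l : ℕ) : Bool := (E.getD k []).getD l false

/-- The paths (in reverse order) of the next level: for the vertices that are not the head of a
path in `all` and that have an edge from the head of a path in `fr`. -/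
def newP (m : ℕ) (E : List (List Bool)) (all fr : List (List ℕ)) : List (List ℕ) :=
  ((List.range m).filter fun l =>
    !(all.any fun q => decide (q.headD m = l)) && fr.any fun q => ed E (q.headD m) l).map fun l =>
      l :: (fr.filter fun q => ed E (q.headD m) l).headD []

/-- one level: all paths found so far, and the paths of the last level -/
def bstep (m : ℕ) (E : List (List Bool)) (s : List (List ℕ) × List (List ℕ)) :
    List (List ℕ) × List (List ℕ) :=
  (s.1 ++ newP m E s.1 s.2, newP m E s.1 s.2)

def srcP (m : ℕ) (src : List Bool) : List (List ℕ) :=
  ((List.range m).filter fun k => src.getD k false).map fun k => [k]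

/-- The paths of all levels. -/
def allP (m : ℕ) (src : List Bool) (E : List (List Bool)) : List (List ℕ) :=
  ((bstep m E)^[m] (srcP m src, srcP m src)).1

/-- A shortest path from a source to a sink in reverse order, or `[]`. -/
def findP (m : ℕ) (src sink : List Bool) (E : List (List Bool)) : List ℕ :=
  ((allP m src E).filter fun q => sink.getD (q.headD m) false).headD []

end Pool.Agent.Lib.MP_64d474_lc.ST3
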