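import Pool.Agent.Lib.MP_64d474_lc.ST2.Alg
import Pool.Agent.Lib.MP_64d474_lc.ST3.Bfs

/-!
# The third algorithm

The variables whose coefficient matrix has rank at least two are the wild ones.  They take the
values `wv`; for every choice of these values and every small prime it is decided by augmenting
paths whether the other variables can be chosen such that the matrix is nonsingular modulo the
prime.  If the number of rows is small, the Fischer norm of the determinant is computed instead.
-/

set_option autoImplicit false

open Pool.Agent.Lib.MP_64d474_lc.ST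
open Pool.Agent.Lib.MP_64d474_lc.ST2 (rkmod cmat hitv hitm goodF rw' nr)

namespace Pool.Agent.Lib.MP_64d474_lc.ST3

/-! ### Matrices modulo a number, given by their rows -/

/-- two matrices side by side -/
def catH (M N : List (List ℕ)) : List (List ℕ) := List.zipWith (fun r s => r ++ s) M N

/-- the zero matrix with `n` rows and columns -/
def zerM (n : ℕ) : List (List ℕ) := List.replicate n (List.replicate n 0)

/-- `M + t N` modulo `p` -/
def addM (p t : ℕ) (M N : List (List ℕ)) : List (List ℕ) :=
  List.zipWith (fun r s => List.zipWith (fun x y => (x + t * y) % p) r s) M N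

/-- a row of `B` is not a combination of the rows of `M` -/
def srcB (p n : ℕ) (M B : List (List ℕ)) : Bool := decide (rkmod p n M < rkmod p n (M ++ B))

/-- a column of `B` is not a combination of the columns of `M` -/
def sinkB (p n : ℕ) (M B : List (List ℕ)) : Bool :=
  decide (rkmod p n M < rkmod p (n + n) (catH M B))

/-- the rank of the matrix with the blocks `M`, `B`, `B'`, `0` is larger than that of `M` -/
def edgeB (p n : ℕ) (M B B' : List (List ℕ)) : Bool :=
  decide (rkmod p n M < rkmod p (n + n) (catH M B ++ catH B' (zerM n)))

/-! ### Augmentation -/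

/-- the augmenting path for the matrix `M` and the matrices `Bs` of rank one -/
def augP (p n : ℕ) (Bs : List (List (List ℕ))) (M : List (List ℕ)) : List ℕ :=
  findP Bs.length (Bs.map fun B => srcB p n M B) (Bs.map fun B => sinkB p n M B)
    (Bs.map fun B => Bs.map fun B' => edgeB p n M B B')

/-- the sum of the matrices on the path -/
def sumP (p n : ℕ) (Bs : List (List (List ℕ))) (q : List ℕ) : List (List ℕ) :=
  q.foldl (fun N k => addM p 1 N (Bs.getD k (zerM n))) (zerM n)

/-- the first `t` for which adding `t N` to `M` enlarges the rank -/
def bestT (p n T : ℕ) (M N : List (List ℕ)) : ℕ :=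
  ((List.range T).filter fun t => decide (rkmod p n M < rkmod p n (addM p t M N))).headD 0

/-- one augmentation -/
def augS (p n : ℕ) (Bs : List (List (List ℕ))) (M : List (List ℕ)) : List (List ℕ) :=
  addM p (bestT p n (Bs.length + 3) M (sumP p n Bs (augP p n Bs M))) M
    (sumP p n Bs (augP p n Bs M))

/-- some combination of `M` and the matrices `Bs` of rank one (with coefficient one for `M`) is
nonsingular -/
def oneOK (p n : ℕ) (Bs : List (List (List ℕ))) (M : List (List ℕ)) : Bool :=
  decide (rkmod p n ((augS p n Bs)^[n] M) = n)

/-! ### The wild variables -/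

/-- the ranks that are at most `R` -/
def low (l : List ℕ) (R : ℕ) : List ℕ := l.map fun x => if x ≤ R then x else 0

/-- the list of the ranks larger than `R` -/
def his (l : List ℕ) (R : ℕ) : List ℕ := l.filter fun x => decide (R < x)

/-- the number of the digits for the ranks at most `R` -/
def dgs (l : List ℕ) (R : ℕ) : ℕ := digs (low l R).sum R

/-- the value of the variable with the number `j` for the list `l` of ranks and the digits `x`;
`0` for the variables that are not wild -/
def wv (l : List ℕ) (R : ℕ) (x : List ℕ) (j : ℕ) : ℕ :=
  if 2 ≤ l.getD j 0 then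
    if l.getD j 0 ≤ R then hitv (low l R) R (x.take (dgs l R)) j
    else (x.drop (dgs l R)).getD (his (l.take j) R).length 0
  else 0

/-- the same modulo `p` -/
def wm (p : ℕ) (l : List ℕ) (R : ℕ) (x : List ℕ) (j : ℕ) : ℕ :=
  if 2 ≤ l.getD j 0 then
    if l.getD j 0 ≤ R then hitm p (low l R) R (x.take (dgs l R)) j
    else (x.drop (dgs l R)).getD (his (l.take j) R).length 0 % p
  else 0

/-- an entry of the wild part modulo `p` -/
def entW (p : ℕ) (V : List (List Bool)) (l : List ℕ) (R : ℕ) (x : List ℕ) (f : List RPair) : ℕ :=
  (f.map fun q => coefmod p q.1 * wm p l R x (V.idxOf q.2)).sum % p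

/-- the wild part modulo `p` -/
def matW (p : ℕ) (l : List ℕ) (R : ℕ) (x : List ℕ) (A : RMat) : List (List ℕ) :=
  A.map fun r => r.map (entW p (vars A) l R x)

/-- the coefficient matrices of the other variables modulo `p`, one for every first occurrence of
a variable, zero matrices for the other occurrences and the wild variables -/
def ones (p : ℕ) (l : List ℕ) (A : RMat) : List (List (List ℕ)) :=
  (List.range (vars A).length).map fun j =>
    if (vars A).idxOf ((vars A).getD j []) = j ∧ l.getD j 0 < 2 then
      cmat p ((vars A).getD j []) A
    else zerM A.length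

/-- the determinants of the tests, times a factorial, have absolute value less than
`2 ^ kb3 L` -/
def kb3 (L : ℕ) : ℕ := 2 * kbound L

def pb3 (L : ℕ) : ℕ := 1024 * ((kb3 L + 1) * (kb3 L + 1))

/-- some prime up to the bound shows that, with these values of the wild variables, the determinant
is not `0` -/
def goodW (A : RMat) (B : ℕ) (l : List ℕ) (R : ℕ) (x : List ℕ) : Bool :=
  (List.range B).any fun p => isPrime (p + 1) && (decide ((vars A).length + 3 < p + 1) &&
    oneOK (p + 1) A.length (ones (p + 1) l A) (matW (p + 1) l R x A))

/-! ### The parameters -/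

/-- the logarithm of the number of the choices -/
def costR (l : List ℕ) (R : ℕ) : ℕ :=
  R * R * (Nat.log 2 (R + 1) + 1) + ((his l R).map fun x => Nat.log 2 (x + 1) + 1).sum

def okR (l : List ℕ) (R : ℕ) : Bool := decide (1 ≤ R) && decide ((low l R).sum ≤ R * (R * R))

/-- the best side -/
def best (l : List ℕ) : ℕ :=
  ((List.range (l.sum + 2)).filter (okR l)).foldl
    (fun a R => if costR l R < costR l a then R else a) (l.sum + 1)

/-- all lists with the bounds `B` for the members -/
def mvecs (B : List ℕ) : List (List ℕ) :=
  B.foldr (fun D V => V.flatMap fun l => (List.range (D + 1)).map fun x => x :: l) [[]]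

def rs3 (w : List Letter) : ℕ := best (rw' w)

def cost3 (w : List Letter) : ℕ := costR (rw' w) (rs3 w)

/-- use the Fischer norm -/
def useF3 (w : List Letter) : Bool := decide (nr w ≤ cost3 w)

/-- the bounds of the digits -/
def bl (w : List Letter) : List ℕ :=
  bif useF3 w then List.replicate (nr w) 1 else
    List.replicate (dgs (rw' w) (rs3 w)) (dmax (low (rw' w) (rs3 w)).sum (rs3 w)) ++
      his (rw' w) (rs3 w)

/-- the decision for the list `vs` of lists of digits -/
def dec3 (w : List Letter) (vs : List (List ℕ)) : Bool :=
  wellformed w && bif useF3 w then goodF (parse w) (pbound w.length) vs else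
    vs.any fun x => goodW (parse w) (pb3 w.length) (rw' w) (rs3 w) x

def vs3 (w : List Letter) : List (List ℕ) := mvecs (bl w)

/-- **The decision.** -/
def accept3 (w : List Letter) : Bool := dec3 w (vs3 w)

/-- the bound of the running time -/
def tb3 (c : ℕ) (w : List Letter) : ℕ :=
  (w.length + 2) ^ c * 2 ^ (c * min (nr w) (cost3 w))

end Pool.Agent.Lib.MP_64d474_lc.ST3
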