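import Pool.Agent.Lib.MP_64d474_lc.ST3.Stmts3
import Pool.Agent.Lib.MP_64d474_lc.ST2.Asm2

/-!
# Assembly of the third machine
-/

set_option autoImplicit false
set_option maxHeartbeats 800000

open Finset Pool.Agent.Lib.PT Pool.Agent.Lib.MP_64d474_lc.ST
open Pool.Agent.Lib.MP_64d474_lc.ST2 (rkmod cmat hitv hitm goodF rw' nr wl wr rl goodF_iff
  exists_prime_iff StTab StWick StBoundF StNr StRl Hf)

namespace Pool.Agent.Lib.MP_64d474_lc.ST3

/-- the matrix modulo `p` as a combination -/
theorem evalM_mod (hmod : StMod3) (A : SMat) (p R : ℕ) (x : List ℕ) (y : ℕ → ℕ) (hp : 0 < p)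
    (hsq : ∀ r ∈ A, r.length = A.length)
    (hlen : (ones p (wl A) (raw A)).length = (varsN A).length) :
    (evalM A (pointW A R x y) : Matrix _ _ ℤ).map (Int.castRingHom (ZMod p)) =
      toM p A.length (matW p (wl A) R x (raw A)) +
        ∑ k : Fin (ones p (wl A) (raw A)).length,
          (y k : ZMod p) • toM p A.length ((ones p (wl A) (raw A)).get k) := by
  ext i j
  rw [Matrix.map_apply, eq_intCast, hmod A p R x y hp hsq i j, Matrix.add_apply,
    Matrix.sum_apply]
  congr 1
  rw [← hlen, Finset.sum_range fun k =>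
    (y k : ZMod p) * toM p A.length ((ones p (wl A) (raw A)).getD k []) i j]
  refine Finset.sum_congr rfl fun k _ => ?_
  rw [Matrix.smul_apply, smul_eq_mul, List.getD_eq_getElem _ _ k.isLt]
  rfl

theorem oneOK_iff (hone : StOne) (hon : StOnes) (hmod : StMod3) (A : SMat) (p R : ℕ)
    (x : List ℕ) (hp : p.Prime) (hsq : ∀ r ∈ A, r.length = A.length)
    (hm : (varsN A).length + 3 < p) :
    oneOK p A.length (ones p (wl A) (raw A)) (matW p (wl A) R x (raw A)) = true ↔
      ∃ y : ℕ → ℕ, ¬ (p : ℤ) ∣ (evalM A (pointW A R x y) : Matrix _ _ ℤ).det := by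
  have : Fact p.Prime := ⟨hp⟩
  obtain ⟨o1, o2, o3⟩ := hon A p hsq
  have key : ∀ y : ℕ → ℕ, ¬ (p : ℤ) ∣ (evalM A (pointW A R x y) : Matrix _ _ ℤ).det ↔
      (toM p A.length (matW p (wl A) R x (raw A)) +
        ∑ k : Fin (ones p (wl A) (raw A)).length,
          (y k : ZMod p) • toM p A.length ((ones p (wl A) (raw A)).get k)).det ≠ 0 := by
    intro y
    rw [← evalM_mod hmod A p R x y hp.pos hsq o2, ← RingHom.mapMatrix_apply,
      ← RingHom.map_det, eq_intCast, Ne, ZMod.intCast_zmod_eq_zero_iff_dvd]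
  rw [hone p A.length _ _ (o1 R x) o3 (by rw [o2]; exact hm)]
  constructor
  · rintro ⟨c, hc⟩
    refine ⟨fun k => if hk : k < (ones p (wl A) (raw A)).length then (c ⟨k, hk⟩).val else 0, ?_⟩
    rw [key]
    have e : ∀ k : Fin (ones p (wl A) (raw A)).length,
        (((if hk : (k : ℕ) < (ones p (wl A) (raw A)).length then (c ⟨k, hk⟩).val else 0 : ℕ)) :
          ZMod p) = c k := by
      intro k
      rw [dif_pos k.isLt]
      simp
    simp only [e]
    exact hc
  · rintro ⟨y, hy⟩
    exact ⟨fun k => (y k : ZMod p), (key y).1 hy⟩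

theorem goodW_iff (hip : StIsPrime) (hone : StOne) (hon : StOnes) (hmod : StMod3) (A : SMat)
    (B R : ℕ) (x : List ℕ) (hsq : ∀ r ∈ A, r.length = A.length)
    (hvars : (vars (raw A)).length = (varsN A).length) :
    goodW (raw A) B (wl A) R x = true ↔ ∃ p < B, (p + 1).Prime ∧
      (varsN A).length + 3 < p + 1 ∧
      ∃ y : ℕ → ℕ, ¬ ((p + 1 : ℕ) : ℤ) ∣ (evalM A (pointW A R x y) : Matrix _ _ ℤ).det := by
  have hl : (raw A).length = A.length := by simp [raw]
  unfold goodW
  simp only [List.any_eq_true, List.mem_range, Bool.and_eq_true, decide_eq_true_eq]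
  refine exists_congr fun p => and_congr_right fun _ => ?_
  rw [hip (p + 1), hl, hvars]
  refine and_congr_right fun hp => and_congr_right fun hm => ?_
  exact oneOK_iff hone hon hmod A (p + 1) R x hp hsq hm

theorem accept3_code (hP : StParse) (hR : StRaw) (hS : StSizes) (hpr : StPrime)
    (hip : StIsPrime) (hone : StOne) (hon : StOnes) (hmod : StMod3) (hb : StBound3)
    (hp3 : StPrime3) (hbest : StBest) (hev : StEval) (hhit : StHit3) (hrl : StRl)
    (hwick : StWick) (htab : StTab) (hbF : StBoundF) (hnr : StNr) (hmv : StMv)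
    (A : SMat) (hsq : ∀ r ∈ A, r.length = A.length) :
    accept3 (code A) = true ↔ (toMat A).det ≠ 0 := by
  obtain ⟨hR1, hR2, hR3⟩ := hR
  have h1 : parse (code A) = raw A := by rw [← hR1, hP]
  have hwf : wellformed (code A) = true := by
    unfold wellformed
    rw [h1, hR1, hR2, raw_square A hsq]
    simp
  obtain ⟨-, hS2, -, hS4, -⟩ := hS A
  have hvars : (vars (raw A)).length = (varsN A).length := by rw [hS2, List.length_map]
  obtain ⟨hl1, hl2, hl3⟩ := hrl A hsq
  have hrw : rw' (code A) = wl A := by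
    unfold rw'
    rw [hwf, h1]
    exact hl1
  have hn := hnr A
  unfold accept3 dec3
  rw [hwf, Bool.true_and, h1]
  cases hu : useF3 (code A) with
  | true =>
    have e1 : vs3 (code A) = vecs 1 A.length := by
      unfold vs3 bl
      rw [hu, hn, cond_true, hmv.2.2]
    rw [e1, cond_true, goodF_iff hip htab A _ hsq, exists_prime_iff hpr (Hf A)
      (kbound (code A).length) (pbound (code A).length) (by unfold pbound; rfl) (hbF A hsq)]
    exact hwick A
  | false =>
    obtain ⟨b1, b2, -⟩ := hbest (wl A)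
    have hrs : rs3 (code A) = best (wl A) := by
      unfold rs3
      rw [hrw]
    have hR1' : 1 ≤ best (wl A) := by
      unfold okR at b1
      rw [Bool.and_eq_true, decide_eq_true_eq] at b1
      exact b1.1
    have e1 : vs3 (code A) = mvecs (blA A (best (wl A))) := by
      unfold vs3 bl blA
      rw [hu, hrs, hrw, cond_false]
    rw [e1, cond_false, hrw, hrs]
    simp only [List.any_eq_true]
    constructor
    · rintro ⟨x, -, h2⟩ h3
      rw [goodW_iff hip hone hon hmod A _ _ x hsq hvars] at h2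
      obtain ⟨p, -, -, -, y, hy⟩ := h2
      apply hy
      rw [← hev, h3, map_zero]
      exact dvd_zero _
    · intro h2
      obtain ⟨x, hx, y, hy, h3⟩ := hhit A (best (wl A)) hsq hR1' h2
      refine ⟨x, hx, ?_⟩
      rw [goodW_iff hip hone hon hmod A _ _ x hsq hvars]
      obtain ⟨p, hp, hpp, hpm, hpd⟩ := hp3 (code A).length (varsN A).length _ hS4 h3
        (hb A _ x y hsq hR1' b2 (hl2.le.trans hl3) hx hy)
      exact ⟨p, hp, hpp, hpm, y, hpd⟩

theorem accept3_iff (hP : StParse) (hR : StRaw) (hS : StSizes) (hpr : StPrime)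
    (hip : StIsPrime) (hone : StOne) (hon : StOnes) (hmod : StMod3) (hb : StBound3)
    (hp3 : StPrime3) (hbest : StBest) (hev : StEval) (hhit : StHit3) (hrl : StRl)
    (hwick : StWick) (htab : StTab) (hbF : StBoundF) (hnr : StNr) (hmv : StMv)
    (w : List Letter) : accept3 w = true ↔ ∃ A : SMat, code A = w ∧ Nonsingular A := by
  have hc := accept3_code hP hR hS hpr hip hone hon hmod hb hp3 hbest hev hhit hrl hwick htab
    hbF hnr hmv
  obtain ⟨hR1, hR2, hR3⟩ := hR
  constructor
  · intro h
    have h1 : wellformed w = true := by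
      unfold accept3 dec3 at h
      rw [Bool.and_eq_true] at h
      exact h.1
    unfold wellformed at h1
    rw [Bool.and_eq_true, Bool.and_eq_true, decide_eq_true_eq] at h1
    obtain ⟨h2, h3, h4⟩ := h1
    have h5 := hR3 _ h3
    have hcode : code (unraw (parse w)) = w := by rw [← hR1, h5, h2]
    have hsq : ∀ r ∈ unraw (parse w), r.length = (unraw (parse w)).length :=
      square_of_raw _ (by rw [h5]; exact h4)
    refine ⟨unraw (parse w), hcode, hsq, ?_⟩
    rw [← hc _ hsq, hcode]
    exact h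
  · rintro ⟨A, rfl, hsq, hdet⟩
    exact (hc A hsq).2 hdet

end Pool.Agent.Lib.MP_64d474_lc.ST3
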