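import Pool.Agent.Lib.MP_64d474_lc.ST.Defs

/-!
# The ranks of the coefficient matrices
-/

set_option autoImplicit false

open Pool.Agent.Lib.MP_64d474_lc.ST

namespace Pool.Agent.Lib.MP_64d474_lc.ST3

/-- The coefficient matrix of the variable `k`. -/
def coefMatrix (A : SMat) (k : ℕ) : Matrix (Fin A.length) (Fin A.length) ℚ :=
  fun i j => (((A.getD i []).getD j []).map fun p => if p.2 = k then (p.1 : ℚ) else 0).sum

/-- The indices of the variables. -/
def indices (A : SMat) : Finset ℕ :=
  ((A.flatMap fun r => r.flatMap fun e => e.map Prod.snd) : List ℕ).toFinset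

/-- The sum of the ranks of those coefficient matrices whose rank is at least `2` and at most
`R`. -/
noncomputable def lowRank (A : SMat) (R : ℕ) : ℕ :=
  ∑ k ∈ indices A,
    if 2 ≤ (coefMatrix A k).rank ∧ (coefMatrix A k).rank ≤ R then (coefMatrix A k).rank else 0

/-- The product of the numbers `rank + 1` for those coefficient matrices whose rank is larger than
`R`. -/
noncomputable def highProd (A : SMat) (R : ℕ) : ℕ :=
  ∏ k ∈ indices A, if R < (coefMatrix A k).rank then (coefMatrix A k).rank + 1 else 1

end Pool.Agent.Lib.MP_64d474_lc.ST3
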