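import Pool.Agent.Lib.MP_64d474_lc.ST3.Alg3
import Pool.Agent.Lib.MP_64d474_lc.ST3.Defs3
import Pool.Agent.Lib.MP_64d474_lc.ST2.Stmts

/-!
# Statements of the modules of the third machine
-/

set_option autoImplicit false

open Finset Pool.Agent.Lib.PT Pool.Agent.Lib.MP_64d474_lc.ST
open Pool.Agent.Lib.MP_64d474_lc.ST2 (rkmod rw' nr wl wr StRk StPTRk StPTHit StPTGoodF StRl)

namespace Pool.Agent.Lib.MP_64d474_lc.ST3

/-! ### Linear algebra -/

section linear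

variable {F : Type} [Field F] {n : ℕ}

/-- the kernel of `M` is not contained in the kernel of `B` -/
def Src (M B : Matrix (Fin n) (Fin n) F) : Prop := ∃ x, M.mulVec x = 0 ∧ B.mulVec x ≠ 0

/-- the range of `B` is not contained in the range of `M` -/
def Sink (M B : Matrix (Fin n) (Fin n) F) : Prop := ∃ y, ∀ x, M.mulVec x ≠ B.mulVec y

def Edg (M B B' : Matrix (Fin n) (Fin n) F) : Prop :=
  ∃ x y, M.mulVec x = B.mulVec y ∧ B'.mulVec x ≠ 0

end linear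

def StKer : Prop := ∀ (F : Type) [Field F] (n : ℕ) (M B B' : Matrix (Fin n) (Fin n) F),
  (M.rank < (Matrix.fromRows M B).rank ↔ Src M B) ∧
  (M.rank < (Matrix.fromCols M B).rank ↔ Sink M B) ∧
  (¬ Sink M B → (M.rank < (Matrix.fromBlocks M B B' 0).rank ↔ Edg M B B'))

def StAug : Prop := ∀ (F : Type) [Field F] (n i : ℕ) (M : Matrix (Fin n) (Fin n) F)
  (B : ℕ → Matrix (Fin n) (Fin n) F), (∀ j ≤ i, (B j).rank ≤ 1) → Src M (B 0) →
  (∀ j, 1 ≤ j → j ≤ i → ¬ Src M (B j)) → Sink M (B i) → (∀ j < i, ¬ Sink M (B j)) →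
  (∀ j < i, Edg M (B j) (B (j + 1))) → (∀ j j', j + 1 < j' → j' ≤ i → ¬ Edg M (B j) (B j')) →
  ∀ T : Finset F, i + 2 ≤ T.card → 0 ∉ T →
    ∃ t ∈ T, M.rank < (M + t • ∑ j ∈ range (i + 1), B j).rank

def StDual : Prop := ∀ (F : Type) [Field F] (n m : ℕ) (M : Matrix (Fin n) (Fin n) F)
  (B : Fin m → Matrix (Fin n) (Fin n) F) (S : Fin m → Prop), (∀ k, Src M (B k) → S k) →
  (∀ k l, S k → Edg M (B k) (B l) → S l) → (∀ k, S k → ¬ Sink M (B k)) →
  ∀ c : Fin m → F, (M + ∑ k, c k • B k).rank ≤ M.rank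

def StGrid : Prop := ∀ (n m : ℕ) (B₀ : Matrix (Fin n) (Fin n) ℚ)
  (B : Fin m → Matrix (Fin n) (Fin n) ℚ) (r : Fin m → ℕ) (x : Fin m → ℚ),
  (∀ k, (B k).rank ≤ r k) → (B₀ + ∑ k, x k • B k).det ≠ 0 →
  ∃ h : Fin m → ℕ, (∀ k, h k ≤ r k) ∧ (B₀ + ∑ k, (h k : ℚ) • B k).det ≠ 0

/-! ### Paths -/

def StBfs : Prop := ∀ (m : ℕ) (src sink : List Bool) (E : List (List Bool)),
  (findP m src sink E = [] → ∃ S : ℕ → Prop, (∀ k, S k → k < m) ∧
    (∀ k, k < m → src.getD k false = true → S k) ∧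
    (∀ k l, S k → l < m → ed E k l = true → S l) ∧ ∀ k, S k → sink.getD k false = false) ∧
  (findP m src sink E ≠ [] → ∃ (i : ℕ) (q : ℕ → ℕ), i ≤ m ∧
    findP m src sink E = ((List.range (i + 1)).map q).reverse ∧ (∀ j ≤ i, q j < m) ∧
    src.getD (q 0) false = true ∧ (∀ j, 1 ≤ j → j ≤ i → src.getD (q j) false = false) ∧
    sink.getD (q i) false = true ∧ (∀ j < i, sink.getD (q j) false = false) ∧
    (∀ j < i, ed E (q j) (q (j + 1)) = true) ∧
    ∀ j j', j + 1 < j' → j' ≤ i → ed E (q j) (q j') = false)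

/-! ### Matrices as lists -/

/-- a list of `n` rows of length `n` -/
def Sq (n : ℕ) (M : List (List ℕ)) : Prop := M.length = n ∧ ∀ r ∈ M, r.length = n

/-- the matrix modulo `p` -/
def toM (p n : ℕ) (M : List (List ℕ)) : Matrix (Fin n) (Fin n) (ZMod p) :=
  Matrix.of fun i j => (((M.getD i []).getD j 0 : ℕ) : ZMod p)

def StBlk : Prop := ∀ (p : ℕ) [Fact p.Prime] (n : ℕ) (M B B' : List (List ℕ)),
  Sq n M → Sq n B → Sq n B' →
  rkmod p n M = (toM p n M).rank ∧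
  rkmod p n (M ++ B) = (Matrix.fromRows (toM p n M) (toM p n B)).rank ∧
  rkmod p (n + n) (catH M B) = (Matrix.fromCols (toM p n M) (toM p n B)).rank ∧
  rkmod p (n + n) (catH M B ++ catH B' (zerM n)) =
    (Matrix.fromBlocks (toM p n M) (toM p n B) (toM p n B') 0).rank

def StAdd : Prop := ∀ (p n : ℕ), 0 < p → (Sq n (zerM n) ∧ toM p n (zerM n) = 0) ∧
  (∀ (t : ℕ) (M N : List (List ℕ)), Sq n M → Sq n N → Sq n (addM p t M N) ∧
    toM p n (addM p t M N) = toM p n M + (t : ZMod p) • toM p n N) ∧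
  ∀ (Bs : List (List (List ℕ))) (q : List ℕ), (∀ B ∈ Bs, Sq n B) → Sq n (sumP p n Bs q) ∧
    toM p n (sumP p n Bs q) = (q.map fun k => toM p n (Bs.getD k (zerM n))).sum

def StStep : Prop := ∀ (p : ℕ) [Fact p.Prime] (n : ℕ) (Bs : List (List (List ℕ)))
  (M : List (List ℕ)), Sq n M → (∀ B ∈ Bs, Sq n B ∧ (toM p n B).rank ≤ 1) →
  Bs.length + 3 < p → Sq n (augS p n Bs M) ∧
  (∃ c : Fin Bs.length → ZMod p, toM p n (augS p n Bs M) =
    toM p n M + ∑ k, c k • toM p n (Bs.get k)) ∧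
  (toM p n M).rank ≤ (toM p n (augS p n Bs M)).rank ∧
  ((∃ c : Fin Bs.length → ZMod p,
      (toM p n M).rank < (toM p n M + ∑ k, c k • toM p n (Bs.get k)).rank) →
    (toM p n M).rank < (toM p n (augS p n Bs M)).rank)

def StOne : Prop := ∀ (p : ℕ) [Fact p.Prime] (n : ℕ) (Bs : List (List (List ℕ)))
  (M : List (List ℕ)), Sq n M → (∀ B ∈ Bs, Sq n B ∧ (toM p n B).rank ≤ 1) →
  Bs.length + 3 < p → (oneOK p n Bs M = true ↔ ∃ c : Fin Bs.length → ZMod p,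
    (toM p n M + ∑ k, c k • toM p n (Bs.get k)).det ≠ 0)

/-! ### Points -/

def StMv : Prop := (∀ (B x : List ℕ), x ∈ mvecs B ↔ List.Forall₂ (fun a b => a ≤ b) x B) ∧
  (∀ B : List ℕ, (mvecs B).length = (B.map fun b => b + 1).prod) ∧
  ∀ D T : ℕ, mvecs (List.replicate T D) = vecs D T

/-- the list of the bounds of the digits -/
noncomputable def blA (A : SMat) (R : ℕ) : List ℕ :=
  List.replicate (dgs (wl A) R) (dmax (low (wl A) R).sum R) ++ his (wl A) R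

/-- the point: digits `x` for the wild variables, `y` for the other ones -/
noncomputable def pointW (A : SMat) (R : ℕ) (x : List ℕ) (y : ℕ → ℕ) (k : ℕ) : ℤ :=
  if 2 ≤ (wl A).getD ((varsN A).idxOf k) 0 then (wv (wl A) R x ((varsN A).idxOf k) : ℤ)
  else (y ((varsN A).idxOf k) : ℤ)

def StHit3 : Prop := ∀ (A : SMat) (R : ℕ), (∀ r ∈ A, r.length = A.length) → 1 ≤ R →
  (toMat A).det ≠ 0 → ∃ x ∈ mvecs (blA A R), ∃ y : ℕ → ℕ, (∀ j, y j ≤ 1) ∧
    (evalM A (pointW A R x y) : Matrix _ _ ℤ).det ≠ 0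

def StWm : Prop := ∀ (p : ℕ) (l : List ℕ) (R : ℕ) (x : List ℕ) (j : ℕ), 0 < p →
  ((wm p l R x j : ℕ) : ZMod p) = ((wv l R x j : ℕ) : ZMod p)

def StMod3 : Prop := ∀ (A : SMat) (p R : ℕ) (x : List ℕ) (y : ℕ → ℕ), 0 < p →
  (∀ r ∈ A, r.length = A.length) → ∀ i j : Fin A.length,
  ((evalM A (pointW A R x y) i j : ℤ) : ZMod p) =
    toM p A.length (matW p (wl A) R x (raw A)) i j +
      ∑ k ∈ range (varsN A).length,
        (y k : ZMod p) * toM p A.length ((ones p (wl A) (raw A)).getD k []) i j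

def StOnes : Prop := ∀ (A : SMat) (p : ℕ) [Fact p.Prime], (∀ r ∈ A, r.length = A.length) →
  (∀ (R : ℕ) (x : List ℕ), Sq A.length (matW p (wl A) R x (raw A))) ∧
  (ones p (wl A) (raw A)).length = (varsN A).length ∧
  ∀ B ∈ ones p (wl A) (raw A), Sq A.length B ∧ (toM p A.length B).rank ≤ 1

def StBound3 : Prop := ∀ (A : SMat) (R : ℕ) (x : List ℕ) (y : ℕ → ℕ),
  (∀ r ∈ A, r.length = A.length) → 1 ≤ R → R ≤ (wl A).sum + 1 →
  (wl A).sum ≤ (code A).length → x ∈ mvecs (blA A R) → (∀ j, y j ≤ 1) →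
  ((evalM A (pointW A R x y) : Matrix _ _ ℤ).det).natAbs < 2 ^ kbound (code A).length

def StPrime3 : Prop := ∀ (L m : ℕ) (D : ℤ), m ≤ L → D ≠ 0 → D.natAbs < 2 ^ kbound L →
  ∃ p < pb3 L, (p + 1).Prime ∧ m + 3 < p + 1 ∧ ¬ ((p + 1 : ℕ) : ℤ) ∣ D

/-! ### Parameters -/

def StRl3 : Prop := ∀ (A : SMat) (R : ℕ), (∀ r ∈ A, r.length = A.length) → 1 ≤ R →
  (low (wl A) R).sum = lowRank A R ∧
    ((his (wl A) R).map fun x => x + 1).prod = highProd A R

def StBest : Prop := ∀ l : List ℕ, okR l (best l) = true ∧ best l ≤ l.sum + 1 ∧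
  ∀ R : ℕ, okR l R = true → costR l (best l) ≤ costR l R

def StSum3 : Prop := ∀ w : List Letter, (rw' w).sum ≤ w.length ∧ terms w ≤ w.length ∧
  nr w ≤ w.length

def StBd3 : Prop := ∀ (p : Polynomial ℕ) (c : ℕ), ∃ c', ∀ w : List Letter,
  p.eval (tb3 c w) ≤ tb3 c' w

def StNum3 : Prop := ∀ c : ℕ, ∃ c' : ℕ, ∀ (w : List Letter) (R P : ℕ), 1 ≤ R → 1 ≤ P →
  (low (rw' w) R).sum ≤ R ^ 3 → ((his (rw' w) R).map fun x => x + 1).prod ≤ P →
  tb3 c w ≤ (w.length + 2) ^ c' *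
    min (2 ^ (c' * w.count .row)) (P ^ c' * (R + 1) ^ (c' * R ^ 2))

def StLoop3 : Prop := ∃ c : ℕ, (∀ w : List Letter, sz w ≤ tb3 c w) ∧
  TB (tb3 c) fun w : List Letter => (w, vs3 w)

/-! ### Polynomial time -/

def StPTBfs : Prop := PTime fun q : ℕ × List Bool × List Bool × List (List Bool) =>
  findP q.1 q.2.1 q.2.2.1 q.2.2.2

def StPTAugP : Prop := PTime fun q : ℕ × ℕ × List (List (List ℕ)) × List (List ℕ) =>
  augP (q.1 + 1) q.2.1 q.2.2.1 q.2.2.2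

def StPTOne : Prop := PTime fun q : ℕ × ℕ × List (List (List ℕ)) × List (List ℕ) =>
  oneOK (q.1 + 1) q.2.1 q.2.2.1 q.2.2.2

def StPTMatW : Prop := PTime fun q : ℕ × List ℕ × ℕ × List ℕ × RMat =>
  matW (q.1 + 1) q.2.1 q.2.2.1 q.2.2.2.1 q.2.2.2.2

def StPTOnes : Prop := PTime fun q : ℕ × List ℕ × RMat => ones (q.1 + 1) q.2.1 q.2.2

def StPTGoodW : Prop := PTime fun q : RMat × ℕ × List ℕ × ℕ × List ℕ =>
  goodW q.1 q.2.1 q.2.2.1 q.2.2.2.1 q.2.2.2.2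

def StPTBest : Prop := (PTime fun l : List ℕ => best l) ∧
  (PTime fun q : List ℕ × ℕ => costR q.1 q.2) ∧ (PTime fun q : List ℕ × ℕ => low q.1 q.2) ∧
  PTime fun q : List ℕ × ℕ => his q.1 q.2

def StPTPar3 : Prop := (PTime fun w : List Letter => rw' w) ∧
  (PTime fun w : List Letter => rs3 w) ∧ (PTime fun w : List Letter => useF3 w) ∧
  PTime fun w : List Letter => bl w

def StPTDec3 : Prop := PTime fun q : List Letter × List (List ℕ) => dec3 q.1 q.2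

end Pool.Agent.Lib.MP_64d474_lc.ST3
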