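import Mathlib
import Pool.Agent.Lib.MP_64d474_lc.ST3.Stmts3
import Pool.Agent.Lib.MP_64d474_lc.RankTools
import Pool.Agent.Lib.MP_64d474_lc.SubExp.RankOne
import Pool.Agent.Lib.MP_64d474_lc.SubExp.Grid

/-!
# Augmenting paths for matrices of rank one
-/

set_option autoImplicit false

open Finset Polynomial Matrix

namespace Pool.Agent.Lib.MP_64d474_lc.ST3

namespace AugAux

variable {F : Type} [Field F] {n : ℕ}

/-- If a pencil has large rank at `0` and the second matrix has small rank, then the rank is large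
at one of many points. -/
theorem pencil {ι : Type} [Fintype ι] [DecidableEq ι] (q : ℕ) (K : Matrix ι ι F)
    (X : Matrix ι (Fin q) F) (Y : Matrix (Fin q) ι F) (T : Finset F) (hT : q + 1 ≤ T.card) :
    ∃ s ∈ T, K.rank ≤ (K - s • (X * Y)).rank := by
  classical
  obtain ⟨P, Q, hPQ⟩ := exists_minor_of_le_rank K K.rank le_rfl
  set D : F[X] := (Matrix.fromBlocks ((P * K * Q).map C) ((P * X).map C)
    ((Polynomial.X : F[X]) • (Y * Q).map C) 1).det with hD
  have hev : ∀ s : F, D.eval s = (P * (K - s • (X * Y)) * Q).det := by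
    intro s
    have h1 : P * (K - s • (X * Y)) * Q = P * K * Q - (P * X) * (s • (Y * Q)) := by
      rw [Matrix.mul_sub, Matrix.sub_mul, Matrix.mul_smul, Matrix.smul_mul, Matrix.mul_smul]
      simp only [Matrix.mul_assoc]
    rw [h1, ← Matrix.det_fromBlocks_one₂₂, hD, ← coe_evalRingHom, RingHom.map_det]
    congr 1
    ext a b
    rcases a with a | a <;> rcases b with b | b <;>
      simp [Matrix.one_apply, apply_ite, -Matrix.map_mul, mul_comm s]
  have hD0 : D ≠ 0 := by
    intro h0
    apply hPQ
    have h := hev 0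
    rw [h0, eval_zero, zero_smul, sub_zero] at h
    exact h.symm
  have hdeg : D.natDegree ≤ q := by
    have h := SubExp.natDegree_det_le
      (Matrix.fromBlocks ((P * K * Q).map C) ((P * X).map C)
        ((Polynomial.X : F[X]) • (Y * Q).map C) (1 : Matrix (Fin q) (Fin q) F[X]))
      (Sum.elim (fun _ => 0) fun _ => 1) (by
        intro a b
        rcases a with a | a <;> rcases b with b | b
        · simp [-Matrix.map_mul]
        · simp [-Matrix.map_mul]
        · simp only [fromBlocks_apply₂₁, Matrix.smul_apply, Matrix.map_apply, smul_eq_mul,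
            Sum.elim_inr]
          refine natDegree_mul_le.trans ?_
          rw [natDegree_C, natDegree_X]
        · simp only [fromBlocks_apply₂₂, Matrix.one_apply, Sum.elim_inr]
          split_ifs <;> simp)
    refine h.trans ?_
    simp
  have hex : ∃ s ∈ T, D.eval s ≠ 0 := by
    by_contra hcon
    push Not at hcon
    have h1 : T.val ≤ D.roots := by
      rw [Multiset.le_iff_subset T.nodup]
      intro s hs
      rw [mem_roots hD0]
      exact hcon s hs
    have h2 := Multiset.card_le_card h1
    have h3 := D.card_roots'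
    have h4 : T.val.card = T.card := rfl
    omega
  obtain ⟨s, hs, hs0⟩ := hex
  refine ⟨s, hs, ?_⟩
  rw [hev] at hs0
  exact le_rank_of_minor _ _ P Q hs0

theorem rank_add_le {m k : Type} [Fintype m] [Fintype k] (A B : Matrix m k F) :
    (A + B).rank ≤ A.rank + B.rank := by
  have h : LinearMap.range (A + B).mulVecLin ≤
      LinearMap.range A.mulVecLin ⊔ LinearMap.range B.mulVecLin := by
    rintro _ ⟨x, rfl⟩
    rw [Matrix.mulVecLin_add, LinearMap.add_apply]
    exact Submodule.add_mem_sup ⟨x, rfl⟩ ⟨x, rfl⟩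
  exact (Submodule.finrank_mono h).trans (Submodule.finrank_add_le_finrank_add_finrank _ _)

theorem rank_le_schur (q : ℕ) (M : Matrix (Fin n) (Fin n) F) (U : Matrix (Fin n) (Fin q) F)
    (V : Matrix (Fin q) (Fin n) F) (t : F) (ht : t ≠ 0) :
    (Matrix.fromBlocks M U V (-(t⁻¹ • (1 : Matrix (Fin q) (Fin q) F)))).rank ≤
      (M + t • (U * V)).rank + q := by
  have h1 : Matrix.fromBlocks M U V (-(t⁻¹ • (1 : Matrix (Fin q) (Fin q) F))) =
      Matrix.fromBlocks 1 (-(t • U)) 0 1 *
        Matrix.fromBlocks (M + t • (U * V)) 0 V (-(t⁻¹ • (1 : Matrix (Fin q) (Fin q) F))) := by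
    rw [Matrix.fromBlocks_multiply]
    congr 1
    · simp
    · simp only [Matrix.mul_zero, zero_add, Matrix.mul_neg, Matrix.mul_smul, Matrix.mul_one,
        smul_neg, neg_neg, smul_smul, inv_mul_cancel₀ ht, one_smul]
    · simp
    · simp
  rw [h1]
  refine (Matrix.rank_mul_le_right _ _).trans ?_
  have h2 : Matrix.fromBlocks (M + t • (U * V)) 0 V (-(t⁻¹ • (1 : Matrix (Fin q) (Fin q) F))) =
      (Matrix.fromRows (1 : Matrix (Fin n) (Fin n) F) 0) * (M + t • (U * V)) *
        (Matrix.fromCols (1 : Matrix (Fin n) (Fin n) F) 0) +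
      (Matrix.fromRows (0 : Matrix (Fin n) (Fin q) F) (1 : Matrix (Fin q) (Fin q) F)) *
        (Matrix.fromCols V (-(t⁻¹ • (1 : Matrix (Fin q) (Fin q) F)))) := by
    ext a b
    rcases a with a | a <;> rcases b with b | b <;>
      simp [Matrix.fromRows_mul, Matrix.mul_fromCols]
  rw [h2]
  refine (rank_add_le _ _).trans (add_le_add ?_ ?_)
  · exact (Matrix.rank_mul_le_left _ _).trans (Matrix.rank_mul_le_right _ _)
  · refine (Matrix.rank_mul_le_left _ _).trans ?_
    refine (Matrix.rank_le_card_width _).trans ?_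
    simp

end AugAux

open AugAux in
theorem stAug : StAug := by
  classical
  intro F _ n i M B hB hsrc hnsrc hsink hnsink hedg hnedg T hT hT0
  have hfac : ∀ j, ∃ u v : Fin n → F, j ≤ i → B j = vecMulVec u v := by
    intro j
    by_cases h : j ≤ i
    · obtain ⟨u, v, h⟩ := SubExp.eq_vecMulVec (B j) (hB j h)
      exact ⟨u, v, fun _ => h⟩
    · exact ⟨0, 0, fun h' => absurd h' h⟩
  choose u v huv using hfac
  have hmul : ∀ j ≤ i, ∀ x, (B j).mulVec x = (v j ⬝ᵥ x) • u j := by
    intro j hj x
    rw [huv j hj, Matrix.vecMulVec_mulVec]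
    simp
  have hvker : ∀ j, 1 ≤ j → j ≤ i → u j ≠ 0 → ∀ x, M.mulVec x = 0 → v j ⬝ᵥ x = 0 := by
    intro j h1 h2 hu x hx
    by_contra hne
    apply hnsrc j h1 h2
    refine ⟨x, hx, ?_⟩
    rw [hmul j h2]
    exact smul_ne_zero hne hu
  -- the edges
  have hx : ∀ j, ∃ x : Fin n → F, j < i → M.mulVec x = u j ∧ v (j + 1) ⬝ᵥ x ≠ 0 ∧ u j ≠ 0 ∧
      ∃ y, M.mulVec x = (B j).mulVec y := by
    intro j
    by_cases hj : j < i
    swap
    · exact ⟨0, fun h => absurd h hj⟩
    obtain ⟨x, y, hxy, hne⟩ := hedg j hj
    rw [hmul (j + 1) (by omega)] at hne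
    have hne1 : v (j + 1) ⬝ᵥ x ≠ 0 := fun h => hne (by rw [h, zero_smul])
    have hxy' := hxy
    rw [hmul j hj.le] at hxy
    have h0 : M.mulVec x ≠ 0 := by
      intro h0
      apply hnsrc (j + 1) (by omega) (by omega)
      refine ⟨x, h0, ?_⟩
      rw [hmul (j + 1) (by omega)]
      exact hne
    have hc : v j ⬝ᵥ y ≠ 0 := fun h => h0 (by rw [hxy, h, zero_smul])
    have hu : u j ≠ 0 := fun h => h0 (by rw [hxy, h, smul_zero])
    refine ⟨(v j ⬝ᵥ y)⁻¹ • x, fun _ => ⟨?_, ?_, hu, (v j ⬝ᵥ y)⁻¹ • y, ?_⟩⟩
    · rw [Matrix.mulVec_smul, hxy, smul_smul, inv_mul_cancel₀ hc, one_smul]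
    · rw [dotProduct_smul]
      exact smul_ne_zero (inv_ne_zero hc) hne1
    · rw [Matrix.mulVec_smul, Matrix.mulVec_smul, hxy']
  choose z hz using hx
  have hui : u i ≠ 0 := by
    intro h
    obtain ⟨y, hy⟩ := hsink
    apply hy 0
    rw [hmul i le_rfl, h, smul_zero, Matrix.mulVec_zero]
  have hu : ∀ j ≤ i, u j ≠ 0 := by
    intro j hj
    rcases lt_or_eq_of_le hj with h | h
    · exact (hz j h).2.2.1
    · rw [h]
      exact hui
  have hzz : ∀ j j', j + 1 < j' → j' ≤ i → v j' ⬝ᵥ z j = 0 := by
    intro j j' h1 h2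
    by_contra hne
    obtain ⟨y, hy⟩ := (hz j (by omega)).2.2.2
    apply hnedg j j' h1 h2
    refine ⟨z j, y, hy, ?_⟩
    rw [hmul j' h2]
    exact smul_ne_zero hne (hu j' h2)
  -- the matrices
  let U : Matrix (Fin n) (Fin (i + 1)) F := Matrix.of fun a j => u j a
  let V : Matrix (Fin (i + 1)) (Fin n) F := Matrix.of fun j a => v j a
  have hUV : ∑ j ∈ range (i + 1), B j = U * V := by
    ext a b
    rw [Matrix.sum_apply, Matrix.mul_apply, Finset.sum_range]
    refine Finset.sum_congr rfl fun j _ => ?_
    rw [huv j (by omega), vecMulVec_apply]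
    rfl
  let K : Matrix (Fin n ⊕ Fin (i + 1)) (Fin n ⊕ Fin (i + 1)) F := Matrix.fromBlocks M U V 0
  have hker : ∀ w : Fin n ⊕ Fin (i + 1) → F, K.mulVec w = 0 →
      (∀ j, w (Sum.inr j) = 0) ∧ M.mulVec (w ∘ Sum.inl) = 0 ∧ v 0 ⬝ᵥ (w ∘ Sum.inl) = 0 := by
    intro w hw
    set x := w ∘ Sum.inl with hxdef
    set a : Fin (i + 1) → F := w ∘ Sum.inr with hadef
    have hw1 : M.mulVec x + U.mulVec a = 0 ∧ V.mulVec x = 0 := by
      have h1 : K.mulVec w = Sum.elim (M.mulVec x + U.mulVec a) (V.mulVec x + 0) := by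
        rw [Matrix.fromBlocks_mulVec]
        congr 1
        rw [Matrix.zero_mulVec]
      rw [h1] at hw
      constructor
      · funext b
        exact congrFun hw (Sum.inl b)
      · funext b
        have := congrFun hw (Sum.inr b)
        simpa using this
    obtain ⟨hw1, hw2⟩ := hw1
    have hvx : ∀ j ≤ i, v j ⬝ᵥ x = 0 := by
      intro j hj
      have := congrFun hw2 ⟨j, by omega⟩
      exact this
    have hUa : U.mulVec a = ∑ j : Fin (i + 1), a j • u j := by
      funext b
      simp only [Matrix.mulVec, dotProduct, U, Matrix.of_apply, Finset.sum_apply, Pi.smul_apply,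
        smul_eq_mul]
      exact Finset.sum_congr rfl fun j _ => mul_comm _ _
    -- the last one
    have hall : ∀ d : ℕ, ∀ j : Fin (i + 1), i - d ≤ (j : ℕ) → a j = 0 := by
      intro d
      induction d with
      | zero =>
        intro j hj
        have hji : (j : ℕ) = i := by omega
        by_contra hne
        obtain ⟨y, hy⟩ := hsink
        rw [hmul i le_rfl] at hy
        have h1 : a j • u i = M.mulVec (-(x + ∑ j' : Fin (i + 1), if (j' : ℕ) < i then
            a j' • z j' else 0)) := by
          have h2 : ∀ j' : Fin (i + 1), M.mulVec (if (j' : ℕ) < i then a j' • z j' else 0) =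
              a j' • u j' - if (j' : ℕ) < i then 0 else a j' • u j' := by
            intro j'
            split_ifs with h
            · rw [Matrix.mulVec_smul, (hz j' h).1, sub_zero]
            · rw [Matrix.mulVec_zero, sub_self]
          rw [Matrix.mulVec_neg, Matrix.mulVec_add, Matrix.mulVec_sum,
            Finset.sum_congr rfl fun j' _ => h2 j', Finset.sum_sub_distrib, ← hUa]
          have h3 : ∑ j' : Fin (i + 1), (if (j' : ℕ) < i then (0 : Fin n → F) else a j' • u j') =
              a j • u i := by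
            rw [Finset.sum_eq_single j]
            · rw [if_neg (by omega), hji]
            · intro j' _ hj'
              rw [if_pos]
              have : (j' : ℕ) ≠ j := fun h => hj' (Fin.ext h)
              omega
            · simp
          rw [h3, ← add_sub_assoc, hw1, zero_sub, neg_neg]
        apply hy ((v i ⬝ᵥ y) • (a j)⁻¹ • (-(x + ∑ j' : Fin (i + 1), if (j' : ℕ) < i then
            a j' • z j' else 0)))
        rw [Matrix.mulVec_smul, Matrix.mulVec_smul, ← h1, smul_smul (a j)⁻¹, inv_mul_cancel₀ hne,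
          one_smul]
      | succ d ih =>
        intro j hj
        by_cases hj' : i - d ≤ (j : ℕ)
        · exact ih j hj'
        have hji : (j : ℕ) < i := by omega
        have hzero : ∀ j' : Fin (i + 1), (j : ℕ) < j' → a j' = 0 := fun j' h => ih j' (by omega)
        have h1 : M.mulVec (x + ∑ j' : Fin (i + 1), if (j' : ℕ) < i then
            a j' • z j' else 0) = 0 := by
          have h3 : ∑ j' : Fin (i + 1), M.mulVec (if (j' : ℕ) < i then a j' • z j' else 0) =
              ∑ j' : Fin (i + 1), a j' • u j' := by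
            refine Finset.sum_congr rfl fun j' _ => ?_
            split_ifs with h
            · rw [Matrix.mulVec_smul, (hz j' h).1]
            · rw [Matrix.mulVec_zero, hzero j' (by omega), zero_smul]
          rw [Matrix.mulVec_add, Matrix.mulVec_sum, h3, ← hUa]
          exact hw1
        have h2 := hvker (j + 1) (by omega) (by omega) (hu _ (by omega)) _ h1
        rw [dotProduct_add, hvx _ (by omega), zero_add, dotProduct_sum,
          Finset.sum_eq_single j] at h2
        · rw [if_pos hji, dotProduct_smul, smul_eq_mul] at h2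
          rcases mul_eq_zero.1 h2 with h | h
          · exact h
          · exact absurd h (hz j hji).2.1
        · intro j' _ hne
          split_ifs with h
          · rw [dotProduct_smul]
            have hne' : (j' : ℕ) ≠ j := fun h => hne (Fin.ext h)
            rcases lt_or_gt_of_ne hne' with h3 | h3
            · rw [hzz j' (j + 1) (by omega) (by omega), smul_zero]
            · rw [hzero j' h3, zero_smul]
          · rw [dotProduct_zero]
        · simp
    have ha : ∀ j, a j = 0 := fun j => hall i j (by omega)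
    refine ⟨ha, ?_, hvx 0 (by omega)⟩
    rw [hUa] at hw1
    simpa [ha] using hw1
  -- the rank
  have hK : M.rank + i + 2 ≤ K.rank := by
    obtain ⟨x₀, hx₀, hx₀'⟩ := hsrc
    rw [hmul 0 (by omega)] at hx₀'
    have hv0 : v 0 ⬝ᵥ x₀ ≠ 0 := fun h => hx₀' (by rw [h, zero_smul])
    let W : Submodule F (Fin n → F) :=
      { carrier := {x | M.mulVec x = 0 ∧ v 0 ⬝ᵥ x = 0}
        add_mem' := fun {a b} ha hb => ⟨by rw [Matrix.mulVec_add, ha.1, hb.1, add_zero],
          by rw [dotProduct_add, ha.2, hb.2, add_zero]⟩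
        zero_mem' := ⟨Matrix.mulVec_zero _, dotProduct_zero _⟩
        smul_mem' := fun c a ha => ⟨by rw [Matrix.mulVec_smul, ha.1, smul_zero],
          by rw [dotProduct_smul, ha.2, smul_zero]⟩ }
    have hWlt : W < LinearMap.ker M.mulVecLin := by
      refine lt_of_le_of_ne (fun x hx => hx.1) fun h => ?_
      have : x₀ ∈ W := by
        rw [h]
        exact hx₀
      exact hv0 this.2
    have hW := Submodule.finrank_lt_finrank_of_lt hWlt
    have h1 : M.rank + Module.finrank F (LinearMap.ker M.mulVecLin) = n := by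
      have := LinearMap.finrank_range_add_finrank_ker M.mulVecLin
      rw [Module.finrank_pi, Fintype.card_fin] at this
      exact this
    have h2 : K.rank + Module.finrank F (LinearMap.ker K.mulVecLin) = n + (i + 1) := by
      have := LinearMap.finrank_range_add_finrank_ker K.mulVecLin
      rw [Module.finrank_pi, Fintype.card_sum, Fintype.card_fin, Fintype.card_fin] at this
      exact this
    have h3 : Module.finrank F (LinearMap.ker K.mulVecLin) ≤ Module.finrank F W := by
      let g : LinearMap.ker K.mulVecLin →ₗ[F] W :=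
        { toFun := fun w => ⟨(w : Fin n ⊕ Fin (i + 1) → F) ∘ Sum.inl, (hker w w.2).2⟩
          map_add' := fun a b => rfl
          map_smul' := fun c a => rfl }
      refine LinearMap.finrank_le_finrank_of_injective (f := g) ?_
      intro a b hab
      apply Subtype.ext
      funext j
      rcases j with j | j
      · exact congrFun (congrArg Subtype.val hab) j
      · rw [(hker a a.2).1 j, (hker b b.2).1 j]
    omega
  obtain ⟨s, hs, hsr⟩ := pencil (i + 1) K
    (Matrix.fromRows (0 : Matrix (Fin n) (Fin (i + 1)) F) 1)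
    (Matrix.fromCols (0 : Matrix (Fin (i + 1)) (Fin n) F) 1) (T.image fun t => t⁻¹)
    (by rw [Finset.card_image_of_injective _ inv_injective]; omega)
  rw [Finset.mem_image] at hs
  obtain ⟨t, ht, rfl⟩ := hs
  have ht0 : t ≠ 0 := fun h => hT0 (h ▸ ht)
  refine ⟨t, ht, ?_⟩
  have h4 : K - t⁻¹ • (Matrix.fromRows (0 : Matrix (Fin n) (Fin (i + 1)) F) 1 *
      Matrix.fromCols (0 : Matrix (Fin (i + 1)) (Fin n) F) 1) =
      Matrix.fromBlocks M U V (-(t⁻¹ • (1 : Matrix (Fin (i + 1)) (Fin (i + 1)) F))) := by
    ext a b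
    rcases a with a | a <;> rcases b with b | b <;>
      simp [K, Matrix.mul_fromCols]
  rw [h4] at hsr
  have h5 := rank_le_schur (i + 1) M U V t ht0
  rw [hUV]
  omega

end Pool.Agent.Lib.MP_64d474_lc.ST3
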