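import Pool.Agent.Lib.MP_64d474_lc.ST3.Stmts3

/-!
# The best side
-/

set_option autoImplicit false

open Pool.Agent.Lib.MP_64d474_lc.ST

namespace Pool.Agent.Lib.MP_64d474_lc.ST3

namespace BestAux

theorem foldl_min (g : ℕ → ℕ) (L : List ℕ) (a : ℕ) :
    (L.foldl (fun a R => if g R < g a then R else a) a = a ∨
      L.foldl (fun a R => if g R < g a then R else a) a ∈ L) ∧
    g (L.foldl (fun a R => if g R < g a then R else a) a) ≤ g a ∧
    ∀ R ∈ L, g (L.foldl (fun a R => if g R < g a then R else a) a) ≤ g R := by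
  induction L generalizing a with
  | nil => simp
  | cons b L ih =>
    rw [List.foldl_cons]
    by_cases h : g b < g a
    · rw [if_pos h]
      obtain ⟨h1, h2, h3⟩ := ih b
      refine ⟨Or.inr ?_, h2.trans h.le, ?_⟩
      · rcases h1 with h1 | h1
        · rw [h1]
          exact List.mem_cons_self
        · exact List.mem_cons_of_mem _ h1
      · intro R hR
        rcases List.mem_cons.1 hR with rfl | hR
        · exact h2
        · exact h3 R hR
    · rw [if_neg h]
      obtain ⟨h1, h2, h3⟩ := ih a
      refine ⟨?_, h2, ?_⟩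
      · rcases h1 with h1 | h1
        · exact Or.inl h1
        · exact Or.inr (List.mem_cons_of_mem _ h1)
      · intro R hR
        rcases List.mem_cons.1 hR with rfl | hR
        · exact h2.trans (not_lt.1 h)
        · exact h3 R hR

theorem low_sum_le (l : List ℕ) (R : ℕ) : (low l R).sum ≤ l.sum := by
  unfold low
  induction l with
  | nil => simp
  | cons a l ih =>
    rw [List.map_cons, List.sum_cons, List.sum_cons]
    refine Nat.add_le_add ?_ ih
    split_ifs
    · exact le_rfl
    · exact Nat.zero_le _

theorem his_nil (l : List ℕ) {R : ℕ} (hR : l.sum ≤ R) : his l R = [] := by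
  unfold his
  rw [List.filter_eq_nil_iff]
  intro x hx
  rw [decide_eq_true_eq, not_lt]
  exact (List.le_sum_of_mem hx).trans hR

theorem ok_sum (l : List ℕ) : okR l (l.sum + 1) = true := by
  unfold okR
  rw [Bool.and_eq_true, decide_eq_true_eq, decide_eq_true_eq]
  refine ⟨by omega, (low_sum_le l _).trans ?_⟩
  have h : (l.sum + 1) * 1 ≤ (l.sum + 1) * ((l.sum + 1) * (l.sum + 1)) :=
    Nat.mul_le_mul le_rfl (Nat.mul_pos (Nat.succ_pos _) (Nat.succ_pos _))
  omega

theorem cost_mono (l : List ℕ) {R : ℕ} (hR : l.sum + 1 ≤ R) :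
    costR l (l.sum + 1) ≤ costR l R := by
  unfold costR
  rw [his_nil l (by omega), his_nil l (show l.sum ≤ R by omega)]
  refine Nat.add_le_add ?_ le_rfl
  refine Nat.mul_le_mul (Nat.mul_le_mul hR hR) ?_
  exact Nat.add_le_add (Nat.log_mono_right (by omega)) le_rfl

end BestAux

open BestAux in
/-- the best side is admissible and has the least cost -/
theorem stBest : StBest := by
  intro l
  obtain ⟨h1, h2, h3⟩ := foldl_min (costR l) ((List.range (l.sum + 2)).filter (okR l)) (l.sum + 1)
  refine ⟨?_, ?_, ?_⟩
  · rcases h1 with h1 | h1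
    · unfold best
      rw [h1]
      exact ok_sum l
    · exact (List.mem_filter.1 h1).2
  · rcases h1 with h1 | h1
    · exact h1.le
    · have := List.mem_range.1 (List.mem_filter.1 h1).1
      exact Nat.lt_succ_iff.1 this
  · intro R hR
    rcases Nat.lt_or_ge R (l.sum + 2) with h | h
    · exact h3 R (List.mem_filter.2 ⟨List.mem_range.2 h, hR⟩)
    · exact h2.trans (cost_mono l (by omega))

end Pool.Agent.Lib.MP_64d474_lc.ST3
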