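import Mathlib
import Pool.Agent.Lib.MP_64d474_lc.ST3.Stmts3

/-!
# Correctness of the search for shortest paths
-/

set_option autoImplicit false

namespace Pool.Agent.Lib.MP_64d474_lc.ST3.BfsP

open Pool.Agent.Lib.MP_64d474_lc.ST3

variable (m : ℕ) (src : List Bool) (E : List (List Bool))

/-- the state after `t` levels -/
def stt (t : ℕ) : List (List ℕ) × List (List ℕ) :=
  (bstep m E)^[t] (srcP m src, srcP m src)

theorem stt_zero : stt m src E 0 = (srcP m src, srcP m src) := rfl

theorem stt_succ (t : ℕ) : stt m src E (t + 1) =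
    ((stt m src E t).1 ++ newP m E (stt m src E t).1 (stt m src E t).2,
      newP m E (stt m src E t).1 (stt m src E t).2) := by
  unfold stt
  rw [Function.iterate_succ_apply']
  rfl

theorem stt_succ_fst (t : ℕ) : (stt m src E (t + 1)).1 =
    (stt m src E t).1 ++ (stt m src E (t + 1)).2 := by
  rw [stt_succ]

theorem mem_newP {all fr : List (List ℕ)} {q : List ℕ} (h : q ∈ newP m E all fr) :
    ∃ l p, q = l :: p ∧ p ∈ fr ∧ l < m ∧ ed E (p.headD m) l = true ∧
      ∀ p' ∈ all, p'.headD m ≠ l := by
  unfold newP at h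
  rw [List.mem_map] at h
  obtain ⟨l, hl, rfl⟩ := h
  rw [List.mem_filter, List.mem_range, Bool.and_eq_true, Bool.not_eq_true'] at hl
  obtain ⟨hlm, hna, hex⟩ := hl
  have hne : (fr.filter fun q => ed E (q.headD m) l) ≠ [] := by
    rw [List.any_eq_true] at hex
    obtain ⟨q, hq, hq'⟩ := hex
    exact List.ne_nil_of_mem (List.mem_filter.2 ⟨hq, hq'⟩)
  obtain ⟨p, L, hL⟩ := List.exists_cons_of_ne_nil hne
  have hp : p ∈ (fr.filter fun q => ed E (q.headD m) l) := by rw [hL]; exact List.mem_cons_self
  rw [List.mem_filter] at hp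
  refine ⟨l, p, ?_, hp.1, hlm, hp.2, ?_⟩
  · rw [hL]; rfl
  · intro p' hp' heq
    rw [List.any_eq_false] at hna
    exact hna p' hp' (by simpa using heq)

theorem newP_head {all fr : List (List ℕ)} {p : List ℕ} {l : ℕ} (hp : p ∈ fr) (hl : l < m)
    (he : ed E (p.headD m) l = true) (hall : ∀ p' ∈ all, p'.headD m ≠ l) :
    ∃ q ∈ newP m E all fr, q.headD m = l := by
  refine ⟨l :: (fr.filter fun q => ed E (q.headD m) l).headD [], ?_, rfl⟩
  unfold newP
  rw [List.mem_map]
  refine ⟨l, ?_, rfl⟩
  rw [List.mem_filter, List.mem_range, Bool.and_eq_true, Bool.not_eq_true', List.any_eq_false,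
    List.any_eq_true]
  exact ⟨hl, fun p' hp' h => hall p' hp' (by simpa using h), p, hp, he⟩

/-- all paths are in some level -/
theorem mem_all_iff (t : ℕ) (q : List ℕ) :
    q ∈ (stt m src E t).1 ↔ ∃ s ≤ t, q ∈ (stt m src E s).2 := by
  induction t with
  | zero =>
    constructor
    · intro h
      exact ⟨0, le_rfl, h⟩
    · rintro ⟨s, hs, h⟩
      obtain rfl : s = 0 := by omega
      exact h
  | succ t ih =>
    rw [stt_succ_fst, List.mem_append, ih]
    constructor
    · rintro (⟨s, hs, h⟩ | h)
      · exact ⟨s, by omega, h⟩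
      · exact ⟨t + 1, le_rfl, h⟩
    · rintro ⟨s, hs, h⟩
      rcases Nat.lt_or_ge t s with h1 | h1
      · obtain rfl : s = t + 1 := by omega
        exact Or.inr h
      · exact Or.inl ⟨s, h1, h⟩

theorem prefix_all {s t : ℕ} (h : s ≤ t) : (stt m src E s).1 <+: (stt m src E t).1 := by
  induction t, h using Nat.le_induction with
  | base => exact List.prefix_rfl
  | succ t _ ih =>
    rw [stt_succ_fst]
    exact ih.trans (List.prefix_append _ _)

theorem mem_zero {q : List ℕ} : q ∈ (stt m src E 0).2 ↔
    ∃ k < m, src.getD k false = true ∧ q = [k] := by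
  rw [stt_zero]
  unfold srcP
  simp only [List.mem_map, List.mem_filter, List.mem_range]
  constructor
  · rintro ⟨k, ⟨h1, h2⟩, rfl⟩
    exact ⟨k, h1, h2, rfl⟩
  · rintro ⟨k, h1, h2, rfl⟩
    exact ⟨k, ⟨h1, h2⟩, rfl⟩

theorem mem_succ {t : ℕ} {q : List ℕ} (h : q ∈ (stt m src E (t + 1)).2) :
    ∃ l p, q = l :: p ∧ p ∈ (stt m src E t).2 ∧ l < m ∧ ed E (p.headD m) l = true ∧
      ∀ p' ∈ (stt m src E t).1, p'.headD m ≠ l := by
  rw [stt_succ] at h
  exact mem_newP m E h

theorem head_lt {t : ℕ} {q : List ℕ} (h : q ∈ (stt m src E t).2) : q.headD m < m := by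
  cases t with
  | zero =>
    obtain ⟨k, hk, _, rfl⟩ := (mem_zero m src E).1 h
    exact hk
  | succ t =>
    obtain ⟨l, p, rfl, _, hl, _⟩ := mem_succ m src E h
    exact hl

theorem ne_nil {t : ℕ} {q : List ℕ} (h : q ∈ (stt m src E t).2) : q ≠ [] := by
  cases t with
  | zero =>
    obtain ⟨k, hk, _, rfl⟩ := (mem_zero m src E).1 h
    exact List.cons_ne_nil _ _
  | succ t =>
    obtain ⟨l, p, rfl, _, hl, _⟩ := mem_succ m src E h
    exact List.cons_ne_nil _ _

/-- successors of heads are heads of the next level at the latest -/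
theorem succ_head {t l : ℕ} {q : List ℕ} (h : q ∈ (stt m src E t).2) (hl : l < m)
    (he : ed E (q.headD m) l = true) : ∃ q' ∈ (stt m src E (t + 1)).1, q'.headD m = l := by
  by_cases hall : ∀ p' ∈ (stt m src E t).1, p'.headD m ≠ l
  · obtain ⟨q', hq', h'⟩ := newP_head m E h hl he hall
    refine ⟨q', ?_, h'⟩
    rw [stt_succ_fst, stt_succ]
    exact List.mem_append_right _ hq'
  · push Not at hall
    obtain ⟨p', hp', h'⟩ := hall
    refine ⟨p', ?_, h'⟩
    rw [stt_succ_fst]
    exact List.mem_append_left _ hp'

/-- heads of different levels are different -/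
theorem head_ne {s t : ℕ} (hst : s < t) {q q' : List ℕ} (h : q ∈ (stt m src E s).2)
    (h' : q' ∈ (stt m src E t).2) : q.headD m ≠ q'.headD m := by
  obtain ⟨t, rfl⟩ : ∃ t', t = t' + 1 := ⟨t - 1, by omega⟩
  obtain ⟨l, p, rfl, _, _, _, h1⟩ := mem_succ m src E h'
  exact h1 q ((mem_all_iff m src E t q).2 ⟨s, by omega, h⟩)

theorem level_empty : (stt m src E m).2 = [] := by
  by_contra hne
  have h1 : ∀ d s : ℕ, s + d = m → ∃ q, q ∈ (stt m src E s).2 := by
    intro d
    induction d with
    | zero =>
      intro s hs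
      obtain ⟨q, L, hL⟩ := List.exists_cons_of_ne_nil hne
      refine ⟨q, ?_⟩
      rw [show s = m by omega, hL]
      exact List.mem_cons_self
    | succ d ih =>
      intro s hs
      obtain ⟨q, hq⟩ := ih (s + 1) (by omega)
      obtain ⟨l, p, _, hp, _⟩ := mem_succ m src E hq
      exact ⟨p, hp⟩
  have h2 : ∀ s : ℕ, ∃ q, s ≤ m → q ∈ (stt m src E s).2 := by
    intro s
    by_cases hs : s ≤ m
    · obtain ⟨q, hq⟩ := h1 (m - s) s (by omega)
      exact ⟨q, fun _ => hq⟩
    · exact ⟨[], fun h => absurd h hs⟩
  choose f hf using h2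
  obtain ⟨i, hi, j, hj, hij, he⟩ := Finset.exists_ne_map_eq_of_card_lt_of_maps_to
    (s := Finset.range (m + 1)) (t := Finset.range m) (f := fun s => (f s).headD m) (by simp) (by
      intro s hs
      simp only [Finset.coe_range, Set.mem_Iio] at hs ⊢
      exact head_lt m src E (hf s (by omega)))
  rw [Finset.mem_range] at hi hj
  rcases lt_or_gt_of_ne hij with h | h
  · exact head_ne m src E h (hf i (by omega)) (hf j (by omega)) he
  · exact head_ne m src E h (hf j (by omega)) (hf i (by omega)) he.symm

/-- the path as a function -/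
theorem exists_fun (t : ℕ) : ∀ q ∈ (stt m src E t).2, ∃ f : ℕ → ℕ,
    q = ((List.range (t + 1)).map f).reverse ∧
    ∀ j ≤ t, ((List.range (j + 1)).map f).reverse ∈ (stt m src E j).2 := by
  induction t with
  | zero =>
    intro q hq
    obtain ⟨k, hk, hs, rfl⟩ := (mem_zero m src E).1 hq
    refine ⟨fun _ => k, by simp, ?_⟩
    intro j hj
    obtain rfl : j = 0 := by omega
    simpa using hq
  | succ t ih =>
    intro q hq
    obtain ⟨l, p, rfl, hp, hl, he, hall⟩ := mem_succ m src E hq
    obtain ⟨f, hf, hf'⟩ := ih p hp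
    have key : ∀ j ≤ t, ((List.range (j + 1)).map (fun i => if i = t + 1 then l else f i)) =
        (List.range (j + 1)).map f := by
      intro j hj
      apply List.map_congr_left
      intro i hi
      rw [List.mem_range] at hi
      rw [if_neg (by omega)]
    have key2 : ((List.range (t + 1 + 1)).map (fun i => if i = t + 1 then l else f i)).reverse =
        l :: p := by
      rw [List.range_succ, List.map_append, List.reverse_append, key t le_rfl, ← hf]
      simp
    refine ⟨fun i => if i = t + 1 then l else f i, key2.symm, ?_⟩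
    intro j hj
    rcases Nat.lt_or_ge t j with h | h
    · obtain rfl : j = t + 1 := by omega
      rw [key2]
      exact hq
    · rw [key j h]
      exact hf' j h

theorem head_fun (f : ℕ → ℕ) (j : ℕ) :
    (((List.range (j + 1)).map f).reverse).headD m = f j := by
  rw [List.range_succ, List.map_append, List.reverse_append]
  simp

theorem succ_fun (f : ℕ → ℕ) (j : ℕ) : ((List.range (j + 1 + 1)).map f).reverse =
    f (j + 1) :: ((List.range (j + 1)).map f).reverse := by
  rw [List.range_succ, List.map_append, List.reverse_append]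
  simp

end Pool.Agent.Lib.MP_64d474_lc.ST3.BfsP

namespace Pool.Agent.Lib.MP_64d474_lc.ST3

open BfsP

theorem stBfs : StBfs := by
  intro m src sink E
  have hall : allP m src E = (stt m src E m).1 := rfl
  constructor
  · intro hfind
    have hnone : ∀ q ∈ (stt m src E m).1, sink.getD (q.headD m) false = false := by
      intro q hq
      by_contra hcon
      rw [Bool.not_eq_false] at hcon
      have h1 : q ∈ (allP m src E).filter fun q => sink.getD (q.headD m) false :=
        List.mem_filter.2 ⟨hq, hcon⟩
      obtain ⟨p, L, hL⟩ := List.exists_cons_of_ne_nil (List.ne_nil_of_mem h1)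
      have h2 : p ∈ (allP m src E).filter fun q => sink.getD (q.headD m) false := by
        rw [hL]; exact List.mem_cons_self
      have h3 : findP m src sink E = p := by
        unfold findP
        rw [hL]; rfl
      rw [List.mem_filter, hall, mem_all_iff] at h2
      obtain ⟨⟨s, _, hs⟩, _⟩ := h2
      exact ne_nil m src E hs (h3.symm.trans hfind)
    refine ⟨fun k => ∃ q ∈ (stt m src E m).1, q.headD m = k, ?_, ?_, ?_, ?_⟩
    · rintro k ⟨q, hq, rfl⟩
      obtain ⟨s, _, hs⟩ := (mem_all_iff m src E m q).1 hq
      exact head_lt m src E hs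
    · intro k hk hs
      refine ⟨[k], (mem_all_iff m src E m _).2 ⟨0, Nat.zero_le _, ?_⟩, rfl⟩
      exact (mem_zero m src E).2 ⟨k, hk, hs, rfl⟩
    · rintro k l ⟨q, hq, rfl⟩ hl he
      obtain ⟨s, hs, hq'⟩ := (mem_all_iff m src E m q).1 hq
      rcases Nat.lt_or_ge s m with h | h
      · obtain ⟨q', h1, h2⟩ := succ_head m src E hq' hl he
        exact ⟨q', (prefix_all m src E h).subset h1, h2⟩
      · obtain rfl : s = m := by omega
        rw [level_empty] at hq'
        exact absurd hq' (by simp)
    · rintro k ⟨q, hq, rfl⟩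
      exact hnone q hq
  · intro hfind
    classical
    have hex : ∃ i, i ≤ m ∧ ∃ q ∈ (stt m src E i).2, sink.getD (q.headD m) false = true := by
      have h1 : ((allP m src E).filter fun q => sink.getD (q.headD m) false) ≠ [] := by
        intro h
        apply hfind
        unfold findP
        rw [h]; rfl
      obtain ⟨p, L, hL⟩ := List.exists_cons_of_ne_nil h1
      have h2 : p ∈ (allP m src E).filter fun q => sink.getD (q.headD m) false := by
        rw [hL]; exact List.mem_cons_self
      rw [List.mem_filter, hall, mem_all_iff] at h2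
      obtain ⟨⟨s, hs, hs'⟩, h3⟩ := h2
      exact ⟨s, hs, p, hs', h3⟩
    set i := Nat.find hex with hi
    obtain ⟨him, q0, hq0, hq0s⟩ := Nat.find_spec hex
    rw [← hi] at him hq0
    have hmin : ∀ j < i, ∀ q ∈ (stt m src E j).2, sink.getD (q.headD m) false = false := by
      intro j hj q hq
      by_contra hcon
      rw [Bool.not_eq_false] at hcon
      exact Nat.find_min hex hj ⟨by omega, q, hq, hcon⟩
    -- the result is in level `i`
    have hfil : ∃ q ∈ (stt m src E i).2, findP m src sink E = q ∧
        sink.getD (q.headD m) false = true := by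
      have h1 : ((stt m src E i).1.filter fun q => sink.getD (q.headD m) false) =
          (stt m src E i).2.filter fun q => sink.getD (q.headD m) false := by
        rcases Nat.eq_zero_or_pos i with h | h
        · rw [h, stt_zero]
        · obtain ⟨i', hi'⟩ : ∃ i', i = i' + 1 := ⟨i - 1, by omega⟩
          rw [hi', stt_succ_fst, List.filter_append]
          have h2 : ((stt m src E i').1.filter fun q => sink.getD (q.headD m) false) = [] := by
            rw [List.filter_eq_nil_iff]
            intro q hq
            obtain ⟨s, hs, hs'⟩ := (mem_all_iff m src E i' q).1 hq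
            rw [hmin s (by omega) q hs']
            simp
          rw [h2, List.nil_append]
      have h2 : q0 ∈ (stt m src E i).2.filter fun q => sink.getD (q.headD m) false :=
        List.mem_filter.2 ⟨hq0, hq0s⟩
      obtain ⟨p, L, hL⟩ := List.exists_cons_of_ne_nil (List.ne_nil_of_mem h2)
      have h3 : p ∈ (stt m src E i).2.filter fun q => sink.getD (q.headD m) false := by
        rw [hL]; exact List.mem_cons_self
      rw [List.mem_filter] at h3
      refine ⟨p, h3.1, ?_, h3.2⟩
      obtain ⟨R, hR⟩ := prefix_all m src E him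
      unfold findP
      rw [hall, ← hR, List.filter_append, h1, hL]
      rfl
    obtain ⟨q, hq, hfq, hqs⟩ := hfil
    obtain ⟨f, hf, hf'⟩ := exists_fun m src E i q hq
    have hh : ∀ j, (((List.range (j + 1)).map f).reverse).headD m = f j := head_fun m f
    refine ⟨i, f, him, ?_, ?_, ?_, ?_, ?_, ?_, ?_, ?_⟩
    · rw [hfq, hf]
    · intro j hj
      have := head_lt m src E (hf' j hj)
      rwa [hh] at this
    · obtain ⟨k, _, hk, hk'⟩ := (mem_zero m src E).1 (hf' 0 (Nat.zero_le _))
      have h1 := hh 0
      rw [hk'] at h1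
      have h2 : k = f 0 := h1
      rw [← h2]; exact hk
    · intro j hj1 hji
      by_contra hcon
      rw [Bool.not_eq_false] at hcon
      have h1 := head_lt m src E (hf' j hji)
      rw [hh] at h1
      have h2 : [f j] ∈ (stt m src E 0).2 := (mem_zero m src E).2 ⟨f j, h1, hcon, rfl⟩
      have h3 := head_ne m src E (show 0 < j by omega) h2 (hf' j hji)
      rw [hh] at h3
      exact h3 rfl
    · have h1 := hqs
      rw [hf, hh] at h1
      exact h1
    · intro j hj
      have h1 := hmin j hj _ (hf' j hj.le)
      rwa [hh] at h1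
    · intro j hj
      have h1 := hf' (j + 1) (by omega)
      rw [succ_fun] at h1
      obtain ⟨l, p, hlp, _, _, he, _⟩ := mem_succ m src E h1
      rw [List.cons.injEq] at hlp
      obtain ⟨h2, h3⟩ := hlp
      rw [← h2, ← h3, hh] at he
      exact he
    · intro j j' hjj hj'
      by_contra hcon
      rw [Bool.not_eq_false] at hcon
      have h1 := head_lt m src E (hf' j' hj')
      rw [hh] at h1
      have h2 : ed E ((((List.range (j + 1)).map f).reverse).headD m) (f j') = true := by
        rw [hh]; exact hcon
      obtain ⟨q', hq', hq''⟩ := succ_head m src E (hf' j (by omega)) h1 h2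
      obtain ⟨s, hs, hs'⟩ := (mem_all_iff m src E (j + 1) q').1 hq'
      have h3 := head_ne m src E (show s < j' by omega) hs' (hf' j' hj')
      rw [hh] at h3
      exact h3 hq''

end Pool.Agent.Lib.MP_64d474_lc.ST3
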