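import Pool.Agent.Lib.MP_64d474_lc.ST3.Stmts3

/-!
# ST3: ranks of block matrices given by lists
-/

set_option autoImplicit false

open Finset Pool.Agent.Lib.MP_64d474_lc.ST
open Pool.Agent.Lib.MP_64d474_lc.ST2 (rkmod StRk)

namespace Pool.Agent.Lib.MP_64d474_lc.ST3

namespace Blk

theorem getD_left {α : Type} (l l' : List α) (d : α) (i : ℕ) (h : i < l.length) :
    (l ++ l').getD i d = l.getD i d := List.getD_append l l' d i h

theorem getD_right {α : Type} (l l' : List α) (d : α) (i k : ℕ) (h : l.length = k) :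
    (l ++ l').getD (k + i) d = l'.getD i d := by
  subst h
  rw [List.getD_append_right l l' d _ (Nat.le_add_right _ _), Nat.add_sub_cancel_left]

theorem catH_getD (n : ℕ) (M N : List (List ℕ)) (hM : M.length = n) (hN : N.length = n) (i : ℕ)
    (hi : i < n) : (catH M N).getD i [] = M.getD i [] ++ N.getD i [] := by
  have h1 : i < (List.zipWith (fun r s => r ++ s) M N).length := by
    rw [List.length_zipWith, hM, hN, min_self]
    exact hi
  rw [catH, List.getD_eq_getElem _ _ h1, List.getElem_zipWith,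
    List.getD_eq_getElem _ _ (by omega), List.getD_eq_getElem _ _ (by omega)]

theorem getD_len {n : ℕ} {M : List (List ℕ)} (h : Sq n M) (i : ℕ) (hi : i < n) :
    (M.getD i []).length = n := by
  rw [List.getD_eq_getElem _ _ (by rw [h.1]; exact hi)]
  exact h.2 _ (List.getElem_mem _)

theorem rk (hR : StRk) (p : ℕ) [Fact p.Prime] (N : ℕ) (L : List (List ℕ))
    (hL : ∀ r ∈ L, r.length = N) {α β : Type} [Fintype β] (e₁ : α ≃ Fin L.length) (e₂ : β ≃ Fin N)
    (A : Matrix α β (ZMod p))
    (hA : ∀ i j, A i j = (((L.getD (e₁ i) []).getD (e₂ j) 0 : ℕ) : ZMod p)) :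
    rkmod p N L = A.rank := by
  rw [hR p N L hL]
  have h : A = (Matrix.of fun (i : Fin L.length) (j : Fin N) =>
      (((L.getD i []).getD j 0 : ℕ) : ZMod p)).submatrix e₁ e₂ := by
    ext i j
    rw [hA, Matrix.submatrix_apply, Matrix.of_apply]
  rw [h, Matrix.rank_submatrix]

theorem sq_zerM (n : ℕ) : Sq n (zerM n) := by
  refine ⟨by rw [zerM, List.length_replicate], fun r hr => ?_⟩
  rw [List.eq_of_mem_replicate hr, List.length_replicate]

theorem zerM_getD (n i j : ℕ) : ((zerM n).getD i []).getD j 0 = 0 := by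
  have h0 : ∀ l : List ℕ, (∀ x ∈ l, x = 0) → l.getD j 0 = 0 := by
    intro l hl
    by_cases hj : j < l.length
    · rw [List.getD_eq_getElem _ _ hj]
      exact hl _ (List.getElem_mem _)
    · exact List.getD_eq_default _ _ (not_lt.mp hj)
  refine h0 _ fun x hx => ?_
  by_cases hi : i < (zerM n).length
  · rw [List.getD_eq_getElem _ _ hi] at hx
    have h1 : (zerM n)[i] ∈ List.replicate n (List.replicate n 0) := List.getElem_mem hi
    rw [List.eq_of_mem_replicate h1] at hx
    exact List.eq_of_mem_replicate hx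
  · rw [List.getD_eq_default _ _ (not_lt.mp hi)] at hx
    exact absurd hx List.not_mem_nil

theorem catH_len (n : ℕ) (M N : List (List ℕ)) (hM : Sq n M) (hN : Sq n N) :
    (catH M N).length = n ∧ ∀ r ∈ catH M N, r.length = n + n := by
  have h1 : (catH M N).length = n := by
    rw [catH, List.length_zipWith, hM.1, hN.1, min_self]
  refine ⟨h1, fun r hr => ?_⟩
  obtain ⟨i, hi, rfl⟩ := List.getElem_of_mem hr
  have h2 : (catH M N)[i] = (catH M N).getD i [] := (List.getD_eq_getElem _ _ hi).symm
  rw [h2, catH_getD n M N hM.1 hN.1 i (by omega), List.length_append, getD_len hM i (by omega),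
    getD_len hN i (by omega)]

end Blk

open Blk in
theorem stBlk (hR : StRk) : StBlk := by
  intro p _ n M B B' hM hB hB'
  refine ⟨?_, ?_, ?_, ?_⟩
  · exact rk hR p n M hM.2 (finCongr hM.1.symm) (Equiv.refl _) _ fun i j => rfl
  · have hlen : (M ++ B).length = n + n := by rw [List.length_append, hM.1, hB.1]
    refine rk hR p n (M ++ B) (fun r hr => ?_)
      (finSumFinEquiv.trans (finCongr hlen.symm)) (Equiv.refl _) _ fun i j => ?_
    · rcases List.mem_append.mp hr with h | h
      · exact hM.2 r h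
      · exact hB.2 r h
    · rcases i with i | i
      · change ((((M.getD i []).getD j 0 : ℕ)) : ZMod p) =
          ((((M ++ B).getD (i : ℕ) []).getD j 0 : ℕ) : ZMod p)
        rw [getD_left _ _ _ _ (by rw [hM.1]; exact i.2)]
      · change ((((B.getD i []).getD j 0 : ℕ)) : ZMod p) =
          ((((M ++ B).getD (n + (i : ℕ)) []).getD j 0 : ℕ) : ZMod p)
        rw [getD_right _ _ _ _ _ hM.1]
  · obtain ⟨h1, h2⟩ := catH_len n M B hM hB
    refine rk hR p (n + n) (catH M B) h2 (finCongr h1.symm) finSumFinEquiv _ fun i j => ?_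
    rcases j with j | j
    · change ((((M.getD i []).getD j 0 : ℕ)) : ZMod p) =
        ((((catH M B).getD (i : ℕ) []).getD (j : ℕ) 0 : ℕ) : ZMod p)
      rw [catH_getD n M B hM.1 hB.1 i i.2, getD_left _ _ _ _ (by rw [getD_len hM i i.2]; exact j.2)]
    · change ((((B.getD i []).getD j 0 : ℕ)) : ZMod p) =
        ((((catH M B).getD (i : ℕ) []).getD (n + (j : ℕ)) 0 : ℕ) : ZMod p)
      rw [catH_getD n M B hM.1 hB.1 i i.2, getD_right _ _ _ _ _ (getD_len hM i i.2)]
  · obtain ⟨h1, h2⟩ := catH_len n M B hM hB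
    obtain ⟨h3, h4⟩ := catH_len n B' (zerM n) hB' (sq_zerM n)
    have hlen : (catH M B ++ catH B' (zerM n)).length = n + n := by
      rw [List.length_append, h1, h3]
    refine rk hR p (n + n) (catH M B ++ catH B' (zerM n)) (fun r hr => ?_)
      (finSumFinEquiv.trans (finCongr hlen.symm)) finSumFinEquiv _ fun i j => ?_
    · rcases List.mem_append.mp hr with h | h
      · exact h2 r h
      · exact h4 r h
    · rcases i with i | i <;> rcases j with j | j
      · change ((((M.getD i []).getD j 0 : ℕ)) : ZMod p) =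
          ((((catH M B ++ catH B' (zerM n)).getD (i : ℕ) []).getD (j : ℕ) 0 : ℕ) : ZMod p)
        rw [getD_left _ _ _ _ (by rw [h1]; exact i.2), catH_getD n M B hM.1 hB.1 i i.2,
          getD_left _ _ _ _ (by rw [getD_len hM i i.2]; exact j.2)]
      · change ((((B.getD i []).getD j 0 : ℕ)) : ZMod p) =
          ((((catH M B ++ catH B' (zerM n)).getD (i : ℕ) []).getD (n + (j : ℕ)) 0 : ℕ) : ZMod p)
        rw [getD_left _ _ _ _ (by rw [h1]; exact i.2), catH_getD n M B hM.1 hB.1 i i.2,
          getD_right _ _ _ _ _ (getD_len hM i i.2)]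
      · change ((((B'.getD i []).getD j 0 : ℕ)) : ZMod p) =
          ((((catH M B ++ catH B' (zerM n)).getD (n + (i : ℕ)) []).getD (j : ℕ) 0 : ℕ) : ZMod p)
        rw [getD_right _ _ _ _ _ h1, catH_getD n B' (zerM n) hB'.1 (sq_zerM n).1 i i.2,
          getD_left _ _ _ _ (by rw [getD_len hB' i i.2]; exact j.2)]
      · change (0 : ZMod p) =
          ((((catH M B ++ catH B' (zerM n)).getD (n + (i : ℕ)) []).getD (n + (j : ℕ)) 0 : ℕ) :
            ZMod p)
        rw [getD_right _ _ _ _ _ h1, catH_getD n B' (zerM n) hB'.1 (sq_zerM n).1 i i.2,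
          getD_right _ _ _ _ _ (getD_len hB' i i.2), zerM_getD]
        exact Nat.cast_zero.symm

end Pool.Agent.Lib.MP_64d474_lc.ST3
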