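import Pool.Agent.Lib.MP_64d474_lc.ST3.Stmts3
import Pool.Agent.Lib.MP_64d474_lc.ST2.Bound2

/-!
# The bound for the determinants of the tests of the third machine
-/

set_option autoImplicit false

open Pool.Agent.Lib.MP_64d474_lc.ST
open Pool.Agent.Lib.MP_64d474_lc.ST2 (hitv wl)

namespace Pool.Agent.Lib.MP_64d474_lc.ST3

namespace Bd3H

theorem low_sum_le (l : List ℕ) (R : ℕ) : (low l R).sum ≤ l.sum := by
  unfold low
  induction l with
  | nil => simp
  | cons a l ih =>
    rw [List.map_cons, List.sum_cons, List.sum_cons]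
    refine Nat.add_le_add ?_ ih
    split_ifs
    · exact le_rfl
    · exact Nat.zero_le _

theorem le_sum_of_mem' (l : List ℕ) (a : ℕ) (h : a ∈ l) : a ≤ l.sum := by
  induction l with
  | nil => exact absurd h List.not_mem_nil
  | cons b l ih =>
    rw [List.sum_cons]
    rcases List.mem_cons.1 h with rfl | h
    · exact Nat.le_add_right _ _
    · exact (ih h).trans (Nat.le_add_left _ _)

theorem his_le (l : List ℕ) (R a : ℕ) (h : a ∈ his l R) : a ≤ l.sum :=
  le_sum_of_mem' l a (List.mem_filter.1 h).1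

theorem getD_le_of (x B : List ℕ) (h : List.Forall₂ (fun a b => a ≤ b) x B) (i : ℕ) :
    x.getD i 0 ≤ B.getD i 0 := by
  induction h generalizing i with
  | nil => simp
  | cons h1 _ ih =>
    cases i with
    | zero => simpa using h1
    | succ i => simpa using ih i

theorem take_le (x B : List ℕ) (D T : ℕ)
    (h : List.Forall₂ (fun a b => a ≤ b) x (List.replicate T D ++ B)) :
    ∀ a ∈ x.take T, a ≤ D := by
  intro a ha
  obtain ⟨i, hi, rfl⟩ := List.getElem_of_mem ha
  have hiT : i < T := by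
    rw [List.length_take] at hi
    omega
  have hix : i < x.length := by
    rw [List.length_take] at hi
    omega
  have h1 := getD_le_of _ _ h i
  rw [List.getD_eq_getElem?_getD, List.getD_eq_getElem?_getD, List.getElem?_eq_getElem hix,
    List.getElem?_append_left (by rw [List.length_replicate]; exact hiT)] at h1
  simpa [hiT, List.getElem?_replicate] using h1

theorem drop_le (x B : List ℕ) (D T S : ℕ)
    (h : List.Forall₂ (fun a b => a ≤ b) x (List.replicate T D ++ B)) (hB : ∀ b ∈ B, b ≤ S)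
    (k : ℕ) : (x.drop T).getD k 0 ≤ S := by
  have h1 := getD_le_of _ _ h (T + k)
  have h2 : (x.drop T).getD k 0 = x.getD (T + k) 0 := by
    rw [List.getD_eq_getElem?_getD, List.getD_eq_getElem?_getD, List.getElem?_drop]
  have h3 : (List.replicate T D ++ B).getD (T + k) 0 = B.getD k 0 := by
    rw [List.getD_eq_getElem?_getD, List.getD_eq_getElem?_getD,
      List.getElem?_append_right (by rw [List.length_replicate]; omega), List.length_replicate,
      Nat.add_sub_cancel_left]
  rw [h2]
  rw [h3] at h1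
  exact h1.trans (Bnd.getD_le hB k)

/-- as for the second machine -/
theorem hitv_le' (l : List ℕ) (L R : ℕ) (d : List ℕ) (j : ℕ)
    (hV : l.sum ≤ L) (hR : 1 ≤ R) (hR' : R ≤ L + 1)
    (hd : ∀ x ∈ d, x ≤ dmax l.sum R) : hitv l R d j ≤ 2 ^ (22 * (L + 2) ^ 3) := by
  obtain ⟨M, hM⟩ : ∃ M, M = L + 2 := ⟨_, rfl⟩
  rw [← hM]
  have hM2 : 2 ≤ M := by omega
  have hRM : R + 1 ≤ M := by omega
  have hVM : l.sum ≤ M := by omega
  have hN : srcs R ≤ 5 * M ^ 2 := by
    have h1 : R * R ≤ M ^ 2 := by
      rw [pow_two]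
      exact Nat.mul_le_mul (by omega) (by omega)
    have h2 : R ≤ M ^ 2 := by nlinarith
    unfold srcs
    omega
  have hD : dmax l.sum R ≤ 5 * M ^ 3 := by
    unfold dmax
    calc srcs R * l.sum ≤ 5 * M ^ 2 * M := Nat.mul_le_mul hN hVM
      _ = 5 * M ^ 3 := by ring
  have hMp : M ≤ 2 ^ (M - 1) := by
    have := Bnd.lt_pow (M - 1)
    omega
  have hD2 : 5 * M ^ 3 ≤ 2 ^ (3 * M) := by
    calc 5 * M ^ 3 ≤ 2 ^ 3 * (2 ^ (M - 1)) ^ 3 :=
          Nat.mul_le_mul (by norm_num) (Nat.pow_le_pow_left hMp 3)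
      _ = 2 ^ (3 + (M - 1) * 3) := by rw [← pow_mul, ← pow_add]
      _ = 2 ^ (3 * M) := by
          congr 1
          omega
  have hM3 : 4 * M ≤ M ^ 3 := by nlinarith [Nat.mul_le_mul hM2 hM2]
  unfold hitv
  split_ifs with hc
  · have hq : 2 ^ ((l.take j).sum % R) * d.getD (srcs R + (l.take j).sum / R) 0 ≤
        2 ^ (4 * M) := by
      calc 2 ^ ((l.take j).sum % R) * d.getD (srcs R + (l.take j).sum / R) 0
          ≤ 2 ^ M * 2 ^ (3 * M) := by
            refine Nat.mul_le_mul (Nat.pow_le_pow_right (by norm_num) ?_)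
              ((Bnd.getD_le hd _).trans (hD.trans hD2))
            have := Nat.mod_lt (l.take j).sum (show 0 < R by omega)
            omega
        _ = 2 ^ (4 * M) := by
            rw [← pow_add]
            congr 1
            omega
    have hl : (d.take (srcs R)).length ≤ 5 * M ^ 2 := by
      rw [List.length_take]
      exact (min_le_left _ _).trans hN
    calc _ ≤ (d.take (srcs R)).length * (5 * M ^ 3) * (2 ^ (4 * M)) ^ (d.take (srcs R)).length :=
          Bnd.fold_le hq (Nat.one_le_two_pow) _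
            fun a ha => (hd a (List.mem_of_mem_take ha)).trans hD
      _ ≤ 5 * M ^ 2 * (5 * M ^ 3) * (2 ^ (4 * M)) ^ (5 * M ^ 2) :=
          Nat.mul_le_mul (Nat.mul_le_mul_right _ hl)
            (Nat.pow_le_pow_right Nat.one_le_two_pow hl)
      _ ≤ 2 ^ (2 * M ^ 3) * 2 ^ (20 * M ^ 3) := by
          refine Nat.mul_le_mul ?_ (le_of_eq ?_)
          · calc 5 * M ^ 2 * (5 * M ^ 3) = 25 * M ^ 5 := by ring
              _ ≤ 2 ^ 5 * (2 ^ (M - 1)) ^ 5 :=
                  Nat.mul_le_mul (by norm_num) (Nat.pow_le_pow_left hMp 5)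
              _ = 2 ^ (5 + (M - 1) * 5) := by rw [← pow_mul, ← pow_add]
              _ ≤ 2 ^ (2 * M ^ 3) := Nat.pow_le_pow_right (by norm_num) (by omega)
          · rw [← pow_mul]
            congr 1
            ring
      _ = 2 ^ (22 * M ^ 3) := by
          rw [← pow_add]
          congr 1
          ring
  · calc _ ≤ 5 * M ^ 3 := (Bnd.getD_le hd _).trans hD
      _ ≤ 2 ^ (3 * M) := hD2
      _ ≤ 2 ^ (22 * M ^ 3) := Nat.pow_le_pow_right (by norm_num) (by omega)

theorem wv_le (l : List ℕ) (L R : ℕ) (x : List ℕ) (j : ℕ) (hl : l.sum ≤ L) (hR : 1 ≤ R)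
    (hR' : R ≤ L + 1) (hx : List.Forall₂ (fun a b => a ≤ b) x
      (List.replicate (dgs l R) (dmax (low l R).sum R) ++ his l R)) :
    wv l R x j ≤ 2 ^ (22 * (L + 2) ^ 3) := by
  unfold wv
  split_ifs with h1 h2
  · exact hitv_le' (low l R) L R _ j ((low_sum_le l R).trans hl) hR hR' (take_le _ _ _ _ hx)
  · have h3 := drop_le x (his l R) _ _ L hx (fun b hb => (his_le l R b hb).trans hl)
      (his (l.take j) R).length
    refine h3.trans ?_
    have h4 := Bnd.lt_pow L
    have h5 : L ≤ 22 * (L + 2) ^ 3 := by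
      have h6 : L + 2 ≤ (L + 2) ^ 3 := Nat.le_self_pow (by norm_num) _
      omega
    have h7 : (2 : ℕ) ^ L ≤ 2 ^ (22 * (L + 2) ^ 3) := Nat.pow_le_pow_right (by norm_num) h5
    omega
  · exact Nat.zero_le _

end Bd3H

/-- The determinants of the tests are small. -/
theorem stBound3 (h1 : StMv) : StBound3 := by
  intro A R x y _ hR hR' hsum hxm hy
  have hfor := (h1.1 (blA A R) x).1 hxm
  obtain ⟨-, -, hn, hs, hlen, hcoef⟩ := stSizes A
  obtain ⟨L, hL⟩ : ∃ L, L = (code A).length := ⟨_, rfl⟩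
  rw [← hL] at hn hs hlen hcoef hsum ⊢
  obtain ⟨M, hM⟩ : ∃ M, M = L + 2 := ⟨_, rfl⟩
  have hM2 : 2 ≤ M := by omega
  have hM3 : 4 * M ≤ M ^ 3 := by nlinarith [Nat.mul_le_mul hM2 hM2]
  have hx : ∀ k, |pointW A R x y k| ≤ (2 ^ (22 * M ^ 3) : ℤ) := by
    intro k
    have h2 := Bd3H.wv_le (wl A) L R x ((varsN A).idxOf k) hsum hR (by omega) hfor
    rw [← hM] at h2
    unfold pointW
    split_ifs
    · rw [Nat.abs_cast]
      exact_mod_cast h2
    · have h3 : y ((varsN A).idxOf k) ≤ 2 ^ (22 * M ^ 3) := (hy _).trans Nat.one_le_two_pow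
      rw [Nat.abs_cast]
      exact_mod_cast h3
  have hent : ∀ i j, |evalM A (pointW A R x y) i j| ≤ (2 ^ (23 * M ^ 3) : ℤ) := by
    intro i j
    have key : ∀ e : List (ℤ × ℕ), e.length ≤ L → (∀ p ∈ e, p.1.natAbs < 2 ^ L) →
        |evalE (pointW A R x y) e| ≤ (2 ^ (23 * M ^ 3) : ℤ) := by
      intro e he1 he2
      have h1 := Bnd.evalE_le (pointW A R x y) (2 ^ (22 * M ^ 3)) (2 ^ L) (by positivity) hx e
        fun p hp => by
          have h2 := he2 p hp
          rw [Int.abs_eq_natAbs]
          exact_mod_cast h2.le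
      have h3 : (e.length : ℤ) ≤ 2 ^ M := by
        have h4 : e.length ≤ 2 ^ M := by
          have := Bnd.lt_pow M
          omega
        exact_mod_cast h4
      calc _ ≤ (e.length : ℤ) * (2 ^ L * 2 ^ (22 * M ^ 3)) := h1
        _ ≤ 2 ^ M * (2 ^ M * 2 ^ (22 * M ^ 3)) := by
            refine mul_le_mul h3 (mul_le_mul_of_nonneg_right ?_ (by positivity))
              (by positivity) (by positivity)
            exact pow_le_pow_right₀ (by norm_num) (by omega)
        _ = 2 ^ (M + (M + 22 * M ^ 3)) := by rw [← pow_add, ← pow_add]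
        _ ≤ 2 ^ (23 * M ^ 3) := pow_le_pow_right₀ (by norm_num) (by omega)
    unfold evalM
    rcases Bnd.mem_getD A i with h1 | h1
    · rcases Bnd.mem_getD (A.getD i []) j with h2 | h2
      · exact key _ (hlen _ h1 _ h2) (hcoef _ h1 _ h2)
      · rw [h2]
        exact key [] (Nat.zero_le _) fun p hp => absurd hp List.not_mem_nil
    · rw [h1]
      have h2 : ([] : List (List (ℤ × ℕ))).getD j [] = [] := rfl
      rw [h2]
      exact key [] (Nat.zero_le _) fun p hp => absurd hp List.not_mem_nil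
  have hdet := Matrix.det_le (abv := AbsoluteValue.abs) (A := evalM A (pointW A R x y)) hent
  rw [Fintype.card_fin, nsmul_eq_mul] at hdet
  have h1 : |(evalM A (pointW A R x y)).det| < (2 ^ kbound L : ℤ) := by
    refine lt_of_le_of_lt hdet ?_
    have h2 : A.length.factorial ≤ 2 ^ (M * M) := by
      calc A.length.factorial ≤ A.length ^ A.length := Nat.factorial_le_pow _
        _ ≤ (2 ^ M) ^ A.length := by
            refine Nat.pow_le_pow_left ?_ _
            have := Bnd.lt_pow M
            omega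
        _ ≤ (2 ^ M) ^ M := Nat.pow_le_pow_right Nat.one_le_two_pow (by omega)
        _ = 2 ^ (M * M) := by rw [← pow_mul]
    have h3 : (2 ^ (23 * M ^ 3)) ^ A.length ≤ 2 ^ (23 * M ^ 3 * M) := by
      rw [← pow_mul]
      exact Nat.pow_le_pow_right (by norm_num) (Nat.mul_le_mul_left _ (by omega))
    have h4 : A.length.factorial * (2 ^ (23 * M ^ 3)) ^ A.length < 2 ^ kbound L := by
      calc _ ≤ 2 ^ (M * M) * 2 ^ (23 * M ^ 3 * M) := Nat.mul_le_mul h2 h3
        _ = 2 ^ (M * M + 23 * M ^ 3 * M) := by rw [← pow_add]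
        _ < 2 ^ kbound L := by
            refine Nat.pow_lt_pow_right (by norm_num) ?_
            unfold kbound
            rw [← hM]
            have h5 : M * M ≤ M * (M * (M * M)) := by
              refine Nat.mul_le_mul_left _ ?_
              nlinarith
            have h6 : 0 < M * (M * (M * M)) := by positivity
            have h7 : 23 * M ^ 3 * M = 23 * (M * (M * (M * M))) := by ring
            omega
    exact_mod_cast h4
  rw [Int.abs_eq_natAbs] at h1
  exact_mod_cast h1

end Pool.Agent.Lib.MP_64d474_lc.ST3
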