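import Pool.Agent.Lib.MP_64d474_lc.ST3.Stmts3

/-!
# Dual certificate: a set of matrices closed under edges bounds the rank
-/

set_option autoImplicit false

open Finset Module

namespace Pool.Agent.Lib.MP_64d474_lc.ST3

namespace DualAux

variable {F : Type} [Field F] {n : ℕ}

lemma finrank_le (g : (Fin n → F) →ₗ[F] (Fin n → F)) (V : Submodule F (Fin n → F)) :
    finrank F (LinearMap.range g) + finrank F V ≤ finrank F (V.map g) + n := by
  have h1 := LinearMap.finrank_range_add_finrank_ker g
  have h2 := LinearMap.finrank_range_add_finrank_ker (g.domRestrict V)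
  rw [LinearMap.range_domRestrict] at h2
  have h3 : finrank F (LinearMap.ker (g.domRestrict V)) ≤ finrank F (LinearMap.ker g) := by
    let e : LinearMap.ker (g.domRestrict V) →ₗ[F] LinearMap.ker g :=
      LinearMap.codRestrict (LinearMap.ker g)
        (V.subtype ∘ₗ (LinearMap.ker (g.domRestrict V)).subtype) (fun x => by
          have h : (g.domRestrict V) x.1 = 0 := x.2
          rw [LinearMap.mem_ker]
          exact h)
    refine LinearMap.finrank_le_finrank_of_injective (f := e) ?_
    intro x y hxy
    have h1 := congrArg Subtype.val hxy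
    have h : ((x : V) : Fin n → F) = ((y : V) : Fin n → F) := h1
    exact Subtype.ext (Subtype.ext h)
  rw [finrank_fin_fun] at h1
  omega

lemma finrank_eq (f : (Fin n → F) →ₗ[F] (Fin n → F)) (V : Submodule F (Fin n → F))
    (hV : LinearMap.ker f ≤ V) :
    finrank F (LinearMap.range f) + finrank F V = finrank F (V.map f) + n := by
  refine le_antisymm (finrank_le f V) ?_
  have h1 := LinearMap.finrank_range_add_finrank_ker f
  have h2 := LinearMap.finrank_range_add_finrank_ker (f.domRestrict V)
  rw [LinearMap.range_domRestrict] at h2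
  have h3 : finrank F (LinearMap.ker f) ≤ finrank F (LinearMap.ker (f.domRestrict V)) := by
    let e : LinearMap.ker f →ₗ[F] LinearMap.ker (f.domRestrict V) :=
      LinearMap.codRestrict (LinearMap.ker (f.domRestrict V))
        (Submodule.inclusion hV) (fun x => by
          have h : f x.1 = 0 := x.2
          rw [LinearMap.mem_ker]
          exact h)
    refine LinearMap.finrank_le_finrank_of_injective (f := e) ?_
    intro x y hxy
    have h1 := congrArg Subtype.val (congrArg Subtype.val hxy)
    have h : (x : Fin n → F) = (y : Fin n → F) := h1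
    exact Subtype.ext h
  rw [finrank_fin_fun] at h1
  omega

end DualAux

open DualAux in
theorem stDual : StDual := by
  intro F _ n m M B S hsrc hedg hsink c
  classical
  let f : (Fin n → F) →ₗ[F] (Fin n → F) := M.mulVecLin
  let g : (Fin n → F) →ₗ[F] (Fin n → F) := (M + ∑ k, c k • B k).mulVecLin
  let W : Submodule F (Fin n → F) := ⨆ k : {k // S k}, LinearMap.range (B k.1).mulVecLin
  have hW : W ≤ LinearMap.range f := by
    refine iSup_le fun k => ?_
    rintro _ ⟨y, rfl⟩
    by_contra h
    refine hsink k.1 k.2 ⟨y, fun x hx => h ⟨x, ?_⟩⟩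
    simpa [f] using hx
  have hl : ∀ l, ¬ S l → W ≤ (LinearMap.ker (B l).mulVecLin).map f := by
    intro l hSl
    refine iSup_le fun k => ?_
    rintro _ ⟨y, rfl⟩
    have h1 : ∃ x, M.mulVec x = (B k.1).mulVec y := by
      by_contra h
      exact hsink k.1 k.2 ⟨y, fun x hx => h ⟨x, hx⟩⟩
    obtain ⟨x, hx⟩ := h1
    refine ⟨x, ?_, by simpa [f] using hx⟩
    by_contra h
    refine hSl (hedg k.1 l k.2 ⟨x, y, hx, fun h0 => h ?_⟩)
    simpa using h0
  have hg : (W.comap f).map g ≤ W := by
    rintro _ ⟨x, hx, rfl⟩
    have hx' : f x ∈ W := hx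
    have hB : ∀ l, (B l).mulVec x ∈ W := by
      intro l
      by_cases hSl : S l
      · exact Submodule.mem_iSup_of_mem (⟨l, hSl⟩ : {k // S k}) ⟨x, by simp⟩
      · obtain ⟨x', hx1, hx2⟩ := hl l hSl hx'
        have h0 : (B l).mulVec (x - x') = 0 := by
          by_contra h
          refine hSl (hsrc l ⟨x - x', ?_, h⟩)
          have : M.mulVec x' = M.mulVec x := by simpa [f] using hx2
          rw [Matrix.mulVec_sub, this, sub_self]
        have h1 : (B l).mulVec x' = 0 := by simpa using hx1
        rw [Matrix.mulVec_sub, h1, sub_zero] at h0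
        rw [h0]
        exact W.zero_mem
    have e : g x = f x + ∑ k, c k • (B k).mulVec x := by
      simp only [g, f, Matrix.mulVecLin_apply, Matrix.add_mulVec, Matrix.sum_mulVec,
        Matrix.smul_mulVec]
    rw [e]
    exact W.add_mem hx' (W.sum_mem fun k _ => W.smul_mem _ (hB k))
  have h1 := finrank_le g (W.comap f)
  have h2 := finrank_eq f (W.comap f) (by
    intro x hx
    rw [LinearMap.mem_ker] at hx
    rw [Submodule.mem_comap, hx]
    exact W.zero_mem)
  have h3 : (W.comap f).map f = W := by
    rw [Submodule.map_comap_eq]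
    exact inf_eq_right.mpr hW
  rw [h3] at h2
  have h4 : finrank F ((W.comap f).map g) ≤ finrank F W := Submodule.finrank_mono hg
  change finrank F (LinearMap.range g) ≤ finrank F (LinearMap.range f)
  omega

end Pool.Agent.Lib.MP_64d474_lc.ST3
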