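import Pool.Agent.Lib.MP_64d474_lc.ST3.Stmts3
import Pool.Agent.Lib.MP_64d474_lc.SubExp.Grid
import Pool.Agent.Lib.MP_64d474_lc.SubExp.Factor

/-!
# Integer values, one coordinate after the other
-/

set_option autoImplicit false

open Finset Polynomial Pool.Agent.Lib.MP_64d474_lc.ST

namespace Pool.Agent.Lib.MP_64d474_lc.ST3

namespace GridAux

/-- the coordinate `c` of the point `v` is isolated -/
theorem split {n m : ℕ} (B₀ : Matrix (Fin n) (Fin n) ℚ) (B : Fin m → Matrix (Fin n) (Fin n) ℚ)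
    (v : Fin m → ℚ) (c : Fin m) (t : ℚ) :
    B₀ + ∑ k, Function.update v c t k • B k =
      (B₀ + ∑ k ∈ univ.erase c, v k • B k) + t • B c := by
  have h1 : ∑ k, Function.update v c t k • B k =
      (∑ k ∈ univ.erase c, Function.update v c t k • B k) + Function.update v c t c • B c :=
    (Finset.sum_erase_add _ _ (Finset.mem_univ c)).symm
  have h2 : ∑ k ∈ univ.erase c, Function.update v c t k • B k =
      ∑ k ∈ univ.erase c, v k • B k := by
    refine Finset.sum_congr rfl fun k hk => ?_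
    rw [Function.update_of_ne (Finset.ne_of_mem_erase hk)]
  rw [h1, h2, Function.update_self, add_assoc]

theorem one {n m : ℕ} (B₀ : Matrix (Fin n) (Fin n) ℚ) (B : Fin m → Matrix (Fin n) (Fin n) ℚ)
    (r : Fin m → ℕ) (hr : ∀ k, (B k).rank ≤ r k) (v : Fin m → ℚ) (c : Fin m)
    (h : (B₀ + ∑ k, v k • B k).det ≠ 0) :
    ∃ j : ℕ, j ≤ r c ∧ (B₀ + ∑ k, Function.update v c (j : ℚ) k • B k).det ≠ 0 := by
  obtain ⟨U, V, hUV⟩ := SubExp.exists_factor_of_rank_le (B c) (hr c)
  have h0 : B₀ + ∑ k, v k • B k = (B₀ + ∑ k ∈ univ.erase c, v k • B k) + v c • B c := by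
    have := split B₀ B v c (v c)
    rwa [Function.update_eq_self] at this
  have h' : ((B₀ + ∑ k ∈ univ.erase c, v k • B k) +
      ∑ k : Fin 1, ((fun _ => X : Fin 1 → ℚ[X]) k).eval (v c) •
        ((fun _ => B c : Fin 1 → Matrix (Fin n) (Fin n) ℚ) k)).det ≠ 0 := by
    rw [h0] at h
    simpa using h
  obtain ⟨j, hj, hdet⟩ := SubExp.exists_nat_le (fun _ : Fin 1 => r c)
    (B₀ + ∑ k ∈ univ.erase c, v k • B k) (fun _ => B c) (fun _ => U) (fun _ => V)
    (fun _ => hUV) (fun _ => X) 1 (fun _ => natDegree_X_le) (v c) h'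
  refine ⟨j, by simpa using hj, ?_⟩
  rw [split]
  simpa using hdet

end GridAux

theorem stGrid : StGrid := by
  intro n m B₀ B r x hr hdet
  have key : ∀ S : Finset (Fin m), ∃ v : Fin m → ℚ, (B₀ + ∑ k, v k • B k).det ≠ 0 ∧
      ∀ c ∈ S, ∃ j : ℕ, j ≤ r c ∧ v c = (j : ℚ) := by
    intro S
    induction S using Finset.induction_on with
    | empty => exact ⟨x, hdet, fun c hc => absurd hc (Finset.notMem_empty c)⟩
    | insert c S hc ih =>
      obtain ⟨v, hv, hS⟩ := ih
      obtain ⟨j, hj, hd⟩ := GridAux.one B₀ B r hr v c hv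
      refine ⟨Function.update v c (j : ℚ), hd, fun c' hc' => ?_⟩
      by_cases hcc : c' = c
      · subst hcc
        exact ⟨j, hj, Function.update_self _ _ _⟩
      · rw [Function.update_of_ne hcc]
        exact hS c' (Finset.mem_of_mem_insert_of_ne hc' hcc)
  obtain ⟨v, hv, hS⟩ := key univ
  choose h hh using fun c => hS c (Finset.mem_univ c)
  refine ⟨h, fun k => (hh k).1, ?_⟩
  have : (fun k => (h k : ℚ)) = v := by
    funext k
    exact (hh k).2.symm
  have e : ∑ k, (h k : ℚ) • B k = ∑ k, v k • B k := by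
    refine Finset.sum_congr rfl fun k _ => ?_
    rw [(hh k).2]
  rw [e]
  exact hv

end Pool.Agent.Lib.MP_64d474_lc.ST3
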