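import Pool.Agent.Lib.MP_64d474_lc.ST3.Stmts3
import Pool.Agent.Lib.MP_64d474_lc.ST2.Hit2
import Pool.Agent.Lib.MP_64d474_lc.ST.Loop

/-!
# The points of the third machine hit
-/

set_option autoImplicit false

open Finset Pool.Agent.Lib.PT Pool.Agent.Lib.MP_64d474_lc.ST
open Pool.Agent.Lib.MP_64d474_lc.ST2 (wl wr hitv getD_wl ptsH_ofFn)
open Pool.Agent.Lib.MP_64d474_lc.SubExp

namespace Pool.Agent.Lib.MP_64d474_lc.ST3

namespace Hit3

theorem getElem?_filter {α : Type*} (P : α → Bool) (L : List α) (j : ℕ) (hj : j < L.length)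
    (h : P (L[j]) = true) : (L.filter P)[((L.take j).filter P).length]? = some L[j] := by
  have e : L = L.take j ++ L[j] :: L.drop (j + 1) := by
    rw [← List.drop_eq_getElem_cons hj, List.take_append_drop]
  have e2 : L.filter P = (L.take j).filter P ++ L[j] :: (L.drop (j + 1)).filter P := by
    conv_lhs => rw [e]
    rw [List.filter_append, List.filter_cons_of_pos h]
  rw [e2, List.getElem?_append_right (le_refl _), Nat.sub_self]
  rfl

theorem low_wl (A : SMat) (R : ℕ) :
    low (wl A) R = List.ofFn fun j => if wr A j ≤ R then wr A j else 0 := by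
  unfold low wl
  rw [List.map_ofFn]
  rfl

theorem wl_eq (A : SMat) : wl A = (List.finRange (varsN A).length).map (wr A) := by
  unfold wl
  rw [List.ofFn_eq_map]

theorem his_wl (A : SMat) (R : ℕ) : his (wl A) R =
    ((List.finRange (varsN A).length).filter fun j => decide (R < wr A j)).map (wr A) := by
  unfold his
  rw [wl_eq, List.filter_map]
  rfl

theorem his_take_wl (A : SMat) (R : ℕ) (j : ℕ) : (his ((wl A).take j) R).length =
    (((List.finRange (varsN A).length).take j).filter fun j => decide (R < wr A j)).length := by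
  unfold his
  rw [wl_eq, ← List.map_take, List.filter_map, List.length_map]
  rfl

end Hit3

open Hit3 in
theorem stHit3 (h1 : StGen) (h2 : StRank) (h3 : ST2.StPtsH) (h4 : StGrid) (h5 : StMv) :
    StHit3 := by
  classical
  intro A R hsq hR hdet
  obtain ⟨x, hx⟩ := h1 A hdet
  obtain ⟨-, hev⟩ := h2 A hsq
  obtain ⟨m1, -, m3⟩ := h5
  set m := (varsN A).length with hm'
  set y : Fin m → ℚ := fun j => x ((varsN A).get j) with hy
  have hmr : ∀ k, 2 ≤ wr A k → (mats A k).rank ≤ wr A k := by
    intro k h
    unfold wr at h ⊢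
    unfold mats
    split_ifs at h ⊢ with h5 h6
    · exact le_refl _
    · omega
    · omega
  have hmr1 : ∀ k, ¬ 2 ≤ wr A k → (mats A k).rank ≤ 1 := by
    intro k h
    unfold wr at h
    unfold mats
    split_ifs at h ⊢ with h5 h6
    · exact absurd h6 h
    · have : (ST2.coefMatrix A ((varsN A).get k)).rank ≤ 1 := by omega
      exact this
    · rw [Matrix.rank_zero]
      omega
  -- the variables of large rank and those of rank at most one
  let lo : Fin m → Prop := fun k => 2 ≤ wr A k ∧ wr A k ≤ R
  set D₀ : Matrix (Fin A.length) (Fin A.length) ℚ :=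
    ∑ k, (if lo k then y k else 0) • mats A k with hD₀
  set D : Fin m → Matrix (Fin A.length) (Fin A.length) ℚ :=
    fun k => if lo k then 0 else mats A k with hD
  have hDs : ∀ y' : Fin m → ℚ, D₀ + ∑ k, y' k • D k =
      ∑ k, (if lo k then y k else y' k) • mats A k := by
    intro y'
    rw [hD₀, ← sum_add_distrib]
    refine sum_congr rfl fun k _ => ?_
    rw [hD]
    dsimp only
    split_ifs <;> simp
  obtain ⟨h, hr, hdet1⟩ := h4 A.length m D₀ D
    (fun k => if lo k then 0 else if 2 ≤ wr A k then wr A k else 1) y (by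
      intro k
      rw [hD]
      dsimp only
      split_ifs with g1 g2
      · rw [Matrix.rank_zero]
      · exact hmr k g2
      · exact hmr1 k g2) (by
      rw [hDs]
      simp only [ite_self]
      rw [hev] at hx
      exact hx)
  -- the variables of small rank
  set a : Fin m → ℕ := fun k => if wr A k ≤ R then wr A k else 0 with ha
  set C₀ : Matrix (Fin A.length) (Fin A.length) ℚ :=
    ∑ k, (if lo k then 0 else (h k : ℚ)) • mats A k with hC₀
  set C : Fin m → Matrix (Fin A.length) (Fin A.length) ℚ :=
    fun k => if lo k then mats A k else 0 with hC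
  have hCs : ∀ y' : Fin m → ℚ, C₀ + ∑ k, y' k • C k =
      ∑ k, (if lo k then y' k else (h k : ℚ)) • mats A k := by
    intro y'
    rw [hC₀, ← sum_add_distrib]
    refine sum_congr rfl fun k _ => ?_
    rw [hC]
    dsimp only
    split_ifs <;> simp
  have hrk : ∀ k, (C k).rank ≤ a k := by
    intro k
    rw [hC, ha]
    dsimp only
    split_ifs with g1 g2 g2
    · exact hmr k g1.1
    · exact absurd g1.2 g2
    · rw [Matrix.rank_zero]
      exact Nat.zero_le _
    · rw [Matrix.rank_zero]
  choose U V hUV using fun k => exists_factor_of_rank_le (C k) (hrk k)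
  have hd : (C₀ + ∑ k, y k • C k).det ≠ 0 := by
    rw [hCs]
    rw [hDs] at hdet1
    exact hdet1
  obtain ⟨z, y₁, w₁, hzyw⟩ := hybrid a hR C₀ C U V hUV y hd
  obtain ⟨v, hv, hvdet⟩ := all_par a R C₀ C U V hUV (Sum.elim z (Sum.elim y₁ w₁)) hzyw
  obtain ⟨d, hdm, hpt⟩ := ptsH_ofFn h3 a R hR v hv
  rw [← low_wl] at hdm hpt
  have hdl : d.length = dgs (wl A) R := (Loop.mem_vecs _ _ d hdm).1
  set g : List ℕ :=
    ((List.finRange m).filter fun j => decide (R < wr A j)).map h with hg
  have hxm : d ++ g ∈ mvecs (blA A R) := by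
    rw [m1]
    unfold blA
    refine List.rel_append ?_ ?_
    · rw [← m1, m3]
      exact hdm
    · rw [his_wl, hg, List.forall₂_map_left_iff, List.forall₂_map_right_iff, List.forall₂_same]
      intro j hj
      rw [List.mem_filter, decide_eq_true_eq] at hj
      have g1 := hr j
      have g2 : ¬ lo j := fun g3 => absurd g3.2 (not_le.2 hj.2)
      rw [if_neg g2] at g1
      split_ifs at g1 with g4
      · exact g1
      · omega
  refine ⟨d ++ g, hxm, fun j => if hj : j < m then (if 2 ≤ wr A ⟨j, hj⟩ then 0 else h ⟨j, hj⟩)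
    else 0, ?_, ?_⟩
  · intro j
    dsimp only
    split_ifs with g1 g2
    · exact Nat.zero_le _
    · have g3 := hr ⟨j, g1⟩
      have g4 : ¬ lo ⟨j, g1⟩ := fun g5 => g2 g5.1
      rw [if_neg g4, if_neg g2] at g3
      exact g3
    · exact Nat.zero_le _
  intro h0
  apply hvdet
  have key : C₀ + ∑ k, pt a R (fun c => (v c : ℚ)) k • C k =
      (evalM A (pointW A R (d ++ g) fun j => if hj : j < m then
        (if 2 ≤ wr A ⟨j, hj⟩ then 0 else h ⟨j, hj⟩) else 0) :
          Matrix _ _ ℤ).map (Int.castRingHom ℚ) := by
    rw [hCs, evalM_map, hev]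
    refine sum_congr rfl fun j _ => ?_
    by_cases hj : (varsN A).idxOf ((varsN A).get j) = j
    · congr 1
      unfold pointW
      rw [hj, getD_wl]
      by_cases g1 : 2 ≤ wr A j
      · rw [if_pos g1]
        unfold wv
        rw [getD_wl, if_pos g1]
        by_cases g2 : wr A j ≤ R
        · have g3 : lo j := ⟨g1, g2⟩
          rw [if_pos g3, if_pos g2, ← cast_point, hpt j, ← hdl, List.take_left]
          simp
        · have g3 : ¬ lo j := fun g4 => g2 g4.2
          rw [if_neg g3, if_neg g2, ← hdl, List.drop_left, his_take_wl]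
          have g4 : g.getD (((List.finRange (varsN A).length).take (j : ℕ)).filter
              fun j => decide (R < wr A j)).length 0 = h j := by
            have g5 := getElem?_filter (fun j => decide (R < wr A j)) (List.finRange m) j
              (by simp) (by simpa using g2)
            rw [hg, List.getD_eq_getElem?_getD, List.getElem?_map]
            rw [g5]
            simp
          rw [g4]
          simp
      · have g3 : ¬ lo j := fun g4 => g1 g4.1
        have g4 : (j : ℕ) < m := j.isLt
        rw [if_neg g3, if_neg g1]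
        dsimp only
        rw [dif_pos g4, if_neg g1]
        simp
    · have : mats A j = 0 := by
        unfold mats
        rw [if_neg hj]
      rw [this, smul_zero, smul_zero]
  rw [key, ← RingHom.mapMatrix_apply, ← RingHom.map_det, h0, map_zero]

end Pool.Agent.Lib.MP_64d474_lc.ST3
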