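import Pool.Agent.Lib.MP_64d474_lc.ST3.Stmts3

/-!
# Ranks of block matrices and kernels
-/

set_option autoImplicit false

namespace Pool.Agent.Lib.MP_64d474_lc.ST3

namespace Ker

open Matrix

variable {F : Type} [Field F] {m₁ m₂ k : Type} [Fintype m₁] [Fintype m₂] [Fintype k]
  [DecidableEq m₁] [DecidableEq m₂] [DecidableEq k]

theorem rank_add_ker (P : Matrix m₁ k F) :
    P.rank + Module.finrank F (LinearMap.ker P.mulVecLin) = Fintype.card k := by
  have h := LinearMap.finrank_range_add_finrank_ker P.mulVecLin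
  rw [Module.finrank_fintype_fun_eq_card] at h
  exact h

theorem rows_iff (P : Matrix m₁ k F) (Q : Matrix m₂ k F) :
    P.rank < (Matrix.fromRows P Q).rank ↔ ∃ x, P.mulVec x = 0 ∧ Q.mulVec x ≠ 0 := by
  have h1 := rank_add_ker P
  have h2 := rank_add_ker (Matrix.fromRows P Q)
  have hmem : ∀ x : k → F, x ∈ LinearMap.ker (Matrix.fromRows P Q).mulVecLin ↔
      P.mulVec x = 0 ∧ Q.mulVec x = 0 := by
    intro x
    rw [LinearMap.mem_ker, Matrix.mulVecLin_apply, Matrix.fromRows_mulVec]
    constructor
    · intro h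
      refine ⟨?_, ?_⟩
      · funext i
        have := congrFun h (Sum.inl i)
        simpa using this
      · funext i
        have := congrFun h (Sum.inr i)
        simpa using this
    · rintro ⟨h, h'⟩
      funext i
      cases i with
      | inl i => simp [h]
      | inr i => simp [h']
  have hle : LinearMap.ker (Matrix.fromRows P Q).mulVecLin ≤ LinearMap.ker P.mulVecLin := by
    intro x hx
    rw [LinearMap.mem_ker, Matrix.mulVecLin_apply]
    exact ((hmem x).1 hx).1
  constructor
  · intro hlt
    by_contra hno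
    push Not at hno
    have heq : LinearMap.ker (Matrix.fromRows P Q).mulVecLin = LinearMap.ker P.mulVecLin := by
      refine le_antisymm hle ?_
      intro x hx
      rw [LinearMap.mem_ker, Matrix.mulVecLin_apply] at hx
      exact (hmem x).2 ⟨hx, hno x hx⟩
    rw [heq] at h2
    omega
  · rintro ⟨x, hx, hx'⟩
    have hne : LinearMap.ker (Matrix.fromRows P Q).mulVecLin < LinearMap.ker P.mulVecLin := by
      refine lt_of_le_of_ne hle ?_
      intro heq
      have : x ∈ LinearMap.ker (Matrix.fromRows P Q).mulVecLin := by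
        rw [heq, LinearMap.mem_ker, Matrix.mulVecLin_apply]
        exact hx
      exact hx' ((hmem x).1 this).2
    have := Submodule.finrank_lt_finrank_of_lt hne
    omega

theorem cols_iff {k₂ : Type} [Fintype k₂] [DecidableEq k₂] (P : Matrix m₁ k F)
    (Q : Matrix m₁ k₂ F) :
    P.rank < (Matrix.fromCols P Q).rank ↔ ∃ y, ∀ x, P.mulVec x ≠ Q.mulVec y := by
  have hle : LinearMap.range P.mulVecLin ≤ LinearMap.range (Matrix.fromCols P Q).mulVecLin := by
    rintro _ ⟨x, rfl⟩
    refine ⟨Sum.elim x 0, ?_⟩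
    rw [Matrix.mulVecLin_apply, Matrix.mulVecLin_apply, Matrix.fromCols_mulVec]
    simp
  have hr1 : P.rank = Module.finrank F (LinearMap.range P.mulVecLin) := rfl
  have hr2 : (Matrix.fromCols P Q).rank =
    Module.finrank F (LinearMap.range (Matrix.fromCols P Q).mulVecLin) := rfl
  constructor
  · intro hlt
    by_contra hno
    push Not at hno
    have heq : LinearMap.range (Matrix.fromCols P Q).mulVecLin = LinearMap.range P.mulVecLin := by
      refine le_antisymm ?_ hle
      rintro _ ⟨z, rfl⟩
      rw [Matrix.mulVecLin_apply, Matrix.fromCols_mulVec]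
      obtain ⟨x, hx⟩ := hno (z ∘ Sum.inr)
      refine ⟨(z ∘ Sum.inl) + x, ?_⟩
      rw [Matrix.mulVecLin_apply, Matrix.mulVec_add, hx]
    rw [hr1, hr2, heq] at hlt
    exact lt_irrefl _ hlt
  · rintro ⟨y, hy⟩
    rw [hr1, hr2]
    refine Submodule.finrank_lt_finrank_of_lt (lt_of_le_of_ne hle ?_)
    intro heq
    have : Q.mulVec y ∈ LinearMap.range (Matrix.fromCols P Q).mulVecLin := by
      refine ⟨Sum.elim 0 y, ?_⟩
      rw [Matrix.mulVecLin_apply, Matrix.fromCols_mulVec]
      simp
    rw [← heq] at this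
    obtain ⟨x, hx⟩ := this
    exact hy x hx

end Ker

theorem stKer : StKer := by
  intro F _ n M B B'
  refine ⟨Ker.rows_iff M B, Ker.cols_iff M B, ?_⟩
  intro hns
  have hC : M.rank = (Matrix.fromCols M B).rank := by
    have h1 : ¬ M.rank < (Matrix.fromCols M B).rank := fun h => hns ((Ker.cols_iff M B).1 h)
    have h2 : M.rank ≤ (Matrix.fromCols M B).rank := by
      have hle : LinearMap.range M.mulVecLin ≤
          LinearMap.range (Matrix.fromCols M B).mulVecLin := by
        rintro _ ⟨x, rfl⟩
        refine ⟨Sum.elim x 0, ?_⟩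
        rw [Matrix.mulVecLin_apply, Matrix.mulVecLin_apply, Matrix.fromCols_mulVec]
        simp
      exact Submodule.finrank_mono hle
    omega
  have hB : Matrix.fromBlocks M B B' 0 =
      Matrix.fromRows (Matrix.fromCols M B) (Matrix.fromCols B' (0 : Matrix (Fin n) (Fin n) F)) := by
    ext i j
    cases i <;> cases j <;> rfl
  rw [hC, hB, Ker.rows_iff]
  constructor
  · rintro ⟨z, hz, hz'⟩
    rw [Matrix.fromCols_mulVec] at hz hz'
    refine ⟨z ∘ Sum.inl, -(z ∘ Sum.inr), ?_, ?_⟩
    · rw [Matrix.mulVec_neg]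
      exact eq_neg_of_add_eq_zero_left hz
    · intro h
      apply hz'
      rw [h, Matrix.zero_mulVec, add_zero]
  · rintro ⟨x, y, hxy, hx⟩
    refine ⟨Sum.elim x (-y), ?_, ?_⟩
    · rw [Matrix.fromCols_mulVec]
      simp only [Sum.elim_comp_inl, Sum.elim_comp_inr, Matrix.mulVec_neg]
      rw [hxy, add_neg_cancel]
    · rw [Matrix.fromCols_mulVec]
      simp only [Sum.elim_comp_inl, Sum.elim_comp_inr, Matrix.zero_mulVec, add_zero]
      exact hx

end Pool.Agent.Lib.MP_64d474_lc.ST3
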