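import Pool.Agent.Lib.MP_64d474_lc.ST3.Asm3
import Pool.Agent.Lib.MP_64d474_lc.ST2.Mach2

/-!
# The third machine
-/

set_option autoImplicit false
set_option maxHeartbeats 400000

open Pool.Agent.Lib.PT Pool.Agent.Lib.MP_64d474_lc.ST
open Pool.Agent.Lib.MP_64d474_lc.ST2 (rw' StRl wl)

namespace Pool.Agent.Lib.MP_64d474_lc.ST3

theorem exists_machine3 (hdec : StPTDec3) (hloop : StLoop3) :
    ∃ (c : ℕ) (M : Turing.TM2ComputableAux Letter Bool) (p : Polynomial ℕ),
      ∀ w : List Letter, Outputs M w [accept3 w] (p.eval (tb3 c w)) := by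
  obtain ⟨c, hc, hT⟩ := hloop
  have h0 : PTime fun q : List Letter × List (List ℕ) => [dec3 q.1 q.2] :=
    PTime.cons hdec (PTime.const [])
  have h1 := TB.comp h0 hT hc
  obtain ⟨M, p, hM⟩ := tb_tm (G₁ := Letter) (G₂ := Bool)
    (fun a b h => EncInj.inj h) hc h1
  exact ⟨c, M, p, hM⟩

theorem bounds_rw' (hR : StRaw) (hrl : StRl) (hrl3 : StRl3) (w : List Letter) (R P : ℕ)
    (h1 : 1 ≤ R) (hP : 1 ≤ P)
    (h : ∀ A : SMat, code A = w → lowRank A R ≤ R ^ 3 ∧ highProd A R ≤ P) :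
    (low (rw' w) R).sum ≤ R ^ 3 ∧ ((his (rw' w) R).map fun x => x + 1).prod ≤ P := by
  unfold rw'
  cases hw : wellformed w with
  | false => exact ⟨Nat.zero_le _, hP⟩
  | true =>
    rw [cond_true]
    obtain ⟨hR1, hR2, hR3⟩ := hR
    unfold wellformed at hw
    rw [Bool.and_eq_true, Bool.and_eq_true, decide_eq_true_eq] at hw
    obtain ⟨h2, h3, h4⟩ := hw
    have h5 := hR3 _ h3
    have hcode : code (unraw (parse w)) = w := by rw [← hR1, h5, h2]
    have hsq : ∀ r ∈ unraw (parse w), r.length = (unraw (parse w)).length :=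
      square_of_raw _ (by rw [h5]; exact h4)
    obtain ⟨h6, -, -⟩ := hrl _ hsq
    rw [h5, hcode] at h6
    obtain ⟨h7, h8⟩ := hrl3 _ R hsq h1
    rw [h6, h7, h8]
    exact h _ hcode

open Classical in
theorem main3 (hR : StRaw) (hrl : StRl) (hrl3 : StRl3) (hdec : StPTDec3) (hloop : StLoop3)
    (hbd : StBd3) (hnum : StNum3)
    (hacc : ∀ w : List Letter, accept3 w = true ↔ ∃ A : SMat, code A = w ∧ Nonsingular A) :
    ∃ (c : ℕ) (M : Turing.TM2ComputableAux Letter Bool), ∀ (w : List Letter) (R P : ℕ),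
      1 ≤ R → 1 ≤ P →
      (∀ A : SMat, code A = w → lowRank A R ≤ R ^ 3 ∧ highProd A R ≤ P) →
      Nonempty (Turing.TM2OutputsInTime M.tm (w.map M.inputAlphabet.invFun)
        (some ([decide (∃ A : SMat, code A = w ∧ Nonsingular A)].map M.outputAlphabet.invFun))
        ((w.length + 2) ^ c *
          min (2 ^ (c * w.count .row)) (P ^ c * (R + 1) ^ (c * R ^ 2)))) := by
  obtain ⟨c, M, p, hM⟩ := exists_machine3 hdec hloop
  obtain ⟨c', hc'⟩ := hbd p c
  obtain ⟨c'', hc''⟩ := hnum c'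
  refine ⟨c'', M, fun w R P h1 hP hw => ?_⟩
  have h3 : decide (∃ A : SMat, code A = w ∧ Nonsingular A) = accept3 w := by
    rw [Bool.eq_iff_iff, decide_eq_true_eq]
    exact (hacc w).symm
  rw [h3]
  obtain ⟨h4, h5⟩ := bounds_rw' hR hrl hrl3 w R P h1 hP hw
  exact (hM w).mono ((hc' w).trans (hc'' w R P h1 hP h4 h5))

end Pool.Agent.Lib.MP_64d474_lc.ST3
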