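import Pool.Agent.Lib.MP_64d474_lc.ST3.Ones
import Pool.Agent.Lib.MP_64d474_lc.ST.Mod

/-!
# The matrix at the points modulo a number
-/

set_option autoImplicit false

open Finset Pool.Agent.Lib.PT Pool.Agent.Lib.MP_64d474_lc.ST
open Pool.Agent.Lib.MP_64d474_lc.ST2 (cmat wl wr)
open Pool.Agent.Lib.MP_64d474_lc.ST2.MultAux (cz)
open Pool.Agent.Lib.MP_64d474_lc.ST2.RlAux (idx_bits)
open Pool.Agent.Lib.MP_64d474_lc.ST.Modaux (cast_coefmod vars_raw)

namespace Pool.Agent.Lib.MP_64d474_lc.ST3

namespace Mod3aux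

open OnesAux

variable {p : ℕ}

lemma single (V : List ℕ) (l : List ℕ) (y : ℕ → ZMod p) (a : ZMod p) (v : ℕ) (hv : v ∈ V) :
    ∑ k ∈ range V.length, y k * (if V.idxOf (V.getD k 0) = k ∧ l.getD k 0 < 2 then
      (a * if v = V.getD k 0 then 1 else 0) else 0) =
      a * (if l.getD (V.idxOf v) 0 < 2 then y (V.idxOf v) else 0) := by
  have hlt : V.idxOf v < V.length := List.idxOf_lt_length_of_mem hv
  have hg : V.getD (V.idxOf v) 0 = v := by
    rw [List.getD_eq_getElem _ _ hlt, List.getElem_idxOf]
  rw [Finset.sum_eq_single (V.idxOf v)]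
  · rw [hg]
    by_cases h : l.getD (V.idxOf v) 0 < 2
    · rw [if_pos ⟨rfl, h⟩, if_pos rfl, if_pos h]
      ring
    · rw [if_neg (fun h' => h h'.2), if_neg h]
      ring
  · intro k _ hk
    by_cases h : V.idxOf (V.getD k 0) = k ∧ l.getD k 0 < 2
    · have h2 : v ≠ V.getD k 0 := by
        intro h3
        apply hk
        rw [h3]
        exact h.1.symm
      rw [if_pos h, if_neg h2]
      ring
    · rw [if_neg h]
      ring
  · intro h
    exact absurd (Finset.mem_range.2 hlt) h

lemma key (V : List ℕ) (l : List ℕ) (y : ℕ → ZMod p) (f : List (ℤ × ℕ))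
    (hf : ∀ q ∈ f, q.2 ∈ V) :
    ∑ k ∈ range V.length, y k * (if V.idxOf (V.getD k 0) = k ∧ l.getD k 0 < 2 then
      (f.map fun q => (q.1 : ZMod p) * if q.2 = V.getD k 0 then 1 else 0).sum else 0) =
      (f.map fun q => (q.1 : ZMod p) *
        (if l.getD (V.idxOf q.2) 0 < 2 then y (V.idxOf q.2) else 0)).sum := by
  induction f with
  | nil => simp
  | cons q f ih =>
    rw [List.map_cons, List.sum_cons, ← ih fun q' hq' => hf q' (List.mem_cons_of_mem _ hq'),
      ← single V l y (q.1 : ZMod p) q.2 (hf q List.mem_cons_self), ← Finset.sum_add_distrib]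
    refine Finset.sum_congr rfl fun k _ => ?_
    by_cases h : V.idxOf (V.getD k 0) = k ∧ l.getD k 0 < 2
    · rw [if_pos h, if_pos h, if_pos h, List.map_cons, List.sum_cons]
      ring
    · rw [if_neg h, if_neg h, if_neg h]
      ring

lemma cast_cz (A : SMat) (k : ℕ) (i j : Fin A.length) :
    ((cz A k i j : ℤ) : ZMod p) = (((A.getD i []).getD j []).map fun q : ℤ × ℕ =>
      (q.1 : ZMod p) * if q.2 = k then 1 else 0).sum := by
  unfold cz evalM evalE
  generalize (A.getD i []).getD j [] = e
  induction e with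
  | nil => simp
  | cons q e ih =>
    rw [List.map_cons, List.sum_cons, Int.cast_add, ih, List.map_cons, List.sum_cons]
    congr 1
    by_cases h : q.2 = k
    · simp [h]
    · simp [h]

lemma cast_ones (A : SMat) (hA : ∀ r ∈ A, r.length = A.length) (hp : 0 < p) (k : ℕ)
    (hk : k < (varsN A).length) (i j : Fin A.length) :
    toM p A.length ((ones p (wl A) (raw A)).getD k []) i j =
      if (varsN A).idxOf ((varsN A).getD k 0) = k ∧ (wl A).getD k 0 < 2 then
        (((A.getD i []).getD j []).map fun q : ℤ × ℕ =>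
          (q.1 : ZMod p) * if q.2 = (varsN A).getD k 0 then 1 else 0).sum else 0 := by
  have hv : vars (raw A) = (varsN A).map Nat.bits := vars_raw A
  have e1 : (vars (raw A)).getD k [] = ((varsN A).getD k 0).bits := by
    rw [hv, List.getD_eq_getElem _ _ (by rw [List.length_map]; exact hk), List.getElem_map,
      List.getD_eq_getElem _ _ hk]
  have e2 : (ones p (wl A) (raw A)).getD k [] =
      if (varsN A).idxOf ((varsN A).getD k 0) = k ∧ (wl A).getD k 0 < 2 then
        cmat p ((varsN A).getD k 0).bits (raw A) else zerM A.length := by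
    have hl : k < (List.range (vars (raw A)).length).length := by
      rw [List.length_range, hv, List.length_map]
      exact hk
    have e3 : (ones p (wl A) (raw A)).getD k [] =
        if (vars (raw A)).idxOf ((vars (raw A)).getD k []) = k ∧ (wl A).getD k 0 < 2 then
          cmat p ((vars (raw A)).getD k []) (raw A) else zerM (raw A).length := by
      rw [ones, List.getD_eq_getElem _ _ (by rw [List.length_map]; exact hl), List.getElem_map,
        List.getElem_range]
    rw [e3, e1, hv, idx_bits, raw_length]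
  rw [e2]
  by_cases h : (varsN A).idxOf ((varsN A).getD k 0) = k ∧ (wl A).getD k 0 < 2
  · rw [if_pos h, if_pos h, toM_cmat A hA p hp, Matrix.map_apply]
    exact cast_cz A _ i j
  · rw [if_neg h, if_neg h, toM_zerM]
    rfl

lemma cast_entW (hx : StWm) (hp : 0 < p) (V : List ℕ) (l : List ℕ) (R : ℕ) (x : List ℕ)
    (f : List (ℤ × ℕ)) :
    ((entW p (V.map Nat.bits) l R x (f.map rawPair) : ℕ) : ZMod p) =
      (f.map fun q => (q.1 : ZMod p) * ((wv l R x (V.idxOf q.2) : ℕ) : ZMod p)).sum := by
  unfold entW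
  rw [ZMod.natCast_mod]
  induction f with
  | nil => simp
  | cons q f ih =>
    rw [List.map_cons, List.map_cons, List.sum_cons, List.map_cons, List.sum_cons, Nat.cast_add,
      ih, Nat.cast_mul]
    congr 1
    have h1 : ((coefmod p (rawPair q).1 : ℕ) : ZMod p) = (q.1 : ZMod p) := cast_coefmod p hp q.1
    have h2 : (V.map Nat.bits).idxOf (rawPair q).2 = V.idxOf q.2 := idx_bits V q.2
    rw [h1, h2, hx p l R x (V.idxOf q.2) hp]

lemma cast_eval (V : List ℕ) (l : List ℕ) (R : ℕ) (x : List ℕ) (y : ℕ → ℕ)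
    (f : List (ℤ × ℕ)) :
    ((evalE (fun k => if 2 ≤ l.getD (V.idxOf k) 0 then (wv l R x (V.idxOf k) : ℤ)
      else (y (V.idxOf k) : ℤ)) f : ℤ) : ZMod p) =
      (f.map fun q => (q.1 : ZMod p) * ((wv l R x (V.idxOf q.2) : ℕ) : ZMod p)).sum +
      (f.map fun q => (q.1 : ZMod p) *
        (if l.getD (V.idxOf q.2) 0 < 2 then (y (V.idxOf q.2) : ZMod p) else 0)).sum := by
  unfold evalE
  induction f with
  | nil => simp
  | cons q f ih =>
    rw [List.map_cons, List.sum_cons, Int.cast_add, ih, List.map_cons, List.sum_cons,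
      List.map_cons, List.sum_cons]
    beta_reduce
    by_cases h : 2 ≤ l.getD (V.idxOf q.2) 0
    · rw [if_pos h, if_neg (not_lt.2 h)]
      push_cast
      ring
    · have h3 : wv l R x (V.idxOf q.2) = 0 := by
        unfold wv
        rw [if_neg h]
      rw [if_neg h, if_pos (not_le.1 h), h3]
      push_cast
      ring

end Mod3aux

open Mod3aux in
theorem stMod3 (h1 : StWm) : StMod3 := by
  intro A p R x y hp hA i j
  have hi : (i : ℕ) < A.length := i.isLt
  have hr : (A[(i : ℕ)]).length = A.length := hA _ (List.getElem_mem hi)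
  have hj : (j : ℕ) < (A[(i : ℕ)]).length := by rw [hr]; exact j.isLt
  have h2 : ((A.getD i []).getD j []) = A[(i : ℕ)][(j : ℕ)] := by
    simp [List.getD_eq_getElem?_getD, hi, hj]
  have h3 : toM p A.length (matW p (wl A) R x (raw A)) i j =
      ((entW p ((varsN A).map Nat.bits) (wl A) R x
        (((A.getD i []).getD j []).map rawPair) : ℕ) : ZMod p) := by
    rw [h2]
    unfold toM matW
    rw [vars_raw]
    simp [raw, List.getD_eq_getElem?_getD, hj]
  have hf : ∀ q ∈ (A.getD i []).getD j [], q.2 ∈ varsN A := by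
    intro q hq
    rw [h2] at hq
    unfold varsN
    rw [List.mem_flatMap]
    refine ⟨A[(i : ℕ)], List.getElem_mem hi, ?_⟩
    rw [List.mem_flatMap]
    exact ⟨A[(i : ℕ)][(j : ℕ)], List.getElem_mem hj, List.mem_map_of_mem hq⟩
  have h4 : ∑ k ∈ range (varsN A).length,
      (y k : ZMod p) * toM p A.length ((ones p (wl A) (raw A)).getD k []) i j =
      ∑ k ∈ range (varsN A).length, (y k : ZMod p) *
        (if (varsN A).idxOf ((varsN A).getD k 0) = k ∧ (wl A).getD k 0 < 2 then
          (((A.getD i []).getD j []).map fun q : ℤ × ℕ =>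
            (q.1 : ZMod p) * if q.2 = (varsN A).getD k 0 then 1 else 0).sum else 0) :=
    Finset.sum_congr rfl fun k hk => by rw [cast_ones A hA hp k (Finset.mem_range.1 hk)]
  rw [h3, h4, cast_entW h1 hp, key (varsN A) (wl A) (fun k => (y k : ZMod p)) _ hf]
  exact cast_eval (varsN A) (wl A) R x y _

end Pool.Agent.Lib.MP_64d474_lc.ST3
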