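import Pool.Agent.Lib.MP_64d474_lc.ST3.Stmts3

/-!
# The lists of digits with different bounds
-/

set_option autoImplicit false

open Pool.Agent.Lib.MP_64d474_lc.ST

namespace Pool.Agent.Lib.MP_64d474_lc.ST3

namespace MvAux

theorem mvecs_nil : mvecs [] = [[]] := rfl

theorem mvecs_cons (D : ℕ) (B : List ℕ) :
    mvecs (D :: B) = (mvecs B).flatMap fun l => (List.range (D + 1)).map fun x => x :: l := rfl

theorem vecs_succ (D T : ℕ) :
    vecs D (T + 1) = (vecs D T).flatMap fun l => (List.range (D + 1)).map fun x => x :: l := by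
  unfold vecs
  rw [Function.iterate_succ_apply']

theorem mem_mvecs (B : List ℕ) :
    ∀ x : List ℕ, x ∈ mvecs B ↔ List.Forall₂ (fun a b => a ≤ b) x B := by
  induction B with
  | nil =>
    intro x
    rw [mvecs_nil, List.mem_singleton, List.forall₂_nil_right_iff]
  | cons D B ih =>
    intro x
    rw [mvecs_cons, List.mem_flatMap, List.forall₂_cons_right_iff]
    constructor
    · rintro ⟨l, hl, hx⟩
      obtain ⟨y, hy, rfl⟩ := List.mem_map.mp hx
      exact ⟨y, l, Nat.lt_succ_iff.mp (List.mem_range.mp hy), (ih l).mp hl, rfl⟩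
    · rintro ⟨y, l, hy, hl, rfl⟩
      exact ⟨l, (ih l).mpr hl,
        List.mem_map.mpr ⟨y, List.mem_range.mpr (Nat.lt_succ_iff.mpr hy), rfl⟩⟩

theorem length_mvecs (B : List ℕ) : (mvecs B).length = (B.map fun b => b + 1).prod := by
  induction B with
  | nil => rfl
  | cons D B ih =>
    rw [mvecs_cons, List.length_flatMap]
    simp [ih, mul_comm]

theorem mvecs_replicate (D T : ℕ) : mvecs (List.replicate T D) = vecs D T := by
  induction T with
  | zero => rfl
  | succ T ih => rw [List.replicate_succ, mvecs_cons, ih, vecs_succ]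

end MvAux

theorem stMv : StMv := ⟨MvAux.mem_mvecs, MvAux.length_mvecs, MvAux.mvecs_replicate⟩

end Pool.Agent.Lib.MP_64d474_lc.ST3
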