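import Pool.Agent.Lib.MP_64d474_lc.ST3.Stmts3
import Pool.Agent.Lib.MP_64d474_lc.ST2.Num

/-!
# The bound of the running time of the third machine in numbers
-/

set_option autoImplicit false

open Pool.Agent.Lib.MP_64d474_lc.ST
open Pool.Agent.Lib.MP_64d474_lc.ST2 (rw' nr)

namespace Pool.Agent.Lib.MP_64d474_lc.ST3

namespace Num3Aux

theorem two_pow_log (x : ℕ) : 2 ^ (Nat.log 2 (x + 1) + 1) ≤ 2 * (x + 1) := by
  rw [pow_succ, mul_comm]
  exact Nat.mul_le_mul_left 2 (Nat.pow_log_le_self 2 (by omega))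

theorem two_pow_log' {x : ℕ} (hx : 1 ≤ x) : 2 ^ (Nat.log 2 (x + 1) + 1) ≤ (x + 1) ^ 2 := by
  refine (two_pow_log x).trans ?_
  nlinarith

theorem prod_bound (l : List ℕ) (hl : ∀ x ∈ l, 1 ≤ x) :
    2 ^ ((l.map fun x => Nat.log 2 (x + 1) + 1).sum) ≤ ((l.map fun x => x + 1).prod) ^ 2 := by
  induction l with
  | nil => simp
  | cons a l ih =>
    rw [List.map_cons, List.sum_cons, List.map_cons, List.prod_cons, pow_add, mul_pow]
    exact Nat.mul_le_mul (two_pow_log' (hl a (by simp)))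
      (ih fun x hx => hl x (List.mem_cons_of_mem _ hx))

theorem costR_bound (l : List ℕ) (R P : ℕ) (hR : 1 ≤ R)
    (hP : ((his l R).map fun x => x + 1).prod ≤ P) :
    2 ^ costR l R ≤ (R + 1) ^ (2 * R ^ 2) * P ^ 2 := by
  rw [costR, pow_add]
  refine Nat.mul_le_mul ?_ ((prod_bound _ ?_).trans (Nat.pow_le_pow_left hP 2))
  · calc 2 ^ (R * R * (Nat.log 2 (R + 1) + 1)) = (2 ^ (Nat.log 2 (R + 1) + 1)) ^ (R * R) := by
          rw [← pow_mul, mul_comm]
      _ ≤ ((R + 1) ^ 2) ^ (R * R) := Nat.pow_le_pow_left (two_pow_log' hR) _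
      _ = (R + 1) ^ (2 * R ^ 2) := by rw [← pow_mul, pow_two R]
  · intro x hx
    have h := (List.mem_filter.1 hx).2
    have h' : R < x := by simpa using h
    omega

end Num3Aux

open Num3Aux in
theorem stNum3 (h1 : StBest) : StNum3 := by
  intro c
  refine ⟨2 * c, fun w R P hR _ hs hP => ?_⟩
  have hok : okR (rw' w) R = true := by
    have h : (low (rw' w) R).sum ≤ R * (R * R) := by
      refine hs.trans (le_of_eq ?_)
      ring
    simp only [okR, Bool.and_eq_true, decide_eq_true_eq]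
    exact ⟨hR, h⟩
  have hc : 2 ^ cost3 w ≤ (R + 1) ^ (2 * R ^ 2) * P ^ 2 := by
    refine le_trans (Nat.pow_le_pow_right (by norm_num) ?_) (costR_bound (rw' w) R P hR hP)
    exact (h1 (rw' w)).2.2 R hok
  have hw : (w.length + 2) ^ c ≤ (w.length + 2) ^ (2 * c) :=
    Nat.pow_le_pow_right (by omega) (by omega)
  rw [tb3]
  refine Nat.mul_le_mul hw (le_min ?_ ?_)
  · refine Nat.pow_le_pow_right (by norm_num) ?_
    rw [← Pool.Agent.Lib.MP_64d474_lc.ST2.NumAux.nr_eq]
    exact Nat.mul_le_mul (by omega) (min_le_left _ _)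
  · calc 2 ^ (c * min (nr w) (cost3 w)) ≤ 2 ^ (c * cost3 w) :=
          Nat.pow_le_pow_right (by norm_num) (Nat.mul_le_mul_left _ (min_le_right _ _))
      _ = (2 ^ cost3 w) ^ c := by rw [← pow_mul, mul_comm]
      _ ≤ ((R + 1) ^ (2 * R ^ 2) * P ^ 2) ^ c := Nat.pow_le_pow_left hc _
      _ = P ^ (2 * c) * (R + 1) ^ (2 * c * R ^ 2) := by
          rw [mul_pow, ← pow_mul, ← pow_mul, mul_comm]
          congr 2
          ring

end Pool.Agent.Lib.MP_64d474_lc.ST3
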