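import Pool.Agent.Lib.MP_64d474_lc.ST3.Stmts3

/-!
# The test with the augmenting paths is correct
-/

set_option autoImplicit false

open Finset Pool.Agent.Lib.PT Pool.Agent.Lib.MP_64d474_lc.ST
open Pool.Agent.Lib.MP_64d474_lc.ST2 (rkmod)

namespace Pool.Agent.Lib.MP_64d474_lc.ST3

namespace One

/-- what holds after `k` augmentations -/
theorem iter (h1 : StStep) (p : ℕ) [Fact p.Prime] (n : ℕ) (Bs : List (List (List ℕ)))
    (M : List (List ℕ)) (hM : Sq n M) (hB : ∀ B ∈ Bs, Sq n B ∧ (toM p n B).rank ≤ 1)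
    (hp : Bs.length + 3 < p) (k : ℕ) :
    Sq n ((augS p n Bs)^[k] M) ∧
    (∃ c : Fin Bs.length → ZMod p, toM p n ((augS p n Bs)^[k] M) =
      toM p n M + ∑ j, c j • toM p n (Bs.get j)) ∧
    ((∃ c : Fin Bs.length → ZMod p, (toM p n M + ∑ j, c j • toM p n (Bs.get j)).rank = n) →
      min k n ≤ (toM p n ((augS p n Bs)^[k] M)).rank) := by
  induction k with
  | zero =>
    refine ⟨by simpa using hM, ⟨fun _ => 0, by simp⟩, fun _ => by simp⟩
  | succ k ih =>
    obtain ⟨hS, ⟨c, hc⟩, hr⟩ := ih
    rw [Function.iterate_succ_apply']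
    obtain ⟨s1, ⟨d, hd⟩, s3, s4⟩ := h1 p n Bs ((augS p n Bs)^[k] M) hS hB hp
    refine ⟨s1, ⟨fun j => c j + d j, ?_⟩, ?_⟩
    · rw [hd, hc, add_assoc, ← Finset.sum_add_distrib]
      congr 1
      refine Finset.sum_congr rfl fun j _ => ?_
      rw [add_smul]
    · rintro ⟨e, he⟩
      have hk := hr ⟨e, he⟩
      by_cases hlt : (toM p n ((augS p n Bs)^[k] M)).rank < n
      · have h5 := s4 ⟨fun j => e j - c j, by
          have h6 : toM p n ((augS p n Bs)^[k] M) +
              ∑ j, (e j - c j) • toM p n (Bs.get j) =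
              toM p n M + ∑ j, e j • toM p n (Bs.get j) := by
            rw [hc, add_assoc, ← Finset.sum_add_distrib]
            congr 1
            refine Finset.sum_congr rfl fun j _ => ?_
            rw [← add_smul]
            congr 1
            ring
          rw [h6, he]
          exact hlt⟩
        omega
      · omega

theorem rank_eq_iff (p : ℕ) [Fact p.Prime] (n : ℕ) (N : Matrix (Fin n) (Fin n) (ZMod p)) :
    N.rank = n ↔ N.det ≠ 0 := by
  constructor
  · intro h hd
    have h1 : ¬ IsUnit N := by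
      rw [Matrix.isUnit_iff_isUnit_det, hd]
      exact not_isUnit_zero
    apply h1
    have h2 : Module.finrank (ZMod p) (LinearMap.range N.mulVecLin) = n := h
    have h3 : LinearMap.range N.mulVecLin = ⊤ := by
      apply Submodule.eq_top_of_finrank_eq
      rw [h2]
      simp
    have h4 : Function.Surjective N.mulVec := by
      intro y
      have h5 : y ∈ LinearMap.range N.mulVecLin := by rw [h3]; trivial
      obtain ⟨x, hx⟩ := h5
      exact ⟨x, hx⟩
    exact Matrix.mulVec_surjective_iff_isUnit.1 h4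
  · intro h
    have h1 : IsUnit N := (Matrix.isUnit_iff_isUnit_det N).2 (isUnit_iff_ne_zero.2 h)
    have h2 := Matrix.rank_of_isUnit N h1
    simpa using h2

end One

theorem stOne (h1 : StStep) (h2 : StBlk) : StOne := by
  intro p _ n Bs M hM hB hp
  obtain ⟨s1, ⟨c, hc⟩, s3⟩ := One.iter h1 p n Bs M hM hB hp n
  have hrk : rkmod p n ((augS p n Bs)^[n] M) = (toM p n ((augS p n Bs)^[n] M)).rank :=
    (h2 p n _ _ _ s1 s1 s1).1
  unfold oneOK
  rw [decide_eq_true_iff, hrk]
  constructor
  · intro h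
    refine ⟨c, ?_⟩
    rw [← hc]
    exact (One.rank_eq_iff p n _).1 h
  · rintro ⟨e, he⟩
    have h4 := s3 ⟨e, (One.rank_eq_iff p n _).2 he⟩
    have h5 : (toM p n ((augS p n Bs)^[n] M)).rank ≤ n := by
      simpa using Matrix.rank_le_width (toM p n ((augS p n Bs)^[n] M))
    rw [min_self] at h4
    omega

end Pool.Agent.Lib.MP_64d474_lc.ST3
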