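import Pool.Agent.Lib.MP_64d474_lc.ST3.Stmts3
import Pool.Agent.Lib.MP_64d474_lc.ST2.Mult
import Pool.Agent.Lib.MP_64d474_lc.ST2.Rl

/-!
# The coefficient matrices of the variables that are not wild have rank at most one
-/

set_option autoImplicit false

open Matrix Module Pool.Agent.Lib.MP_64d474_lc.ST
open Pool.Agent.Lib.MP_64d474_lc.ST2 (cmat wl wr)
open Pool.Agent.Lib.MP_64d474_lc.ST2.MultAux (cz cz_map exists_minor det_cast le_rank
  cast_cmat length_cmat length_row)
open Pool.Agent.Lib.MP_64d474_lc.ST2.RlAux (idx_bits)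

namespace Pool.Agent.Lib.MP_64d474_lc.ST3

namespace OnesAux

theorem raw_length (A : SMat) : (raw A).length = A.length := by simp [raw]

theorem toM_cmat (A : SMat) (hA : ∀ r ∈ A, r.length = A.length) (p : ℕ) (hp : 0 < p) (k : ℕ) :
    toM p A.length (cmat p k.bits (raw A)) = (cz A k).map (Int.cast : ℤ → ZMod p) := by
  ext i j
  exact cast_cmat A hA p hp k i j

theorem rank_cmat_le (A : SMat) (hA : ∀ r ∈ A, r.length = A.length) (p : ℕ) (hp : p.Prime)
    (k : ℕ) : (toM p A.length (cmat p k.bits (raw A))).rank ≤ (ST2.coefMatrix A k).rank := by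
  classical
  have : Fact p.Prime := ⟨hp⟩
  rw [toM_cmat A hA p hp.pos k, ← cz_map]
  obtain ⟨a, b, hab⟩ := exists_minor ((cz A k).map (Int.cast : ℤ → ZMod p))
  rw [det_cast] at hab
  refine le_rank _ a b ?_
  rw [det_cast]
  intro h0
  rw [Int.cast_eq_zero] at h0
  rw [h0, Int.cast_zero] at hab
  exact hab rfl

theorem sq_zerM (n : ℕ) : Sq n (zerM n) := by
  refine ⟨by simp [zerM], fun r hr => ?_⟩
  rw [zerM] at hr
  rw [List.eq_of_mem_replicate hr, List.length_replicate]

theorem toM_zerM (p n : ℕ) : toM p n (zerM n) = 0 := by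
  ext i j
  show ((((zerM n).getD i []).getD j 0 : ℕ) : ZMod p) = 0
  have h1 : ((zerM n).getD (i : ℕ) []).getD (j : ℕ) 0 = 0 := by
    simp [zerM, List.getD_eq_getElem?_getD]
  rw [h1, Nat.cast_zero]

end OnesAux

open OnesAux

/-- (Ones) -/
theorem stOnes : StOnes := by
  intro A p hp hA
  have hpp : p.Prime := hp.out
  have hv : vars (raw A) = (varsN A).map Nat.bits := (stSizes A).2.1
  refine ⟨fun R x => ?_, ?_, ?_⟩
  · refine ⟨?_, fun r hr => ?_⟩
    · rw [matW, List.length_map, raw_length]
    · rw [matW, List.mem_map] at hr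
      obtain ⟨s, hs, rfl⟩ := hr
      rw [raw, List.mem_map] at hs
      obtain ⟨t, ht, rfl⟩ := hs
      rw [List.length_map, List.length_map]
      exact hA t ht
  · rw [ones, List.length_map, List.length_range, hv, List.length_map]
  · intro B hB
    rw [ones, List.mem_map] at hB
    obtain ⟨j, hj, rfl⟩ := hB
    rw [List.mem_range, hv, List.length_map] at hj
    have e1 : (vars (raw A)).getD j [] = ((varsN A).get ⟨j, hj⟩).bits := by
      rw [hv, List.getD_eq_getElem _ _ (by rw [List.length_map]; exact hj), List.getElem_map]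
      rfl
    by_cases h : (vars (raw A)).idxOf ((vars (raw A)).getD j []) = j ∧ (wl A).getD j 0 < 2
    · rw [if_pos h, e1]
      obtain ⟨h1, h2⟩ := h
      rw [e1, hv, idx_bits] at h1
      have h3 : (wl A).getD j 0 = wr A ⟨j, hj⟩ := by
        rw [wl, List.getD_eq_getElem _ _ (by rw [List.length_ofFn]; exact hj),
          List.getElem_ofFn]
      rw [h3, wr, if_pos h1] at h2
      refine ⟨⟨length_cmat p _ A, length_row p _ A hA⟩, ?_⟩
      refine (rank_cmat_le A hA p hpp _).trans ?_
      by_contra h4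
      rw [if_pos (by omega)] at h2
      omega
    · rw [if_neg h, raw_length]
      refine ⟨sq_zerM _, ?_⟩
      rw [toM_zerM, Matrix.rank_zero]
      exact Nat.zero_le _

end Pool.Agent.Lib.MP_64d474_lc.ST3
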