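import Pool.Agent.Lib.MP_64d474_lc.ST3.Stmts3

/-!
# The augmenting path is computable in polynomial time
-/

set_option autoImplicit false

open Pool.Agent.Lib.PT Pool.Agent.Lib.MP_64d474_lc.ST
open Pool.Agent.Lib.MP_64d474_lc.ST2 (rkmod StPTRk)

namespace Pool.Agent.Lib.MP_64d474_lc.ST3

namespace PTAugPM

/-- the input -/
abbrev Q : Type := ℕ × ℕ × List (List (List ℕ)) × List (List ℕ)

theorem ptime_rk {α : Type} [Enc α] (h1 : StPTRk) {f g : α → ℕ} {M : α → List (List ℕ)}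
    (hf : PTime f) (hg : PTime g) (hM : PTime M) :
    PTime fun a => rkmod (f a + 1) (g a) (M a) :=
  h1.comp (g := fun a => (f a, g a, M a)) (PTime.pair hf (PTime.pair hg hM))

theorem ptime_lt {α : Type} [Enc α] {f g : α → ℕ} (hf : PTime f) (hg : PTime g) :
    PTime fun a => decide (f a < g a) := by fun_prop

theorem ptime_catH {α : Type} [Enc α] (hz : StZip) {M N : α → List (List ℕ)}
    (hM : PTime M) (hN : PTime N) : PTime fun a => catH (M a) (N a) :=
  hz α (List ℕ) (List ℕ) (List ℕ) M N (fun _ r s => r ++ s) hM hN (by fun_prop)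

theorem ptime_zerM {α : Type} [Enc α] {n : α → ℕ} (hn : PTime n) :
    PTime fun a => zerM (n a) := by
  unfold zerM
  fun_prop

theorem ptime_src (h1 : StPTRk) : PTime fun t : Q × List (List ℕ) =>
    srcB (t.1.1 + 1) t.1.2.1 t.1.2.2.2 t.2 := by
  have h := ptime_lt (ptime_rk h1 (f := fun t : Q × List (List ℕ) => t.1.1)
    (g := fun t => t.1.2.1) (M := fun t => t.1.2.2.2) (by fun_prop) (by fun_prop) (by fun_prop))
    (ptime_rk h1 (f := fun t : Q × List (List ℕ) => t.1.1)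
    (g := fun t => t.1.2.1) (M := fun t => t.1.2.2.2 ++ t.2) (by fun_prop) (by fun_prop)
    (by fun_prop))
  exact h

theorem ptime_sink (hz : StZip) (h1 : StPTRk) : PTime fun t : Q × List (List ℕ) =>
    sinkB (t.1.1 + 1) t.1.2.1 t.1.2.2.2 t.2 := by
  have h := ptime_lt (ptime_rk h1 (f := fun t : Q × List (List ℕ) => t.1.1)
    (g := fun t => t.1.2.1) (M := fun t => t.1.2.2.2) (by fun_prop) (by fun_prop) (by fun_prop))
    (ptime_rk h1 (f := fun t : Q × List (List ℕ) => t.1.1)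
    (g := fun t => t.1.2.1 + t.1.2.1) (M := fun t => catH t.1.2.2.2 t.2) (by fun_prop)
    (by fun_prop) (ptime_catH hz (by fun_prop) (by fun_prop)))
  exact h

theorem ptime_edge (hz : StZip) (h1 : StPTRk) : PTime fun t : (Q × List (List ℕ)) × List (List ℕ) =>
    edgeB (t.1.1.1 + 1) t.1.1.2.1 t.1.1.2.2.2 t.1.2 t.2 := by
  have h := ptime_lt (ptime_rk h1 (f := fun t : (Q × List (List ℕ)) × List (List ℕ) => t.1.1.1)
    (g := fun t => t.1.1.2.1) (M := fun t => t.1.1.2.2.2) (by fun_prop) (by fun_prop)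
    (by fun_prop))
    (ptime_rk h1 (f := fun t : (Q × List (List ℕ)) × List (List ℕ) => t.1.1.1)
    (g := fun t => t.1.1.2.1 + t.1.1.2.1)
    (M := fun t => catH t.1.1.2.2.2 t.1.2 ++ catH t.2 (zerM t.1.1.2.1)) (by fun_prop)
    (by fun_prop) (PTime.append (ptime_catH hz (by fun_prop) (by fun_prop))
      (ptime_catH hz (by fun_prop) (ptime_zerM (by fun_prop)))))
  exact h

end PTAugPM

open PTAugPM

/-- Module PTAugP. -/
theorem stPTAugP (hz : StZip) (h1 : StPTRk) (h2 : StPTBfs) : StPTAugP := by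
  have ha : PTime fun q : Q => q.2.2.1.map fun B => srcB (q.1 + 1) q.2.1 q.2.2.2 B :=
    PTime.map (l := fun q : Q => q.2.2.1) (f := fun q B => srcB (q.1 + 1) q.2.1 q.2.2.2 B)
      (by fun_prop) (ptime_src h1)
  have hb : PTime fun q : Q => q.2.2.1.map fun B => sinkB (q.1 + 1) q.2.1 q.2.2.2 B :=
    PTime.map (l := fun q : Q => q.2.2.1) (f := fun q B => sinkB (q.1 + 1) q.2.1 q.2.2.2 B)
      (by fun_prop) (ptime_sink hz h1)
  have hc0 : PTime fun t : Q × List (List ℕ) => t.1.2.2.1.map fun B' =>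
      edgeB (t.1.1 + 1) t.1.2.1 t.1.2.2.2 t.2 B' :=
    PTime.map (l := fun t : Q × List (List ℕ) => t.1.2.2.1)
      (f := fun t B' => edgeB (t.1.1 + 1) t.1.2.1 t.1.2.2.2 t.2 B')
      (by fun_prop) (ptime_edge hz h1)
  have hc : PTime fun q : Q => q.2.2.1.map fun B => q.2.2.1.map fun B' =>
      edgeB (q.1 + 1) q.2.1 q.2.2.2 B B' :=
    PTime.map (l := fun q : Q => q.2.2.1)
      (f := fun q B => q.2.2.1.map fun B' => edgeB (q.1 + 1) q.2.1 q.2.2.2 B B')
      (by fun_prop) hc0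
  have hl : PTime fun q : Q => q.2.2.1.length := by fun_prop
  exact h2.comp (PTime.pair hl (PTime.pair ha (PTime.pair hb hc)))

end Pool.Agent.Lib.MP_64d474_lc.ST3
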