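import Pool.Agent.Lib.MP_64d474_lc.ST3.Stmts3

/-!
# The best side is computable in polynomial time
-/

set_option autoImplicit false

open Pool.Agent.Lib.PT Pool.Agent.Lib.MP_64d474_lc.ST

namespace Pool.Agent.Lib.MP_64d474_lc.ST3

namespace PTBestAux

variable {α : Type} [Enc α]

theorem ptime_low {l : α → List ℕ} {R : α → ℕ} (hl : PTime l) (hR : PTime R) :
    PTime fun a => low (l a) (R a) := by
  unfold low
  have h0 : PTime fun q : (List ℕ × ℕ) × ℕ => if q.2 ≤ q.1.2 then q.2 else 0 :=
    PTime.ite (p := fun q : (List ℕ × ℕ) × ℕ => q.2 ≤ q.1.2) (by fun_prop) (by fun_prop)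
      (by fun_prop)
  have h : PTime fun q : List ℕ × ℕ => q.1.map fun x => if x ≤ q.2 then x else 0 :=
    PTime.map (l := fun q : List ℕ × ℕ => q.1) (f := fun q x => if x ≤ q.2 then x else 0)
      (by fun_prop) h0
  exact h.comp (g := fun a => (l a, R a)) (hl.pair hR)

theorem ptime_his {l : α → List ℕ} {R : α → ℕ} (hl : PTime l) (hR : PTime R) :
    PTime fun a => his (l a) (R a) := by
  unfold his
  have h : PTime fun q : List ℕ × ℕ => q.1.filter fun x => decide (q.2 < x) :=
    PTime.filter (l := fun q : List ℕ × ℕ => q.1) (f := fun q x => decide (q.2 < x))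
      (by fun_prop) (by fun_prop)
  exact h.comp (g := fun a => (l a, R a)) (hl.pair hR)

theorem ptime_costR {l : α → List ℕ} {R : α → ℕ} (hl : PTime l) (hR : PTime R) :
    PTime fun a => costR (l a) (R a) := by
  unfold costR
  have h1 : PTime fun a => (his (l a) (R a)).map fun x => Nat.log 2 (x + 1) + 1 :=
    PTime.map (l := fun a => his (l a) (R a)) (f := fun _ x => Nat.log 2 (x + 1) + 1)
      (ptime_his hl hR) (by fun_prop)
  have h2 : PTime fun a => ((his (l a) (R a)).map fun x => Nat.log 2 (x + 1) + 1).sum := h1.sum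
  fun_prop

theorem ptime_okR {l : α → List ℕ} {R : α → ℕ} (hl : PTime l) (hR : PTime R) :
    PTime fun a => okR (l a) (R a) := by
  unfold okR
  have h : PTime fun a => (low (l a) (R a)).sum := (ptime_low hl hR).sum
  fun_prop

theorem foldl_le (l : List ℕ) (B : ℕ) : ∀ (t : List ℕ) (s : ℕ), (∀ x ∈ t, x ≤ B) → s ≤ B →
    t.foldl (fun a R => if costR l R < costR l a then R else a) s ≤ B := by
  intro t
  induction t with
  | nil => intro s _ hs; simpa using hs
  | cons x t ih =>
    intro s ht hs
    rw [List.foldl_cons]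
    refine ih _ (fun y hy => ht y (List.mem_cons_of_mem _ hy)) ?_
    split_ifs
    · exact ht x List.mem_cons_self
    · exact hs

theorem ptime_best : PTime fun l : List ℕ => best l := by
  unfold best
  have h1 : PTime fun l : List ℕ => (List.range (l.sum + 2)).filter (okR l) := by
    have hs : PTime fun l : List ℕ => l.sum := PTime.sum (l := fun l : List ℕ => l) (by fun_prop)
    exact PTime.filter (l := fun l : List ℕ => List.range (l.sum + 2)) (f := fun l R => okR l R)
      (by fun_prop) (ptime_okR (l := fun q : List ℕ × ℕ => q.1) (R := fun q : List ℕ × ℕ => q.2)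
        (by fun_prop) (by fun_prop))
  have hs : PTime fun l : List ℕ => l.sum + 1 :=
    (PTime.sum (l := fun l : List ℕ => l) (by fun_prop)).add (PTime.const 1)
  have h2 : PTime fun p : List ℕ × ℕ × ℕ =>
      if costR p.1 p.2.2 < costR p.1 p.2.1 then p.2.2 else p.2.1 := by
    have a1 : PTime fun p : List ℕ × ℕ × ℕ => costR p.1 p.2.2 :=
      ptime_costR (by fun_prop) (by fun_prop)
    have a2 : PTime fun p : List ℕ × ℕ × ℕ => costR p.1 p.2.1 :=
      ptime_costR (by fun_prop) (by fun_prop)
    exact PTime.ite (p := fun p : List ℕ × ℕ × ℕ => costR p.1 p.2.2 < costR p.1 p.2.1)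
      (by fun_prop) (by fun_prop) (by fun_prop)
  refine PTime.foldl (l := fun l : List ℕ => (List.range (l.sum + 2)).filter (okR l))
    (s := fun l : List ℕ => l.sum + 1)
    (f := fun l a R => if costR l R < costR l a then R else a) h1 hs h2
    (B := fun l => sz (l.sum + 1)) hs.sz_le ?_
  intro l l₁ l₂ e
  rw [sz_nat, sz_nat]
  have := foldl_le l (l.sum + 1) l₁ (l.sum + 1) (fun x hx => ?_) le_rfl
  · omega
  · have hx' : x ∈ (List.range (l.sum + 2)).filter (okR l) := by
      rw [e]; exact List.mem_append_left _ hx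
    have := List.mem_range.1 (List.mem_filter.1 hx').1
    omega

end PTBestAux

open PTBestAux in
theorem stPTBest : StPTBest :=
  ⟨ptime_best, ptime_costR (by fun_prop) (by fun_prop), ptime_low (by fun_prop) (by fun_prop),
    ptime_his (by fun_prop) (by fun_prop)⟩

end Pool.Agent.Lib.MP_64d474_lc.ST3
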