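import Pool.Agent.Lib.MP_64d474_lc.ST3.Stmts3

/-!
# Shortest paths are computable in polynomial time
-/

set_option autoImplicit false

open Pool.Agent.Lib.PT

namespace Pool.Agent.Lib.MP_64d474_lc.ST3

namespace PTBfsAux

/-- The type of the input. -/
abbrev Inp : Type := ℕ × List Bool × List Bool × List (List Bool)

/-- The type of the states of the search. -/
abbrev Sta : Type := List (List ℕ) × List (List ℕ)

variable {α : Type} [Enc α]

theorem ptime_ed {e : α → List (List Bool)} {k l : α → ℕ} (he : PTime e) (hk : PTime k)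
    (hl : PTime l) : PTime fun a => ed (e a) (k a) (l a) := by
  unfold ed
  fun_prop

theorem ptime_anyA : PTime fun r : (Inp × Sta) × ℕ =>
    r.1.2.1.any fun q => decide (q.headD r.1.1.1 = r.2) :=
  PTime.any (l := fun r : (Inp × Sta) × ℕ => r.1.2.1)
    (f := fun r q => decide (q.headD r.1.1.1 = r.2)) (by fun_prop) (by fun_prop)

theorem ptime_edF : PTime fun t : ((Inp × Sta) × ℕ) × List ℕ =>
    ed t.1.1.1.2.2.2 (t.2.headD t.1.1.1.1) t.1.2 :=
  ptime_ed (by fun_prop) (by fun_prop) (by fun_prop)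

theorem ptime_anyF : PTime fun r : (Inp × Sta) × ℕ =>
    r.1.2.2.any fun q => ed r.1.1.2.2.2 (q.headD r.1.1.1) r.2 :=
  PTime.any (l := fun r : (Inp × Sta) × ℕ => r.1.2.2)
    (f := fun r q => ed r.1.1.2.2.2 (q.headD r.1.1.1) r.2) (by fun_prop) ptime_edF

theorem ptime_filF : PTime fun r : (Inp × Sta) × ℕ =>
    r.1.2.2.filter fun q => ed r.1.1.2.2.2 (q.headD r.1.1.1) r.2 :=
  PTime.filter (l := fun r : (Inp × Sta) × ℕ => r.1.2.2)
    (f := fun r q => ed r.1.1.2.2.2 (q.headD r.1.1.1) r.2) (by fun_prop) ptime_edF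

theorem ptime_cand : PTime fun p : Inp × Sta => (List.range p.1.1).filter fun l =>
    !(p.2.1.any fun q => decide (q.headD p.1.1 = l)) &&
      p.2.2.any fun q => ed p.1.2.2.2 (q.headD p.1.1) l :=
  PTime.filter (l := fun p : Inp × Sta => List.range p.1.1)
    (f := fun p l => !(p.2.1.any fun q => decide (q.headD p.1.1 = l)) &&
      p.2.2.any fun q => ed p.1.2.2.2 (q.headD p.1.1) l) (by fun_prop)
    (ptime_anyA.not.and ptime_anyF)

theorem ptime_new : PTime fun r : (Inp × Sta) × ℕ =>
    r.2 :: (r.1.2.2.filter fun q => ed r.1.1.2.2.2 (q.headD r.1.1.1) r.2).headD [] :=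
  PTime.cons (by fun_prop) (ptime_filF.headD (PTime.const []))

/-- The heads of the new paths. -/
def candF (p : Inp × Sta) : List ℕ := (List.range p.1.1).filter fun l =>
  !(p.2.1.any fun q => decide (q.headD p.1.1 = l)) &&
    p.2.2.any fun q => ed p.1.2.2.2 (q.headD p.1.1) l

/-- A new path. -/
def newF (r : (Inp × Sta) × ℕ) : List ℕ :=
  r.2 :: (r.1.2.2.filter fun q => ed r.1.1.2.2.2 (q.headD r.1.1.1) r.2).headD []

theorem ptime_candF : PTime candF := ptime_cand

theorem ptime_newF : PTime newF := ptime_new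

theorem ptime_newM : PTime fun p : Inp × Sta => (candF p).map fun l => newF (p, l) :=
  PTime.map (f := fun (p : Inp × Sta) (l : ℕ) => newF (p, l)) ptime_candF ptime_newF

theorem newM_eq (p : Inp × Sta) :
    ((candF p).map fun l => newF (p, l)) = newP p.1.1 p.1.2.2.2 p.2.1 p.2.2 := rfl

theorem ptime_newP : PTime fun p : Inp × Sta => newP p.1.1 p.1.2.2.2 p.2.1 p.2.2 :=
  ptime_newM.of_eq newM_eq

theorem ptime_bstep : PTime fun p : Inp × Sta => bstep p.1.1 p.1.2.2.2 p.2 :=
  PTime.pair (PTime.append (by fun_prop) ptime_newP) ptime_newP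

theorem ptime_srcP : PTime fun q : Inp => srcP q.1 q.2.1 := by
  have h1 : PTime fun q : Inp => (List.range q.1).filter fun k => q.2.1.getD k false :=
    PTime.filter (l := fun q : Inp => List.range q.1) (f := fun q k => q.2.1.getD k false)
      (by fun_prop) (by fun_prop)
  exact PTime.map (f := fun (_ : Inp) k => [k]) h1 (by fun_prop)

/-- The invariant of the search. -/
structure Inv (m i : ℕ) (s : Sta) : Prop where
  all : s.1.length ≤ (i + 1) * m
  fr : s.2.length ≤ m
  szAll : ∀ x ∈ s.1, sz x ≤ (i + 1) * (2 * m + 2) + 1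
  szFr : ∀ x ∈ s.2, sz x ≤ (i + 1) * (2 * m + 2) + 1

theorem length_newP (m : ℕ) (E : List (List Bool)) (a f : List (List ℕ)) :
    (newP m E a f).length ≤ m := by
  unfold newP
  rw [List.length_map]
  exact (List.length_filter_le _ _).trans List.length_range.le

theorem sz_newP {m B : ℕ} (E : List (List Bool)) (a : List (List ℕ)) {f : List (List ℕ)}
    (hf : ∀ x ∈ f, sz x ≤ B) (hB : 1 ≤ B) :
    ∀ x ∈ newP m E a f, sz x ≤ (2 * m + 2) + B := by
  intro x hx
  unfold newP at hx
  obtain ⟨l, hl, rfl⟩ := List.mem_map.1 hx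
  have hlm : l < m := List.mem_range.1 (List.mem_filter.1 hl).1
  have h1 : ∀ L : List (List ℕ), (∀ x ∈ L, sz x ≤ B) → sz (L.headD []) ≤ B := by
    intro L hL
    cases L with
    | nil => exact hB
    | cons y L => exact hL y List.mem_cons_self
  have h2 := h1 (f.filter fun q => ed E (q.headD m) l) fun y hy => hf y (List.mem_filter.1 hy).1
  rw [sz_cons, sz_nat]
  omega

theorem inv_src (m : ℕ) (src : List Bool) : Inv m 0 (srcP m src, srcP m src) := by
  have h1 : (srcP m src).length ≤ m := by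
    unfold srcP
    rw [List.length_map]
    exact (List.length_filter_le _ _).trans List.length_range.le
  have h2 : ∀ x ∈ srcP m src, sz x ≤ (0 + 1) * (2 * m + 2) + 1 := by
    intro x hx
    unfold srcP at hx
    obtain ⟨l, hl, rfl⟩ := List.mem_map.1 hx
    have hlm : l < m := List.mem_range.1 (List.mem_filter.1 hl).1
    rw [sz_cons, sz_nat, sz_nil]
    omega
  refine ⟨?_, h1, h2, h2⟩
  change (srcP m src).length ≤ (0 + 1) * m
  omega

theorem inv_step {m i : ℕ} {s : Sta} (E : List (List Bool)) (h : Inv m i s) :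
    Inv m (i + 1) (bstep m E s) := by
  have h1 := length_newP m E s.1 s.2
  have h2 := sz_newP (m := m) E s.1 h.szFr (by omega)
  have e : (i + 1 + 1) * (2 * m + 2) + 1 = (2 * m + 2) + ((i + 1) * (2 * m + 2) + 1) := by ring
  refine ⟨?_, h1, ?_, ?_⟩
  · change (s.1 ++ newP m E s.1 s.2).length ≤ _
    rw [List.length_append]
    have h3 := h.all
    have e' : (i + 1 + 1) * m = (i + 1) * m + m := by ring
    omega
  · intro x hx
    change x ∈ s.1 ++ newP m E s.1 s.2 at hx
    rcases List.mem_append.1 hx with hx | hx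
    · have h3 := h.szAll x hx
      omega
    · rw [e]
      exact h2 x hx
  · intro x hx
    change x ∈ newP m E s.1 s.2 at hx
    rw [e]
    exact h2 x hx

theorem inv_iter (m : ℕ) (src : List Bool) (E : List (List Bool)) (i : ℕ) :
    Inv m i ((bstep m E)^[i] (srcP m src, srcP m src)) := by
  induction i with
  | zero => exact inv_src m src
  | succ i ih =>
    rw [Function.iterate_succ_apply']
    exact inv_step E ih

theorem sz_inv {m i S : ℕ} {s : Sta} (h : Inv m i s) (hi : i ≤ m) (hS : m + 1 ≤ S) :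
    sz s ≤ 2 * (S * S * (S * (2 * S) + 2) + 1) + 1 := by
  have hb : (i + 1) * (2 * m + 2) ≤ S * (2 * S) := Nat.mul_le_mul (by omega) (by omega)
  have hl : (i + 1) * m ≤ S * S := Nat.mul_le_mul (by omega) (by omega)
  have hl' : m ≤ S * S := (show m ≤ S by omega).trans (Nat.le_mul_self S)
  have key : ∀ L : List (List ℕ), L.length ≤ S * S →
      (∀ x ∈ L, sz x ≤ (i + 1) * (2 * m + 2) + 1) → sz L ≤ S * S * (S * (2 * S) + 2) + 1 := by
    intro L h1 h2
    have h3 := sz_le_of_forall h2
    have h4 : L.length * ((i + 1) * (2 * m + 2) + 1 + 1) ≤ S * S * (S * (2 * S) + 2) :=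
      Nat.mul_le_mul h1 (by omega)
    omega
  have h1 := key s.1 (h.all.trans hl) h.szAll
  have h2 := key s.2 (h.fr.trans hl') h.szFr
  obtain ⟨a, f⟩ := s
  rw [sz_mk]
  change sz a ≤ _ at h1
  change sz f ≤ _ at h2
  omega

end PTBfsAux

open PTBfsAux

/-- Module PTBfs. -/
theorem stPTBfs : StPTBfs := by
  have hit : PTime fun q : Inp => (bstep q.1 q.2.2.2)^[q.1] (srcP q.1 q.2.1, srcP q.1 q.2.1) := by
    refine PTime.iterate (n := fun q : Inp => q.1)
      (s := fun q => (srcP q.1 q.2.1, srcP q.1 q.2.1)) (f := fun q s => bstep q.1 q.2.2.2 s)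
      (B := fun q => 2 * (sz q * sz q * (sz q * (2 * sz q) + 2) + 1) + 1) (by fun_prop)
      (PTime.pair ptime_srcP ptime_srcP) ptime_bstep ?_ ?_
    · exact ((PB.const 2).mul (((PB.sz.mul PB.sz).mul ((PB.sz.mul
        ((PB.const 2).mul PB.sz)).add (PB.const 2))).add (PB.const 1))).add (PB.const 1)
    · intro q i hi
      refine sz_inv (inv_iter q.1 q.2.1 q.2.2.2 i) hi ?_
      obtain ⟨m, src, sink, E⟩ := q
      rw [sz_mk, sz_nat]
      change m + 1 ≤ _
      omega
  have h1 : PTime fun q : Inp => (allP q.1 q.2.1 q.2.2.2).filter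
      fun r => q.2.2.1.getD (r.headD q.1) false :=
    PTime.filter (l := fun q : Inp => allP q.1 q.2.1 q.2.2.2)
      (f := fun q r => q.2.2.1.getD (r.headD q.1) false) hit.fst' (by fun_prop)
  exact h1.headD (PTime.const [])

end Pool.Agent.Lib.MP_64d474_lc.ST3
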