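import Pool.Agent.Lib.MP_64d474_lc.ST3.Stmts3
import Pool.Agent.Lib.MP_64d474_lc.ST2.PTDec2

/-!
# The decision of the third machine is computable in polynomial time from the list of digits
-/

set_option autoImplicit false

open Pool.Agent.Lib.PT Pool.Agent.Lib.MP_64d474_lc.ST
open Pool.Agent.Lib.MP_64d474_lc.ST2 (rw' nr goodF StPTGoodF)

namespace Pool.Agent.Lib.MP_64d474_lc.ST3

namespace PTDec3Aux

theorem ptime_kb3 : PTime fun L : ℕ => kb3 L := by
  unfold kb3 kbound
  fun_prop

theorem ptime_pb3 : PTime fun L : ℕ => pb3 L := by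
  have h : PTime fun L : ℕ => kb3 L := ptime_kb3
  unfold pb3
  exact (PTime.const 1024).mul ((h.add (PTime.const 1)).mul (h.add (PTime.const 1)))

end PTDec3Aux

open PTDec3Aux in
theorem stPTDec3 (h1 : StPTWell) (h2 : StPTParse) (h3 : StPTGoodW) (h4 : StPTGoodF)
    (h5 : StPTPar3) : StPTDec3 := by
  obtain ⟨p1, p2, p3, -⟩ := h5
  have a1 : PTime fun q : List Letter × List (List ℕ) => wellformed q.1 :=
    h1.comp (g := fun q : List Letter × List (List ℕ) => q.1) (by fun_prop)
  have a2 : PTime fun q : List Letter × List (List ℕ) => useF3 q.1 :=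
    p3.comp (g := fun q : List Letter × List (List ℕ) => q.1) (by fun_prop)
  have a3 : PTime fun q : List Letter × List (List ℕ) => parse q.1 :=
    h2.comp (g := fun q : List Letter × List (List ℕ) => q.1) (by fun_prop)
  have a4 : PTime fun q : List Letter × List (List ℕ) => pbound q.1.length :=
    ST2.PTDec2Aux.ptime_pbound.comp (g := fun q : List Letter × List (List ℕ) => q.1.length)
      (by fun_prop)
  have a5 : PTime fun q : List Letter × List (List ℕ) =>
      goodF (parse q.1) (pbound q.1.length) q.2 :=
    h4.comp (g := fun q : List Letter × List (List ℕ) =>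
      (parse q.1, pbound q.1.length, q.2)) (by fun_prop)
  -- the test for one list of digits
  have b1 : PTime fun q : (List Letter × List (List ℕ)) × List ℕ => parse q.1.1 :=
    h2.comp (g := fun q : (List Letter × List (List ℕ)) × List ℕ => q.1.1) (by fun_prop)
  have b2 : PTime fun q : (List Letter × List (List ℕ)) × List ℕ => pb3 q.1.1.length :=
    ptime_pb3.comp (g := fun q : (List Letter × List (List ℕ)) × List ℕ => q.1.1.length)
      (by fun_prop)
  have b3 : PTime fun q : (List Letter × List (List ℕ)) × List ℕ => rw' q.1.1 :=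
    p1.comp (g := fun q : (List Letter × List (List ℕ)) × List ℕ => q.1.1) (by fun_prop)
  have b4 : PTime fun q : (List Letter × List (List ℕ)) × List ℕ => rs3 q.1.1 :=
    p2.comp (g := fun q : (List Letter × List (List ℕ)) × List ℕ => q.1.1) (by fun_prop)
  have b5 : PTime fun q : (List Letter × List (List ℕ)) × List ℕ =>
      goodW (parse q.1.1) (pb3 q.1.1.length) (rw' q.1.1) (rs3 q.1.1) q.2 :=
    h3.comp (g := fun q : (List Letter × List (List ℕ)) × List ℕ =>
      (parse q.1.1, pb3 q.1.1.length, rw' q.1.1, rs3 q.1.1, q.2))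
      (by fun_prop)
  have b6 : PTime fun q : List Letter × List (List ℕ) =>
      q.2.any fun x => goodW (parse q.1) (pb3 q.1.length) (rw' q.1) (rs3 q.1) x :=
    PTime.any (l := fun q : List Letter × List (List ℕ) => q.2)
      (f := fun q x => goodW (parse q.1) (pb3 q.1.length) (rw' q.1) (rs3 q.1) x)
      (by fun_prop) b5
  unfold StPTDec3 dec3
  exact a1.and (PTime.cond a2 a5 b6)

end Pool.Agent.Lib.MP_64d474_lc.ST3
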