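import Pool.Agent.Lib.MP_64d474_lc.ST3.Stmts3
import Pool.Agent.Lib.MP_64d474_lc.ST.PTMat

/-!
# The test of the digits of the wild variables is computable in polynomial time
-/

set_option autoImplicit false

open Pool.Agent.Lib.PT Pool.Agent.Lib.MP_64d474_lc.ST

namespace Pool.Agent.Lib.MP_64d474_lc.ST3

theorem stPTGoodW (h1 : StPTOne) (h2 : StPTMatW) (h3 : StPTOnes) (h4 : StPTPrime) :
    StPTGoodW := by
  have h1' : PTime fun q : ℕ × ℕ × List (List (List ℕ)) × List (List ℕ) =>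
      oneOK (q.1 + 1) q.2.1 q.2.2.1 q.2.2.2 := h1
  have h2' : PTime fun q : ℕ × List ℕ × ℕ × List ℕ × RMat =>
      matW (q.1 + 1) q.2.1 q.2.2.1 q.2.2.2.1 q.2.2.2.2 := h2
  have h3' : PTime fun q : ℕ × List ℕ × RMat => ones (q.1 + 1) q.2.1 q.2.2 := h3
  have h4' : PTime fun p : ℕ => isPrime p := h4
  have e1 : PTime fun q : (RMat × ℕ × List ℕ × ℕ × List ℕ) × ℕ =>
      matW (q.2 + 1) q.1.2.2.1 q.1.2.2.2.1 q.1.2.2.2.2 q.1.1 :=
    h2'.comp (g := fun q : (RMat × ℕ × List ℕ × ℕ × List ℕ) × ℕ =>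
      (q.2, q.1.2.2.1, q.1.2.2.2.1, q.1.2.2.2.2, q.1.1)) (by fun_prop)
  have e2 : PTime fun q : (RMat × ℕ × List ℕ × ℕ × List ℕ) × ℕ =>
      ones (q.2 + 1) q.1.2.2.1 q.1.1 :=
    h3'.comp (g := fun q : (RMat × ℕ × List ℕ × ℕ × List ℕ) × ℕ =>
      (q.2, q.1.2.2.1, q.1.1)) (by fun_prop)
  have e3 : PTime fun q : (RMat × ℕ × List ℕ × ℕ × List ℕ) × ℕ =>
      oneOK (q.2 + 1) q.1.1.length (ones (q.2 + 1) q.1.2.2.1 q.1.1)
        (matW (q.2 + 1) q.1.2.2.1 q.1.2.2.2.1 q.1.2.2.2.2 q.1.1) :=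
    h1'.comp (g := fun q : (RMat × ℕ × List ℕ × ℕ × List ℕ) × ℕ =>
      (q.2, q.1.1.length, ones (q.2 + 1) q.1.2.2.1 q.1.1,
        matW (q.2 + 1) q.1.2.2.1 q.1.2.2.2.1 q.1.2.2.2.2 q.1.1)) (by fun_prop)
  have e4 : PTime fun q : (RMat × ℕ × List ℕ × ℕ × List ℕ) × ℕ => vars q.1.1 :=
    PTMatAux.ptime_vars.comp (g := fun q : (RMat × ℕ × List ℕ × ℕ × List ℕ) × ℕ => q.1.1)
      (by fun_prop)
  have e5 : PTime fun q : (RMat × ℕ × List ℕ × ℕ × List ℕ) × ℕ =>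
      decide ((vars q.1.1).length + 3 < q.2 + 1) := by fun_prop
  have e6 : PTime fun q : (RMat × ℕ × List ℕ × ℕ × List ℕ) × ℕ => isPrime (q.2 + 1) :=
    h4'.comp (g := fun q : (RMat × ℕ × List ℕ × ℕ × List ℕ) × ℕ => q.2 + 1) (by fun_prop)
  have e7 : PTime fun q : RMat × ℕ × List ℕ × ℕ × List ℕ => List.range q.2.1 := by fun_prop
  exact PTime.any (f := fun (q : RMat × ℕ × List ℕ × ℕ × List ℕ) (p : ℕ) =>
    isPrime (p + 1) && (decide ((vars q.1).length + 3 < p + 1) &&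
      oneOK (p + 1) q.1.length (ones (p + 1) q.2.2.1 q.1)
        (matW (p + 1) q.2.2.1 q.2.2.2.1 q.2.2.2.2 q.1))) e7 (e6.and (e5.and e3))

end Pool.Agent.Lib.MP_64d474_lc.ST3
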