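import Pool.Agent.Lib.MP_64d474_lc.ST.PTMat
import Pool.Agent.Lib.MP_64d474_lc.ST3.Stmts3

/-!
# The wild part of the matrix modulo a number is computable in polynomial time
-/

set_option autoImplicit false

open Pool.Agent.Lib.PT Pool.Agent.Lib.MP_64d474_lc.ST
open Pool.Agent.Lib.MP_64d474_lc.ST2 (rkmod cmat hitv hitm goodF rw' nr StPTHit)

namespace Pool.Agent.Lib.MP_64d474_lc.ST3

namespace PTMatWAux

/-- the parameters: the modulus, the ranks, the side, the digits -/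
abbrev P0 : Type := ℕ × List ℕ × ℕ × List ℕ

theorem ptime_dgs (hd : StDiv) (h2 : StPTBest) : PTime fun q : P0 × ℕ =>
    dgs q.1.2.1 q.1.2.2.1 := by
  have hl : PTime fun q : P0 × ℕ => low q.1.2.1 q.1.2.2.1 :=
    h2.2.2.1.comp (g := fun q : P0 × ℕ => (q.1.2.1, q.1.2.2.1)) (by fun_prop)
  have hR : PTime fun q : P0 × ℕ => q.1.2.2.1 := by fun_prop
  have h : PTime fun q : P0 × ℕ => (low q.1.2.1 q.1.2.2.1).sum / q.1.2.2.1 :=
    hd _ _ _ hl.sum hR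
  unfold dgs digs srcs blks
  fun_prop

theorem ptime_wm (hd : StDiv) (h1 : StPTHit) (h2 : StPTBest) : PTime fun q : P0 × ℕ =>
    wm (q.1.1 + 1) q.1.2.1 q.1.2.2.1 q.1.2.2.2 q.2 := by
  have h1' : PTime fun q : ℕ × List ℕ × ℕ × List ℕ × ℕ =>
    hitm (q.1 + 1) q.2.1 q.2.2.1 q.2.2.2.1 q.2.2.2.2 := h1
  have hl : PTime fun q : P0 × ℕ => low q.1.2.1 q.1.2.2.1 :=
    h2.2.2.1.comp (g := fun q : P0 × ℕ => (q.1.2.1, q.1.2.2.1)) (by fun_prop)
  have hh : PTime fun q : P0 × ℕ => his (q.1.2.1.take q.2) q.1.2.2.1 :=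
    h2.2.2.2.comp (g := fun q : P0 × ℕ => (q.1.2.1.take q.2, q.1.2.2.1)) (by fun_prop)
  have hg := ptime_dgs hd h2
  have ht : PTime fun q : P0 × ℕ => q.1.2.2.2.take (dgs q.1.2.1 q.1.2.2.1) :=
    PTime.take hg (by fun_prop)
  have hr : PTime fun q : P0 × ℕ => q.1.2.2.2.drop (dgs q.1.2.1 q.1.2.2.1) :=
    PTime.drop hg (by fun_prop)
  have a1 : PTime fun q : P0 × ℕ => hitm (q.1.1 + 1) (low q.1.2.1 q.1.2.2.1) q.1.2.2.1
      (q.1.2.2.2.take (dgs q.1.2.1 q.1.2.2.1)) q.2 :=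
    h1'.comp (g := fun q : P0 × ℕ => (q.1.1, low q.1.2.1 q.1.2.2.1, q.1.2.2.1,
      q.1.2.2.2.take (dgs q.1.2.1 q.1.2.2.1), q.2)) (by fun_prop)
  have a2 : PTime fun q : P0 × ℕ => (q.1.2.2.2.drop (dgs q.1.2.1 q.1.2.2.1)).getD
      (his (q.1.2.1.take q.2) q.1.2.2.1).length 0 % (q.1.1 + 1) :=
    (PTime.getD hr hh.length (by fun_prop)).mod (by fun_prop)
  have a0 : PTime fun q : P0 × ℕ => q.1.2.1.getD q.2 0 :=
    PTime.getD (by fun_prop) (by fun_prop) (by fun_prop)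
  have hR : PTime fun q : P0 × ℕ => q.1.2.2.1 := by fun_prop
  have h0 : PTime fun _ : P0 × ℕ => (0 : ℕ) := by fun_prop
  have h22 : PTime fun _ : P0 × ℕ => (2 : ℕ) := by fun_prop
  exact PTime.ite (p := fun q : P0 × ℕ => 2 ≤ q.1.2.1.getD q.2 0) (h22.le a0)
    (PTime.ite (p := fun q : P0 × ℕ => q.1.2.1.getD q.2 0 ≤ q.1.2.2.1) (a0.le hR) a1 a2) h0

/-- the parameters of an entry: also the list of the variables -/
abbrev P1 : Type := ℕ × List (List Bool) × List ℕ × ℕ × List ℕ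

theorem ptime_entW (hd : StDiv) (h1 : StPTHit) (h2 : StPTBest) :
    PTime fun t : P1 × List RPair =>
      entW (t.1.1 + 1) t.1.2.1 t.1.2.2.1 t.1.2.2.2.1 t.1.2.2.2.2 t.2 := by
  have b1 : PTime fun t : (P1 × List RPair) × RPair => coefmod (t.1.1.1 + 1) t.2.1 :=
    PTMatAux.ptime_coefmod.comp (g := fun t : (P1 × List RPair) × RPair => (t.1.1.1, t.2.1))
      (by fun_prop)
  have b0 : PTime fun t : (P1 × List RPair) × RPair => t.1.1.2.1.idxOf t.2.2 :=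
    PTime.idxOf (by fun_prop) (by fun_prop)
  have b2 : PTime fun t : (P1 × List RPair) × RPair =>
      wm (t.1.1.1 + 1) t.1.1.2.2.1 t.1.1.2.2.2.1 t.1.1.2.2.2.2 (t.1.1.2.1.idxOf t.2.2) :=
    (ptime_wm hd h1 h2).comp (g := fun t : (P1 × List RPair) × RPair =>
      ((t.1.1.1, t.1.1.2.2.1, t.1.1.2.2.2.1, t.1.1.2.2.2.2), t.1.1.2.1.idxOf t.2.2))
      (by fun_prop)
  have b3 : PTime fun t : P1 × List RPair => t.2.map fun q : RPair =>
      coefmod (t.1.1 + 1) q.1 *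
        wm (t.1.1 + 1) t.1.2.2.1 t.1.2.2.2.1 t.1.2.2.2.2 (t.1.2.1.idxOf q.2) :=
    PTime.map (f := fun (t : P1 × List RPair) (q : RPair) =>
      coefmod (t.1.1 + 1) q.1 *
        wm (t.1.1 + 1) t.1.2.2.1 t.1.2.2.2.1 t.1.2.2.2.2 (t.1.2.1.idxOf q.2))
      (by fun_prop) (b1.mul b2)
  have b4 : PTime fun t : P1 × List RPair => t.1.1 + 1 := by fun_prop
  exact b3.sum.mod b4

/-- the arguments of `matW` -/
abbrev Q0 : Type := ℕ × List ℕ × ℕ × List ℕ × RMat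

end PTMatWAux

open PTMatWAux in
theorem stPTMatW (hd : StDiv) (h1 : StPTHit) (h2 : StPTBest) : StPTMatW := by
  have hv : PTime fun q : (Q0 × List (List RPair)) × List RPair => vars q.1.1.2.2.2.2 :=
    PTMatAux.ptime_vars.comp (g := fun q : (Q0 × List (List RPair)) × List RPair =>
      q.1.1.2.2.2.2) (by fun_prop)
  have c1 : PTime fun q : (Q0 × List (List RPair)) × List RPair =>
      entW (q.1.1.1 + 1) (vars q.1.1.2.2.2.2) q.1.1.2.1 q.1.1.2.2.1 q.1.1.2.2.2.1 q.2 :=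
    (ptime_entW hd h1 h2).comp
      (g := fun q : (Q0 × List (List RPair)) × List RPair =>
        ((q.1.1.1, vars q.1.1.2.2.2.2, q.1.1.2.1, q.1.1.2.2.1, q.1.1.2.2.2.1), q.2))
      (by fun_prop)
  have c2 : PTime fun q : Q0 × List (List RPair) =>
      q.2.map (entW (q.1.1 + 1) (vars q.1.2.2.2.2) q.1.2.1 q.1.2.2.1 q.1.2.2.2.1) :=
    PTime.map (f := fun (q : Q0 × List (List RPair)) (e : List RPair) =>
      entW (q.1.1 + 1) (vars q.1.2.2.2.2) q.1.2.1 q.1.2.2.1 q.1.2.2.2.1 e) (by fun_prop) c1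
  exact PTime.map (f := fun (q : Q0) (r : List (List RPair)) =>
    r.map (entW (q.1 + 1) (vars q.2.2.2.2) q.2.1 q.2.2.1 q.2.2.2.1)) (by fun_prop) c2

end Pool.Agent.Lib.MP_64d474_lc.ST3
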