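import Pool.Agent.Lib.MP_64d474_lc.ST3.Stmts3

/-!
# The test with the matrices of rank one is computable in polynomial time
-/

set_option autoImplicit false

open Pool.Agent.Lib.PT Pool.Agent.Lib.MP_64d474_lc.ST
open Pool.Agent.Lib.MP_64d474_lc.ST2 (rkmod StPTRk)

namespace Pool.Agent.Lib.MP_64d474_lc.ST3

namespace PTOneAux

/-- modulus, coefficient and two matrices -/
abbrev AT : Type := ℕ × ℕ × List (List ℕ) × List (List ℕ)

/-- modulus, size, the matrices of rank one and a matrix -/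
abbrev QT : Type := ℕ × ℕ × List (List (List ℕ)) × List (List ℕ)

theorem ptime_add (hz : StZip) : PTime fun t : AT => addM (t.1 + 1) t.2.1 t.2.2.1 t.2.2.2 := by
  have h1 := hz (AT × List ℕ × List ℕ) ℕ ℕ ℕ (fun u => u.2.1) (fun u => u.2.2)
    (fun u x y => (x + u.1.2.1 * y) % (u.1.1 + 1)) (by fun_prop) (by fun_prop) (by fun_prop)
  have h2 := hz AT (List ℕ) (List ℕ) (List ℕ) (fun t => t.2.2.1) (fun t => t.2.2.2)
    (fun t r s => List.zipWith (fun x y => (x + t.2.1 * y) % (t.1 + 1)) r s)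
    (by fun_prop) (by fun_prop) h1
  exact h2

/-! ### Sizes -/

/-- at most `S` rows, with at most `S` entries, that are at most `S` -/
def Inv (S : ℕ) (L : List (List ℕ)) : Prop :=
  L.length ≤ S ∧ ∀ r ∈ L, r.length ≤ S ∧ ∀ x ∈ r, x ≤ S

theorem sz_inv {S : ℕ} {L : List (List ℕ)} (h : Inv S L) :
    sz L ≤ S * (S * (2 * S + 2) + 2) + 1 := by
  have h1 : ∀ r ∈ L, sz r ≤ S * (2 * S + 2) + 1 := by
    intro r hr
    have h2 : ∀ x ∈ r, sz x ≤ 2 * S + 1 := by
      intro x hx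
      have := (h.2 r hr).2 x hx
      rw [sz_nat]
      omega
    have h3 := sz_le_of_forall h2
    have h4 : r.length * (2 * S + 1 + 1) ≤ S * (2 * S + 2) := Nat.mul_le_mul_right _ (h.2 r hr).1
    omega
  have h2 := sz_le_of_forall h1
  have h3 : L.length * (S * (2 * S + 2) + 1 + 1) ≤ S * (S * (2 * S + 2) + 2) :=
    Nat.mul_le_mul_right _ h.1
  omega

theorem inv_add {q S : ℕ} (hq : q ≤ S) (t : ℕ) {M N : List (List ℕ)} (h : Inv S M) :
    Inv S (addM (q + 1) t M N) := by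
  unfold addM
  refine ⟨?_, ?_⟩
  · rw [List.length_zipWith]
    exact (min_le_left _ _).trans h.1
  · intro r hr
    obtain ⟨i, hi, rfl⟩ := List.mem_iff_getElem.1 hr
    rw [List.getElem_zipWith]
    have hi' : i < M.length := by
      rw [List.length_zipWith] at hi
      exact lt_of_lt_of_le hi (min_le_left _ _)
    refine ⟨?_, ?_⟩
    · rw [List.length_zipWith]
      exact (min_le_left _ _).trans (h.2 _ (List.getElem_mem hi')).1
    · intro x hx
      obtain ⟨j, hj, rfl⟩ := List.mem_iff_getElem.1 hx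
      rw [List.getElem_zipWith]
      exact (Nat.le_of_lt_succ (Nat.mod_lt _ (Nat.succ_pos q))).trans hq

theorem inv_zer {n S : ℕ} (hn : n ≤ S) : Inv S (zerM n) := by
  unfold zerM
  refine ⟨by rw [List.length_replicate]; exact hn, ?_⟩
  intro r hr
  rw [List.eq_of_mem_replicate hr]
  refine ⟨by rw [List.length_replicate]; exact hn, ?_⟩
  intro x hx
  rw [List.eq_of_mem_replicate hx]
  exact Nat.zero_le S

theorem inv_sum {q n S : ℕ} (hq : q ≤ S) (hn : n ≤ S) (Bs : List (List (List ℕ)))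
    (l : List ℕ) : Inv S (sumP (q + 1) n Bs l) := by
  unfold sumP
  have key : ∀ (l : List ℕ) (N : List (List ℕ)), Inv S N →
      Inv S (l.foldl (fun N k => addM (q + 1) 1 N (Bs.getD k (zerM n))) N) := by
    intro l
    induction l with
    | nil => intro N h; exact h
    | cons x l ih =>
      intro N h
      rw [List.foldl_cons]
      exact ih _ (inv_add hq 1 h)
  exact key l _ (inv_zer hn)

theorem inv_self (M : List (List ℕ)) : Inv (sz M) M := by
  refine ⟨length_le_sz M, fun r hr => ⟨(length_le_sz r).trans (sz_mem_le hr), fun x hx => ?_⟩⟩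
  have h1 : sz x ≤ sz M := (sz_mem_le hx).trans (sz_mem_le hr)
  rw [sz_nat] at h1
  omega

theorem Inv.mono {S S' : ℕ} {L : List (List ℕ)} (h : Inv S L) (hS : S ≤ S') : Inv S' L :=
  ⟨h.1.trans hS, fun r hr => ⟨(h.2 r hr).1.trans hS, fun x hx => ((h.2 r hr).2 x hx).trans hS⟩⟩

theorem pb_inv {α : Type} [Enc α] {f : α → ℕ} (hf : PB f) :
    PB fun a => f a * (f a * (2 * f a + 2) + 2) + 1 :=
  (hf.mul ((hf.mul (((PB.const 2).mul hf).add (PB.const 2))).add (PB.const 2))).add (PB.const 1)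

/-! ### Sums -/

/-- modulus, size, the matrices of rank one and a path -/
abbrev ST : Type := ℕ × ℕ × List (List (List ℕ)) × List ℕ

theorem ptime_sum (hz : StZip) : PTime fun t : ST => sumP (t.1 + 1) t.2.1 t.2.2.1 t.2.2.2 := by
  have h0 : PTime fun t : ST => zerM t.2.1 := by
    unfold zerM
    fun_prop
  have h1 : PTime fun u : ST × List (List ℕ) × ℕ =>
      addM (u.1.1 + 1) 1 u.2.1 (u.1.2.2.1.getD u.2.2 (zerM u.1.2.1)) := by
    have h2 : PTime fun u : ST × List (List ℕ) × ℕ => zerM u.1.2.1 :=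
      h0.comp (g := fun u : ST × List (List ℕ) × ℕ => u.1) (by fun_prop)
    have h3 : PTime fun u : ST × List (List ℕ) × ℕ => u.1.2.2.1.getD u.2.2 (zerM u.1.2.1) :=
      PTime.getD (by fun_prop) (by fun_prop) h2
    exact (ptime_add hz).comp (g := fun u : ST × List (List ℕ) × ℕ =>
      (u.1.1, 1, u.2.1, u.1.2.2.1.getD u.2.2 (zerM u.1.2.1)))
      (PTime.pair (by fun_prop) (PTime.pair (by fun_prop) (PTime.pair (by fun_prop) h3)))
  refine PTime.foldl (l := fun t : ST => t.2.2.2) (s := fun t => zerM t.2.1)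
    (f := fun t N k => addM (t.1 + 1) 1 N (t.2.2.1.getD k (zerM t.2.1))) (by fun_prop) h0 h1
    (B := fun t => sz t * (sz t * (2 * sz t + 2) + 2) + 1) (pb_inv PB.sz) ?_
  intro t l₁ l₂ _
  obtain ⟨q, n, Bs, l⟩ := t
  have hs : sz (q, n, Bs, l) = 2 * q + 1 + (2 * n + 1 + (sz Bs + sz l + 1) + 1) + 1 := by
    rw [sz_mk, sz_mk, sz_mk, sz_nat, sz_nat]
  exact sz_inv (inv_sum (q := q) (n := n) (by rw [hs]; omega) (by rw [hs]; omega) Bs l₁)

/-! ### The coefficient -/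

/-- modulus, size, bound and two matrices -/
abbrev BT : Type := ℕ × ℕ × ℕ × List (List ℕ) × List (List ℕ)

theorem ptime_best (hz : StZip) (h1 : StPTRk) : PTime fun t : BT =>
    bestT (t.1 + 1) t.2.1 t.2.2.1 t.2.2.2.1 t.2.2.2.2 := by
  have hr : PTime fun u : BT × ℕ => rkmod (u.1.1 + 1) u.1.2.1 u.1.2.2.2.1 :=
    PTime.comp (f := fun q : ℕ × ℕ × List (List ℕ) => rkmod (q.1 + 1) q.2.1 q.2.2) h1
      (g := fun u : BT × ℕ => (u.1.1, u.1.2.1, u.1.2.2.2.1)) (by fun_prop)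
  have ha : PTime fun u : BT × ℕ => addM (u.1.1 + 1) u.2 u.1.2.2.2.1 u.1.2.2.2.2 :=
    (ptime_add hz).comp (g := fun u : BT × ℕ => (u.1.1, u.2, u.1.2.2.2.1, u.1.2.2.2.2))
      (by fun_prop)
  have hr' : PTime fun u : BT × ℕ =>
      rkmod (u.1.1 + 1) u.1.2.1 (addM (u.1.1 + 1) u.2 u.1.2.2.2.1 u.1.2.2.2.2) :=
    PTime.comp (f := fun q : ℕ × ℕ × List (List ℕ) => rkmod (q.1 + 1) q.2.1 q.2.2) h1
      (g := fun u : BT × ℕ => (u.1.1, u.1.2.1, addM (u.1.1 + 1) u.2 u.1.2.2.2.1 u.1.2.2.2.2))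
      (PTime.pair (by fun_prop) (PTime.pair (by fun_prop) ha))
  have hf : PTime fun t : BT => (List.range t.2.2.1).filter fun k =>
      decide (rkmod (t.1 + 1) t.2.1 t.2.2.2.1 <
        rkmod (t.1 + 1) t.2.1 (addM (t.1 + 1) k t.2.2.2.1 t.2.2.2.2)) :=
    PTime.filter (l := fun t : BT => List.range t.2.2.1)
      (f := fun t k => decide (rkmod (t.1 + 1) t.2.1 t.2.2.2.1 <
        rkmod (t.1 + 1) t.2.1 (addM (t.1 + 1) k t.2.2.2.1 t.2.2.2.2))) (by fun_prop)
      (PTime.lt hr hr')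
  exact hf.headD (PTime.const 0)

/-! ### Augmentation -/

theorem ptime_augS (hz : StZip) (h1 : StPTRk) (h2 : StPTAugP) : PTime fun t : QT =>
    augS (t.1 + 1) t.2.1 t.2.2.1 t.2.2.2 := by
  have hs : PTime fun t : QT =>
      sumP (t.1 + 1) t.2.1 t.2.2.1 (augP (t.1 + 1) t.2.1 t.2.2.1 t.2.2.2) :=
    (ptime_sum hz).comp (g := fun t : QT =>
      (t.1, t.2.1, t.2.2.1, augP (t.1 + 1) t.2.1 t.2.2.1 t.2.2.2))
      (PTime.pair (by fun_prop) (PTime.pair (by fun_prop) (PTime.pair (by fun_prop) h2)))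
  have hb : PTime fun t : QT => bestT (t.1 + 1) t.2.1 (t.2.2.1.length + 3) t.2.2.2
      (sumP (t.1 + 1) t.2.1 t.2.2.1 (augP (t.1 + 1) t.2.1 t.2.2.1 t.2.2.2)) :=
    (ptime_best hz h1).comp (g := fun t : QT => (t.1, t.2.1, t.2.2.1.length + 3, t.2.2.2,
      sumP (t.1 + 1) t.2.1 t.2.2.1 (augP (t.1 + 1) t.2.1 t.2.2.1 t.2.2.2)))
      (PTime.pair (by fun_prop) (PTime.pair (by fun_prop) (PTime.pair (by fun_prop)
        (PTime.pair (by fun_prop) hs))))
  exact (ptime_add hz).comp (g := fun t : QT => (t.1,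
    bestT (t.1 + 1) t.2.1 (t.2.2.1.length + 3) t.2.2.2
      (sumP (t.1 + 1) t.2.1 t.2.2.1 (augP (t.1 + 1) t.2.1 t.2.2.1 t.2.2.2)), t.2.2.2,
    sumP (t.1 + 1) t.2.1 t.2.2.1 (augP (t.1 + 1) t.2.1 t.2.2.1 t.2.2.2)))
    (PTime.pair (by fun_prop) (PTime.pair hb (PTime.pair (by fun_prop) hs)))

theorem inv_iter {q n S : ℕ} (hq : q ≤ S) (Bs : List (List (List ℕ))) (i : ℕ)
    {M : List (List ℕ)} (h : Inv S M) : Inv S ((augS (q + 1) n Bs)^[i] M) := by
  induction i generalizing M with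
  | zero => exact h
  | succ i ih =>
    rw [Function.iterate_succ_apply]
    exact ih (inv_add hq _ h)

end PTOneAux

open PTOneAux

/-- **Module PTOne.** -/
theorem stPTOne (hz : StZip) (h1 : StPTRk) (h2 : StPTAugP) : StPTOne := by
  have hit : PTime fun t : QT => (augS (t.1 + 1) t.2.1 t.2.2.1)^[t.2.1] t.2.2.2 := by
    refine PTime.iterate (n := fun t : QT => t.2.1) (s := fun t => t.2.2.2)
      (f := fun t M => augS (t.1 + 1) t.2.1 t.2.2.1 M)
      (B := fun t => sz t * (sz t * (2 * sz t + 2) + 2) + 1) (by fun_prop) (by fun_prop) ?_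
      (pb_inv PB.sz) ?_
    · exact (ptime_augS hz h1 h2).comp
        (g := fun u : QT × List (List ℕ) => (u.1.1, u.1.2.1, u.1.2.2.1, u.2)) (by fun_prop)
    · intro t i _
      obtain ⟨q, n, Bs, M⟩ := t
      have hs : sz (q, n, Bs, M) = 2 * q + 1 + (2 * n + 1 + (sz Bs + sz M + 1) + 1) + 1 := by
        rw [sz_mk, sz_mk, sz_mk, sz_nat, sz_nat]
      exact sz_inv (inv_iter (q := q) (n := n) (by rw [hs]; omega) Bs i
        ((inv_self M).mono (by rw [hs]; omega)))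
  have hr : PTime fun t : QT =>
      rkmod (t.1 + 1) t.2.1 ((augS (t.1 + 1) t.2.1 t.2.2.1)^[t.2.1] t.2.2.2) :=
    PTime.comp (f := fun q : ℕ × ℕ × List (List ℕ) => rkmod (q.1 + 1) q.2.1 q.2.2) h1
      (g := fun t : QT => (t.1, t.2.1, (augS (t.1 + 1) t.2.1 t.2.2.1)^[t.2.1] t.2.2.2))
      (PTime.pair (by fun_prop) (PTime.pair (by fun_prop) hit))
  exact PTime.natEq hr (by fun_prop)

end Pool.Agent.Lib.MP_64d474_lc.ST3
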