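import Pool.Agent.Lib.MP_64d474_lc.ST3.Stmts3
import Pool.Agent.Lib.MP_64d474_lc.ST2.PTMult

/-!
# The list of the coefficient matrices of rank one is computable in polynomial time
-/

set_option autoImplicit false

open Pool.Agent.Lib.PT Pool.Agent.Lib.MP_64d474_lc.ST
open Pool.Agent.Lib.MP_64d474_lc.ST2 (cmat)

namespace Pool.Agent.Lib.MP_64d474_lc.ST3

namespace PTOnesAux

theorem ptime_zerM {α : Type} [Enc α] {f : α → ℕ} (hf : PTime f) : PTime fun a => zerM (f a) :=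
  PTime.replicate hf (PTime.replicate hf (PTime.const 0))

end PTOnesAux

open PTOnesAux in
/-- Module PTOnes. -/
theorem stPTOnes : StPTOnes := by
  have hV : PTime fun t : (ℕ × List ℕ × RMat) × ℕ => vars t.1.2.2 :=
    PTMatAux.ptime_vars.comp (g := fun t : (ℕ × List ℕ × RMat) × ℕ => t.1.2.2) (by fun_prop)
  have hV0 : PTime fun q : ℕ × List ℕ × RMat => vars q.2.2 :=
    PTMatAux.ptime_vars.comp (g := fun q : ℕ × List ℕ × RMat => q.2.2) (by fun_prop)
  have hG : PTime fun t : (ℕ × List ℕ × RMat) × ℕ => (vars t.1.2.2).getD t.2 [] :=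
    PTime.getD hV (by fun_prop) (by fun_prop)
  have hI : PTime fun t : (ℕ × List ℕ × RMat) × ℕ =>
      (vars t.1.2.2).idxOf ((vars t.1.2.2).getD t.2 []) := PTime.idxOf hV hG
  have hj : PTime fun t : (ℕ × List ℕ × RMat) × ℕ => t.2 := by fun_prop
  have hl : PTime fun t : (ℕ × List ℕ × RMat) × ℕ => t.1.2.1.getD t.2 0 := by fun_prop
  have hM : PTime fun t : (ℕ × List ℕ × RMat) × ℕ =>
      cmat (t.1.1 + 1) ((vars t.1.2.2).getD t.2 []) t.1.2.2 :=
    ST2.PTMultAux.ptime_cmat.comp (g := fun t : (ℕ × List ℕ × RMat) × ℕ =>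
      ((t.1.1, (vars t.1.2.2).getD t.2 []), t.1.2.2))
      (PTime.pair (PTime.pair (by fun_prop) hG) (by fun_prop))
  have hZ : PTime fun t : (ℕ × List ℕ × RMat) × ℕ => zerM t.1.2.2.length :=
    ptime_zerM (by fun_prop)
  have hD : PTime fun t : (ℕ × List ℕ × RMat) × ℕ =>
      decide ((vars t.1.2.2).idxOf ((vars t.1.2.2).getD t.2 []) = t.2 ∧
        t.1.2.1.getD t.2 0 < 2) :=
    ((hI.eq hj).and (hl.lt (PTime.const 2))).of_eq fun t => by
      rw [Bool.decide_and]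
  have hA : PTime fun t : (ℕ × List ℕ × RMat) × ℕ =>
      if (vars t.1.2.2).idxOf ((vars t.1.2.2).getD t.2 []) = t.2 ∧ t.1.2.1.getD t.2 0 < 2 then
        cmat (t.1.1 + 1) ((vars t.1.2.2).getD t.2 []) t.1.2.2 else zerM t.1.2.2.length :=
    PTime.ite (p := fun t : (ℕ × List ℕ × RMat) × ℕ =>
      (vars t.1.2.2).idxOf ((vars t.1.2.2).getD t.2 []) = t.2 ∧ t.1.2.1.getD t.2 0 < 2) hD hM hZ
  exact PTime.map (f := fun (q : ℕ × List ℕ × RMat) (j : ℕ) =>
    if (vars q.2.2).idxOf ((vars q.2.2).getD j []) = j ∧ q.2.1.getD j 0 < 2 then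
      cmat (q.1 + 1) ((vars q.2.2).getD j []) q.2.2 else zerM q.2.2.length) hV0.length.range hA

end Pool.Agent.Lib.MP_64d474_lc.ST3
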