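import Pool.Agent.Lib.MP_64d474_lc.ST3.Stmts3

/-!
# The parameters of the third machine are computable in polynomial time
-/

set_option autoImplicit false

open Pool.Agent.Lib.PT Pool.Agent.Lib.MP_64d474_lc.ST
open Pool.Agent.Lib.MP_64d474_lc.ST2 (rw' nr)

namespace Pool.Agent.Lib.MP_64d474_lc.ST3

namespace PTPar3Aux

theorem ptime_cntL (x : Letter) : PTime fun w : List Letter => cnt w x := by
  unfold cnt
  have h : PTime fun w : List Letter => w.filter fun u => decide (u = x) :=
    PTime.filter (l := fun w : List Letter => w) (f := fun _ u => decide (u = x))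
      (by fun_prop) (by fun_prop)
  fun_prop

theorem ptime_nr : PTime fun w : List Letter => nr w := ptime_cntL Letter.row

theorem ptime_rs3 (hrw : PTime fun w : List Letter => rw' w)
    (hbest : PTime fun l : List ℕ => best l) : PTime fun w : List Letter => rs3 w :=
  (PTime.comp (f := fun l : List ℕ => best l) hbest hrw).of_eq fun w => by simp only [rs3]

theorem ptime_cost3 (hrw : PTime fun w : List Letter => rw' w)
    (hrs : PTime fun w : List Letter => rs3 w)
    (hcostR : PTime fun q : List ℕ × ℕ => costR q.1 q.2) :
    PTime fun w : List Letter => cost3 w := by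
  have hpair : PTime fun w : List Letter => (rw' w, rs3 w) := hrw.pair hrs
  exact (PTime.comp (f := fun q : List ℕ × ℕ => costR q.1 q.2) hcostR hpair).of_eq fun w => by
      simp only [cost3]

theorem ptime_useF3 (hcost : PTime fun w : List Letter => cost3 w) :
    PTime fun w : List Letter => useF3 w := by
  have hnr := ptime_nr
  unfold useF3
  fun_prop

theorem ptime_low (hrw : PTime fun w : List Letter => rw' w)
    (hrs : PTime fun w : List Letter => rs3 w)
    (h : PTime fun q : List ℕ × ℕ => low q.1 q.2) :
    PTime fun w : List Letter => low (rw' w) (rs3 w) := by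
  have hpair : PTime fun w : List Letter => (rw' w, rs3 w) := hrw.pair hrs
  exact (PTime.comp (f := fun q : List ℕ × ℕ => low q.1 q.2) h hpair).of_eq fun w => by
      simp only

theorem ptime_his (hrw : PTime fun w : List Letter => rw' w)
    (hrs : PTime fun w : List Letter => rs3 w)
    (h : PTime fun q : List ℕ × ℕ => his q.1 q.2) :
    PTime fun w : List Letter => his (rw' w) (rs3 w) := by
  have hpair : PTime fun w : List Letter => (rw' w, rs3 w) := hrw.pair hrs
  exact (PTime.comp (f := fun q : List ℕ × ℕ => his q.1 q.2) h hpair).of_eq fun w => by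
      simp only

theorem ptime_dgs (hrs : PTime fun w : List Letter => rs3 w)
    (hdiv : PTime fun w : List Letter => (low (rw' w) (rs3 w)).sum / rs3 w) :
    PTime fun w : List Letter => dgs (rw' w) (rs3 w) := by
  unfold dgs digs srcs blks
  fun_prop

theorem ptime_dmax (hrs : PTime fun w : List Letter => rs3 w)
    (hsum : PTime fun w : List Letter => (low (rw' w) (rs3 w)).sum) :
    PTime fun w : List Letter => dmax (low (rw' w) (rs3 w)).sum (rs3 w) := by
  unfold dmax srcs
  fun_prop

theorem ptime_bl (hu : PTime fun w : List Letter => useF3 w)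
    (hd : PTime fun w : List Letter => dgs (rw' w) (rs3 w))
    (hm : PTime fun w : List Letter => dmax (low (rw' w) (rs3 w)).sum (rs3 w))
    (hh : PTime fun w : List Letter => his (rw' w) (rs3 w)) :
    PTime fun w : List Letter => bl w :=
  (PTime.cond hu (ptime_nr.replicate (PTime.const 1)) ((hd.replicate hm).append hh)).of_eq
    fun w => by simp only [bl]

end PTPar3Aux

open PTPar3Aux in
theorem stPTPar3 (h1 : ST2.StPTPar) (h2 : StPTBest) (hd : StDiv) : StPTPar3 := by
  have hrw : PTime fun w : List Letter => rw' w := h1.1
  have hrs := ptime_rs3 hrw h2.1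
  have hu := ptime_useF3 (ptime_cost3 hrw hrs h2.2.1)
  have hl := ptime_low hrw hrs h2.2.2.1
  have hh := ptime_his hrw hrs h2.2.2.2
  have hsum : PTime fun w : List Letter => (low (rw' w) (rs3 w)).sum := hl.sum
  have hdiv : PTime fun w : List Letter => (low (rw' w) (rs3 w)).sum / rs3 w :=
    hd _ _ _ hsum hrs
  exact ⟨hrw, hrs, hu, ptime_bl hu (ptime_dgs hrs hdiv) (ptime_dmax hrs hsum) hh⟩

end Pool.Agent.Lib.MP_64d474_lc.ST3
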