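import Pool.Agent.Lib.MP_64d474_lc.ST3.Stmts3
import Pool.Agent.Lib.MP_64d474_lc.ST.Prime

/-!
# A prime larger than `m + 3` that does not divide a given number
-/

set_option autoImplicit false

open Pool.Agent.Lib.MP_64d474_lc.ST

namespace Pool.Agent.Lib.MP_64d474_lc.ST3

namespace Prime3Aux

lemma factorial_lt (L m : ℕ) (hm : m ≤ L) : (m + 3).factorial < 2 ^ kbound L := by
  have h1 : (m + 3).factorial ≤ (L + 3).factorial := Nat.factorial_le (by omega)
  have h2 : (L + 3).factorial ≤ (L + 3) ^ (L + 3) := Nat.factorial_le_pow _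
  have h3 : L + 3 ≤ 2 ^ (L + 2) := by
    have := Nat.lt_two_pow_self (n := L + 2)
    omega
  have h4 : (L + 3) ^ (L + 3) ≤ (2 ^ (L + 2)) ^ (L + 3) := Nat.pow_le_pow_left h3 _
  have h5 : (2 ^ (L + 2)) ^ (L + 3) = 2 ^ ((L + 2) * (L + 3)) := by rw [← pow_mul]
  have h6 : (L + 2) * (L + 3) < kbound L := by
    have h7 : L + 3 ≤ 2 * (L + 2) := by omega
    have h8 : (L + 2) * (L + 3) ≤ (L + 2) * (2 * (L + 2)) := Nat.mul_le_mul_left _ h7
    have h9 : 1 ≤ (L + 2) * (L + 2) := Nat.one_le_iff_ne_zero.mpr (by positivity)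
    have h10 : (L + 2) * (L + 2) * 1 ≤ (L + 2) * (L + 2) * ((L + 2) * (L + 2)) :=
      Nat.mul_le_mul_left _ h9
    have h11 : kbound L = 64 * ((L + 2) * (L + 2) * ((L + 2) * (L + 2))) := by
      unfold kbound
      ring
    rw [h11]
    nlinarith
  have h7 : 2 ^ ((L + 2) * (L + 3)) < 2 ^ kbound L := Nat.pow_lt_pow_right (by norm_num) h6
  calc (m + 3).factorial ≤ (L + 3).factorial := h1
    _ ≤ (L + 3) ^ (L + 3) := h2
    _ ≤ (2 ^ (L + 2)) ^ (L + 3) := h4
    _ = 2 ^ ((L + 2) * (L + 3)) := h5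
    _ < 2 ^ kbound L := h7

end Prime3Aux

theorem stPrime3 : StPrime3 := by
  intro L m D hm hD hb
  have h1 := Prime3Aux.factorial_lt L m hm
  have hD2 : D * ((m + 3).factorial : ℤ) ≠ 0 :=
    mul_ne_zero hD (by exact_mod_cast (Nat.factorial_ne_zero _))
  have hb2 : (D * ((m + 3).factorial : ℤ)).natAbs < 2 ^ kb3 L := by
    rw [Int.natAbs_mul, Int.natAbs_natCast]
    have h2 : (2 : ℕ) ^ kb3 L = 2 ^ kbound L * 2 ^ kbound L := by
      unfold kb3
      rw [two_mul, pow_add]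
    rw [h2]
    exact Nat.mul_lt_mul'' hb h1
  obtain ⟨p, hp1, hp2, hp3⟩ := stPrime (kb3 L) _ hD2 hb2
  have hp0 : 1 ≤ p := hp2.one_lt.le
  refine ⟨p - 1, ?_, ?_, ?_, ?_⟩
  · unfold pb3
    omega
  · rw [Nat.sub_add_cancel hp0]
    exact hp2
  · rw [Nat.sub_add_cancel hp0]
    by_contra hcon
    push Not at hcon
    apply hp3
    have h3 : p ∣ (m + 3).factorial := Nat.dvd_factorial hp2.pos hcon
    exact Dvd.dvd.mul_left (by exact_mod_cast h3) _
  · rw [Nat.sub_add_cancel hp0]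
    intro hcon
    exact hp3 (Dvd.dvd.mul_right hcon _)

end Pool.Agent.Lib.MP_64d474_lc.ST3
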