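import Pool.Agent.Lib.MP_64d474_lc.ST3.Stmts3

/-!
# The list of the ranks, by sizes (module Rl3)
-/

set_option autoImplicit false

open Finset Pool.Agent.Lib.MP_64d474_lc.ST
open Pool.Agent.Lib.MP_64d474_lc.ST2 (wl wr)

namespace Pool.Agent.Lib.MP_64d474_lc.ST3

namespace Rl3Aux

theorem get_idx {V : List ℕ} {k : ℕ} (hk : k ∈ V) :
    V.get ⟨V.idxOf k, List.idxOf_lt_length_iff.2 hk⟩ = k := by
  rw [List.get_eq_getElem]
  exact List.getElem_idxOf (List.idxOf_lt_length_iff.2 hk)

/-- a sum over first occurrences is a sum over the set of the members -/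
theorem sum_first (V : List ℕ) (g : ℕ → ℕ) :
    (∑ j : Fin V.length, if V.idxOf (V.get j) = j then g (V.get j) else 0) =
      ∑ k ∈ V.toFinset, g k := by
  rw [← Finset.sum_filter]
  refine Finset.sum_bij (fun j _ => V.get j) ?_ ?_ ?_ ?_
  · intro j _
    rw [List.mem_toFinset]
    exact List.get_mem V j
  · intro i hi j hj h
    have h1 : V.idxOf (V.get i) = i := (Finset.mem_filter.1 hi).2
    have h2 : V.idxOf (V.get j) = j := (Finset.mem_filter.1 hj).2
    apply Fin.ext
    have h3 : V.get i = V.get j := h
    rw [← h1, ← h2, h3]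
  · intro k hk
    have h2 := get_idx (List.mem_toFinset.1 hk)
    refine ⟨⟨V.idxOf k, _⟩, Finset.mem_filter.2 ⟨Finset.mem_univ _, ?_⟩, h2⟩
    rw [h2]
  · intro j _
    rfl

/-- the same for products -/
theorem prod_first (V : List ℕ) (g : ℕ → ℕ) :
    (∏ j : Fin V.length, if V.idxOf (V.get j) = j then g (V.get j) else 1) =
      ∏ k ∈ V.toFinset, g k := by
  rw [← Finset.prod_filter]
  refine Finset.prod_bij (fun j _ => V.get j) ?_ ?_ ?_ ?_
  · intro j _
    rw [List.mem_toFinset]
    exact List.get_mem V j
  · intro i hi j hj h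
    have h1 : V.idxOf (V.get i) = i := (Finset.mem_filter.1 hi).2
    have h2 : V.idxOf (V.get j) = j := (Finset.mem_filter.1 hj).2
    apply Fin.ext
    have h3 : V.get i = V.get j := h
    rw [← h1, ← h2, h3]
  · intro k hk
    have h2 := get_idx (List.mem_toFinset.1 hk)
    refine ⟨⟨V.idxOf k, _⟩, Finset.mem_filter.2 ⟨Finset.mem_univ _, ?_⟩, h2⟩
    rw [h2]
  · intro j _
    rfl

theorem prod_filter_map (l : List ℕ) (p : ℕ → Prop) [DecidablePred p] (f : ℕ → ℕ) :
    ((l.filter fun x => decide (p x)).map f).prod = (l.map fun x => if p x then f x else 1).prod := by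
  induction l with
  | nil => rfl
  | cons a l ih =>
    by_cases h : p a
    · rw [List.filter_cons_of_pos (by simpa using h), List.map_cons, List.map_cons,
        List.prod_cons, List.prod_cons, ih, if_pos h]
    · rw [List.filter_cons_of_neg (by simpa using h), List.map_cons, List.prod_cons, ih, if_neg h,
        one_mul]

theorem alg_low (r R : ℕ) (c : Prop) [Decidable c] :
    (if (if c then if 2 ≤ r then r else 0 else 0) ≤ R then
      (if c then if 2 ≤ r then r else 0 else 0) else 0) =
      if c then (if 2 ≤ r ∧ r ≤ R then r else 0) else 0 := by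
  by_cases hc : c
  · simp only [if_pos hc]
    by_cases h2 : 2 ≤ r
    · simp only [h2, true_and, if_true]
    · simp only [h2, false_and, if_false, ite_self]
  · simp only [if_neg hc, ite_self]

theorem alg_high (r R : ℕ) (hR : 1 ≤ R) (c : Prop) [Decidable c] :
    (if R < (if c then if 2 ≤ r then r else 0 else 0) then
      (if c then if 2 ≤ r then r else 0 else 0) + 1 else 1) =
      if c then (if R < r then r + 1 else 1) else 1 := by
  by_cases hc : c
  · simp only [if_pos hc]
    by_cases h2 : 2 ≤ r
    · simp only [if_pos h2]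
    · have h3 : ¬ R < r := by omega
      simp only [if_neg h2, if_neg h3, zero_add, ite_self]
  · simp only [if_neg hc, zero_add, ite_self]

end Rl3Aux

open Rl3Aux

/-- (Rl3) -/
theorem stRl3 : StRl3 := by
  intro A R _ hR
  constructor
  · rw [low, wl, List.map_ofFn, List.sum_ofFn]
    refine Eq.trans (Finset.sum_congr rfl fun j _ => ?_) (sum_first (varsN A) fun k =>
      if 2 ≤ (coefMatrix A k).rank ∧ (coefMatrix A k).rank ≤ R then (coefMatrix A k).rank else 0)
    exact alg_low (coefMatrix A ((varsN A).get j)).rank R _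
  · rw [his, prod_filter_map, wl, List.map_ofFn, List.prod_ofFn]
    refine Eq.trans (Finset.prod_congr rfl fun j _ => ?_) (prod_first (varsN A) fun k =>
      if R < (coefMatrix A k).rank then (coefMatrix A k).rank + 1 else 1)
    exact alg_high (coefMatrix A ((varsN A).get j)).rank R hR _

end Pool.Agent.Lib.MP_64d474_lc.ST3
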