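import Pool.Agent.Lib.MP_64d474_lc.ST3.Stmts3

/-!
# One augmentation
-/

set_option autoImplicit false

open Finset Pool.Agent.Lib.PT Pool.Agent.Lib.MP_64d474_lc.ST
open Pool.Agent.Lib.MP_64d474_lc.ST2 (rkmod)

namespace Pool.Agent.Lib.MP_64d474_lc.ST3

namespace Step

theorem getD_map {α : Type} (f : α → Bool) (l : List α) (d : α) (k : ℕ) (hk : k < l.length) :
    (l.map f).getD k false = f (l.getD k d) := by
  rw [List.getD_eq_getElem _ _ (by simpa using hk), List.getD_eq_getElem _ _ hk,
    List.getElem_map]

theorem ed_map {α : Type} (f : α → α → Bool) (l : List α) (d : α) (k j : ℕ)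
    (hk : k < l.length) (hj : j < l.length) :
    ed (l.map fun a => l.map fun b => f a b) k j = f (l.getD k d) (l.getD j d) := by
  have h : (l.map fun a => l.map fun b => f a b).getD k [] =
      l.map fun b => f (l.getD k d) b := by
    rw [List.getD_eq_getElem _ _ (by simpa using hk), List.getElem_map,
      List.getD_eq_getElem _ _ hk]
  unfold ed
  rw [h, getD_map _ l d j hj]

section

variable (p : ℕ) [Fact p.Prime] (n : ℕ)

theorem srcB_iff (h1 : StKer) (h5 : StBlk) (M B : List (List ℕ)) (hM : Sq n M) (hB : Sq n B) :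
    srcB p n M B = true ↔ Src (toM p n M) (toM p n B) := by
  unfold srcB
  rw [decide_eq_true_iff, (h5 p n M B B hM hB hB).1, (h5 p n M B B hM hB hB).2.1]
  exact (h1 (ZMod p) n (toM p n M) (toM p n B) (toM p n B)).1

theorem sinkB_iff (h1 : StKer) (h5 : StBlk) (M B : List (List ℕ)) (hM : Sq n M)
    (hB : Sq n B) : sinkB p n M B = true ↔ Sink (toM p n M) (toM p n B) := by
  unfold sinkB
  rw [decide_eq_true_iff, (h5 p n M B B hM hB hB).1, (h5 p n M B B hM hB hB).2.2.1]
  exact (h1 (ZMod p) n (toM p n M) (toM p n B) (toM p n B)).2.1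

theorem edgeB_iff (h1 : StKer) (h5 : StBlk) (M B B' : List (List ℕ)) (hM : Sq n M)
    (hB : Sq n B) (hB' : Sq n B') (hs : ¬ Sink (toM p n M) (toM p n B)) :
    edgeB p n M B B' = true ↔ Edg (toM p n M) (toM p n B) (toM p n B') := by
  unfold edgeB
  rw [decide_eq_true_iff, (h5 p n M B B' hM hB hB').1, (h5 p n M B B' hM hB hB').2.2.2]
  exact (h1 (ZMod p) n (toM p n M) (toM p n B) (toM p n B')).2.2 hs

/-- sums over lists of numbers of matrices are combinations -/
theorem comb_list (h6 : StAdd) (Bs : List (List (List ℕ))) (q : List ℕ) :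
    ∃ c : Fin Bs.length → ZMod p, (q.map fun k => toM p n (Bs.getD k (zerM n))).sum =
      ∑ k, c k • toM p n (Bs.get k) := by
  have hp : 0 < p := (Fact.out : p.Prime).pos
  induction q with
  | nil => exact ⟨0, by simp⟩
  | cons a q ih =>
    obtain ⟨c, hc⟩ := ih
    rw [List.map_cons, List.sum_cons, hc]
    by_cases ha : a < Bs.length
    · refine ⟨fun k => (if k = ⟨a, ha⟩ then 1 else 0) + c k, ?_⟩
      have h1 : Bs.getD a (zerM n) = Bs.get ⟨a, ha⟩ := by
        rw [List.getD_eq_getElem _ _ ha]; rfl
      rw [h1]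
      simp only [add_smul, Finset.sum_add_distrib, ite_smul, one_smul, zero_smul,
        Finset.sum_ite_eq', Finset.mem_univ, if_true]
    · refine ⟨c, ?_⟩
      have h1 : Bs.getD a (zerM n) = zerM n := by
        rw [List.getD_eq_default _ _ (not_lt.1 ha)]
      rw [h1, (h6 p n hp).1.2, zero_add]

end

end Step

open Step

theorem stStep (h1 : StKer) (h2 : StAug) (h3 : StDual) (h4 : StBfs) (h5 : StBlk)
    (h6 : StAdd) : StStep := by
  intro p hpp n Bs M hM hB hlen
  have hp : 0 < p := (Fact.out : p.Prime).pos
  have hBs : ∀ B ∈ Bs, Sq n B := fun B hb => (hB B hb).1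
  set q := augP p n Bs M with hq
  set N := sumP p n Bs q with hN
  set t := bestT p n (Bs.length + 3) M N with ht
  have haug : augS p n Bs M = addM p t M N := rfl
  obtain ⟨hSN, hNe⟩ := (h6 p n hp).2.2 Bs q hBs
  rw [← hN] at hSN hNe
  obtain ⟨hSA, hAe⟩ := (h6 p n hp).2.1 t M N hM hSN
  have hrk : ∀ A : List (List ℕ), Sq n A → rkmod p n A = (toM p n A).rank := fun A hA =>
    (h5 p n A A A hA hA hA).1
  -- the choice of `t`
  have hbest : ∀ s, s < Bs.length + 3 →
      (toM p n M).rank < (toM p n M + (s : ZMod p) • toM p n N).rank →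
      (toM p n M).rank < (toM p n (augS p n Bs M)).rank := by
    intro s hs hlt
    have hmem : s ∈ (List.range (Bs.length + 3)).filter
        (fun t => decide (rkmod p n M < rkmod p n (addM p t M N))) := by
      rw [List.mem_filter]
      refine ⟨List.mem_range.2 hs, ?_⟩
      obtain ⟨h7, h8⟩ := (h6 p n hp).2.1 s M N hM hSN
      rw [decide_eq_true_iff, hrk _ hM, hrk _ h7, h8]
      exact hlt
    have hne : (List.range (Bs.length + 3)).filter
        (fun t => decide (rkmod p n M < rkmod p n (addM p t M N))) ≠ [] :=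
      List.ne_nil_of_mem hmem
    obtain ⟨a, l, hal⟩ := List.exists_cons_of_ne_nil hne
    have hta : t = a := by
      rw [ht, bestT, hal]; rfl
    have hmem' : a ∈ (List.range (Bs.length + 3)).filter
        (fun t => decide (rkmod p n M < rkmod p n (addM p t M N))) := by
      rw [hal]; exact List.mem_cons_self
    have h9 := (List.mem_filter.1 hmem').2
    rw [decide_eq_true_iff, ← hta, hrk _ hM, hrk _ hSA] at h9
    rw [haug]; exact h9
  refine ⟨hSA, ?_, ?_, ?_⟩
  · obtain ⟨c, hc⟩ := comb_list p n h6 Bs q
    refine ⟨fun k => (t : ZMod p) * c k, ?_⟩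
    rw [haug, hAe, hNe, hc, Finset.smul_sum]
    simp only [mul_smul]
  · by_cases hex : (List.range (Bs.length + 3)).filter
        (fun t => decide (rkmod p n M < rkmod p n (addM p t M N))) = []
    · have ht0 : t = 0 := by
        rw [ht, bestT, hex]; rfl
      rw [haug, hAe, ht0, Nat.cast_zero, zero_smul, add_zero]
    · obtain ⟨a, l, hal⟩ := List.exists_cons_of_ne_nil hex
      have hta : t = a := by
        rw [ht, bestT, hal]; rfl
      have hmem' : a ∈ (List.range (Bs.length + 3)).filter
          (fun t => decide (rkmod p n M < rkmod p n (addM p t M N))) := by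
        rw [hal]; exact List.mem_cons_self
      have h9 := (List.mem_filter.1 hmem').2
      rw [decide_eq_true_iff, ← hta, hrk _ hM, hrk _ hSA] at h9
      rw [haug]; exact h9.le
  · rintro ⟨c, hc⟩
    have hget : ∀ k, k < Bs.length → Sq n (Bs.getD k (zerM n)) ∧
        (toM p n (Bs.getD k (zerM n))).rank ≤ 1 := by
      intro k hk
      rw [List.getD_eq_getElem _ _ hk]
      exact hB _ (List.getElem_mem hk)
    have hsrc : ∀ k, k < Bs.length → ((Bs.map fun B => srcB p n M B).getD k false = true ↔
        Src (toM p n M) (toM p n (Bs.getD k (zerM n)))) := by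
      intro k hk
      rw [getD_map _ Bs (zerM n) k hk]
      exact srcB_iff p n h1 h5 M _ hM (hget k hk).1
    have hsink : ∀ k, k < Bs.length → ((Bs.map fun B => sinkB p n M B).getD k false = true ↔
        Sink (toM p n M) (toM p n (Bs.getD k (zerM n)))) := by
      intro k hk
      rw [getD_map _ Bs (zerM n) k hk]
      exact sinkB_iff p n h1 h5 M _ hM (hget k hk).1
    have hedge : ∀ k l, k < Bs.length → l < Bs.length →
        ¬ Sink (toM p n M) (toM p n (Bs.getD k (zerM n))) →
        (ed (Bs.map fun B => Bs.map fun B' => edgeB p n M B B') k l = true ↔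
        Edg (toM p n M) (toM p n (Bs.getD k (zerM n))) (toM p n (Bs.getD l (zerM n)))) := by
      intro k l hk hl hs
      rw [ed_map (fun B B' => edgeB p n M B B') Bs (zerM n) k l hk hl]
      exact edgeB_iff p n h1 h5 M _ _ hM (hget k hk).1 (hget l hl).1 hs
    obtain ⟨hA, hC⟩ := h4 Bs.length (Bs.map fun B => srcB p n M B)
      (Bs.map fun B => sinkB p n M B) (Bs.map fun B => Bs.map fun B' => edgeB p n M B B')
    by_cases hnil : findP Bs.length (Bs.map fun B => srcB p n M B)
      (Bs.map fun B => sinkB p n M B) (Bs.map fun B => Bs.map fun B' => edgeB p n M B B') = []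
    · exfalso
      obtain ⟨S, hS1, hS2, hS3, hS4⟩ := hA hnil
      have hgk : ∀ k : Fin Bs.length, toM p n (Bs.get k) =
          toM p n (Bs.getD (k : ℕ) (zerM n)) := by
        intro k
        rw [List.getD_eq_getElem _ _ k.2]; rfl
      have hns : ∀ k : Fin Bs.length, S k → ¬ Sink (toM p n M) (toM p n (Bs.get k)) := by
        intro k hk hs
        rw [hgk k, ← hsink k k.2, hS4 k hk] at hs
        exact Bool.false_ne_true hs
      have := h3 (ZMod p) n Bs.length (toM p n M) (fun k => toM p n (Bs.get k))
        (fun k => S k)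
        (fun k hk => hS2 k k.2 ((hsrc k k.2).2 (by rw [← hgk k]; exact hk)))
        (fun k l hk hkl => hS3 k l hk l.2 ((hedge k l k.2 l.2
          (by rw [← hgk k]; exact hns k hk)).2 (by rw [← hgk k, ← hgk l]; exact hkl)))
        hns c
      exact absurd hc (not_lt.2 this)
    · obtain ⟨i, r, hi, hr, hrm, hs0, hs1, ht1, ht2, he1, he2⟩ := hC hnil
      have hqr : q = ((List.range (i + 1)).map r).reverse := by rw [hq]; exact hr
      have hns : ∀ j < i, ¬ Sink (toM p n M) (toM p n (Bs.getD (r j) (zerM n))) := by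
        intro j hj hs
        rw [← hsink (r j) (hrm j hj.le), ht2 j hj] at hs
        exact Bool.false_ne_true hs
      have hsum : toM p n N = ∑ j ∈ range (i + 1), toM p n (Bs.getD (r j) (zerM n)) := by
        rw [hNe, hqr, List.map_reverse, List.sum_reverse, List.map_map]
        rfl
      -- the values of `t`
      let T : Finset (ZMod p) := (range (i + 2)).image fun k => ((k + 1 : ℕ) : ZMod p)
      have hinj : Set.InjOn (fun k : ℕ => ((k + 1 : ℕ) : ZMod p)) (range (i + 2) : Finset ℕ) := by
        intro a ha b hb hab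
        have ha' : a < i + 2 := by simpa using ha
        have hb' : b < i + 2 := by simpa using hb
        have h7 : (a + 1) % p = (b + 1) % p := (ZMod.natCast_eq_natCast_iff' _ _ _).1 hab
        rw [Nat.mod_eq_of_lt (by omega), Nat.mod_eq_of_lt (by omega)] at h7
        omega
      have hT : i + 2 ≤ T.card := by
        rw [Finset.card_image_of_injOn hinj, Finset.card_range]
      have hT0 : (0 : ZMod p) ∉ T := by
        intro h0
        obtain ⟨k, hk, hk0⟩ := Finset.mem_image.1 h0
        rw [Finset.mem_range] at hk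
        rw [ZMod.natCast_eq_zero_iff] at hk0
        exact absurd (Nat.le_of_dvd (by omega) hk0) (by omega)
      obtain ⟨u, hu, hlt⟩ := h2 (ZMod p) n i (toM p n M)
        (fun j => toM p n (Bs.getD (r j) (zerM n)))
        (fun j hj => (hget _ (hrm j hj)).2)
        ((hsrc _ (hrm 0 (Nat.zero_le _))).1 hs0)
        (fun j hj1 hj2 hs => by
          rw [← hsrc _ (hrm j hj2), hs1 j hj1 hj2] at hs
          exact Bool.false_ne_true hs)
        ((hsink _ (hrm i le_rfl)).1 ht1)
        hns
        (fun j hj => (hedge _ _ (hrm j hj.le) (hrm (j + 1) hj) (hns j hj)).1 (he1 j hj))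
        (fun j j' hj hj' he => by
          rw [← hedge _ _ (hrm j (by omega)) (hrm j' hj') (hns j (by omega)),
            he2 j j' hj hj'] at he
          exact Bool.false_ne_true he)
        T hT hT0
      obtain ⟨k, hk, rfl⟩ := Finset.mem_image.1 hu
      rw [Finset.mem_range] at hk
      refine hbest (k + 1) (by omega) ?_
      rw [hsum]
      exact hlt

end Pool.Agent.Lib.MP_64d474_lc.ST3
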