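import Pool.Agent.Lib.MP_64d474_lc.ST3.Stmts3
import Pool.Agent.Lib.MP_64d474_lc.ST2.Sum

/-!
# The sum of the ranks is at most the length of the input (third machine)
-/

set_option autoImplicit false

open Pool.Agent.Lib.MP_64d474_lc.ST
open Pool.Agent.Lib.MP_64d474_lc.ST2 (StRl)

namespace Pool.Agent.Lib.MP_64d474_lc.ST3

theorem stSum3 (h1 : StRl) : StSum3 := by
  intro w
  obtain ⟨a, b, c⟩ := ST2.stSum h1 w
  exact ⟨a, b, c⟩

end Pool.Agent.Lib.MP_64d474_lc.ST3
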