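import Pool.Agent.Lib.MP_64d474_lc.ST3.Stmts3
import Pool.Agent.Lib.MP_64d474_lc.ST2.Xm

/-!
# The value of a wild variable modulo a number (module Wm)
-/

set_option autoImplicit false

open Pool.Agent.Lib.PT Pool.Agent.Lib.MP_64d474_lc.ST

namespace Pool.Agent.Lib.MP_64d474_lc.ST3

theorem stWm : StWm := by
  intro p l R x j _
  unfold wm wv
  split_ifs with h1 h2
  all_goals first
    | exact ST2.Xm.hit_cast p _ R _ j
    | exact ZMod.natCast_mod _ _
    | rfl

end Pool.Agent.Lib.MP_64d474_lc.ST3
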